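import Mathlib

/-! Categorical product monoids: basic facts, the universal CP monoid, a concrete model. -/

namespace Pool.Agent.Q94.CP

/-- `(M, sig, p, q)` is a CP monoid: `sig : M² → M` is a bijection with `p (sig a b) = a` and
`q (sig a b) = b`. -/
structure IsCP {M : Type*} [Monoid M] (sig : M → M → M) (p q : M) : Prop where
  bij : Function.Bijective (fun x : M × M => sig x.1 x.2)
  fst : ∀ a b, p * sig a b = a
  snd : ∀ a b, q * sig a b = b

/-- `f` is a homomorphism of CP monoids -/
def IsHom {M N : Type*} [Monoid M] [Monoid N] (sig : M → M → M) (p q : M)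
    (sig' : N → N → N) (p' q' : N) (f : M →* N) : Prop :=
  f p = p' ∧ f q = q' ∧ ∀ a b, f (sig a b) = sig' (f a) (f b)

/-- `(U, sig, p, q)` is an initial CP monoid (with respect to CP monoids in `Type v`) -/
def IsUniversal.{v, u} {U : Type u} [Monoid U] (sig : U → U → U) (p q : U) : Prop :=
  ∀ (N : Type v) (_ : Monoid N) (sig' : N → N → N) (p' q' : N), IsCP sig' p' q' →
    ∃! f : U →* N, IsHom sig p q sig' p' q' f

section basic
variable {M : Type*} [Monoid M] {sig : M → M → M} {p q : M}

theorem IsCP.ext (h : IsCP sig p q) {x y : M} (h1 : p * x = p * y) (h2 : q * x = q * y) :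
    x = y := by
  obtain ⟨⟨a, b⟩, hab⟩ := h.bij.2 x
  obtain ⟨⟨c, d⟩, hcd⟩ := h.bij.2 y
  simp only at hab hcd
  rw [← hab, ← hcd] at h1 h2 ⊢
  rw [h.fst, h.fst] at h1
  rw [h.snd, h.snd] at h2
  rw [h1, h2]

theorem IsCP.mul (h : IsCP sig p q) (a b c : M) : sig a b * c = sig (a * c) (b * c) := by
  apply h.ext
  · rw [← mul_assoc, h.fst, h.fst]
  · rw [← mul_assoc, h.snd, h.snd]

theorem IsCP.eta (h : IsCP sig p q) : sig p q = 1 := by
  apply h.ext
  · rw [h.fst, mul_one]
  · rw [h.snd, mul_one]

theorem IsCP.eta' (h : IsCP sig p q) (c : M) : sig (p * c) (q * c) = c := by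
  rw [← h.mul, h.eta, one_mul]

theorem IsCP.of_laws (h1 : ∀ a b, p * sig a b = a) (h2 : ∀ a b, q * sig a b = b)
    (h3 : ∀ a b c, sig a b * c = sig (a * c) (b * c)) (h4 : sig p q = 1) : IsCP sig p q where
  bij := by
    constructor
    · rintro ⟨a, b⟩ ⟨c, d⟩ h
      simp only at h
      have e1 : a = c := by rw [← h1 a b, h, h1]
      have e2 : b = d := by rw [← h2 a b, h, h2]
      rw [e1, e2]
    · intro c
      exact ⟨(p * c, q * c), by simp only; rw [← h3, h4, one_mul]⟩
  fst := h1
  snd := h2

theorem IsCP.not_left_inv [Nontrivial M] (h : IsCP sig p q) {a : M} (ha : a * p = 1) : False := by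
  obtain ⟨y, y', hy⟩ := exists_pair_ne M
  have h1 : ∀ z, sig 1 z = a := by
    intro z
    have : a * (p * sig 1 z) = sig 1 z := by rw [← mul_assoc, ha, one_mul]
    rw [← this, h.fst, mul_one]
  apply hy
  rw [← h.snd 1 y, h1, ← h1 y', h.snd]

end basic

/-! ### The term model -/

/-- terms -/
inductive Tm : Type
  | one : Tm
  | p : Tm
  | q : Tm
  | mul (a b : Tm) : Tm
  | sig (a b : Tm) : Tm

/-- the congruence generated by the laws of CP monoids -/
inductive Rel : Tm → Tm → Prop
  | refl (a) : Rel a a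
  | symm {a b} : Rel a b → Rel b a
  | trans {a b c} : Rel a b → Rel b c → Rel a c
  | mul {a b c d} : Rel a b → Rel c d → Rel (.mul a c) (.mul b d)
  | sig {a b c d} : Rel a b → Rel c d → Rel (.sig a c) (.sig b d)
  | assoc (a b c) : Rel (.mul (.mul a b) c) (.mul a (.mul b c))
  | one_mul (a) : Rel (.mul .one a) a
  | mul_one (a) : Rel (.mul a .one) a
  | fst (a b) : Rel (.mul .p (.sig a b)) a
  | snd (a b) : Rel (.mul .q (.sig a b)) b
  | sig_mul (a b c) : Rel (.mul (.sig a b) c) (.sig (.mul a c) (.mul b c))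
  | eta : Rel (.sig .p .q) .one

/-- the setoid of the congruence -/
def st : Setoid Tm := ⟨Rel, Rel.refl, Rel.symm, Rel.trans⟩

/-- the universal CP monoid -/
def U : Type := Quotient st

namespace U

/-- class of a term -/
def mk (a : Tm) : U := Quotient.mk st a

theorem sound {a b : Tm} (h : Rel a b) : mk a = mk b := Quotient.sound h

instance : Monoid U where
  mul := Quotient.map₂ Tm.mul fun _ _ h1 _ _ h2 => Rel.mul h1 h2
  one := mk .one
  mul_assoc := by
    rintro ⟨a⟩ ⟨b⟩ ⟨c⟩
    exact sound (.assoc a b c)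
  one_mul := by
    rintro ⟨a⟩
    exact sound (.one_mul a)
  mul_one := by
    rintro ⟨a⟩
    exact sound (.mul_one a)

/-- the operation -/
def sig : U → U → U := Quotient.map₂ Tm.sig fun _ _ h1 _ _ h2 => Rel.sig h1 h2
/-- first projection -/
def p : U := mk .p
/-- second projection -/
def q : U := mk .q

theorem isCP : IsCP sig p q := by
  refine IsCP.of_laws ?_ ?_ ?_ ?_
  · rintro ⟨a⟩ ⟨b⟩
    exact sound (.fst a b)
  · rintro ⟨a⟩ ⟨b⟩
    exact sound (.snd a b)
  · rintro ⟨a⟩ ⟨b⟩ ⟨c⟩
    exact sound (.sig_mul a b c)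
  · exact sound .eta

/-- evaluation of terms -/
def ev {N : Type*} [Monoid N] (sig' : N → N → N) (p' q' : N) : Tm → N
  | .one => 1
  | .p => p'
  | .q => q'
  | .mul a b => ev sig' p' q' a * ev sig' p' q' b
  | .sig a b => sig' (ev sig' p' q' a) (ev sig' p' q' b)

theorem ev_rel {N : Type*} [Monoid N] {sig' : N → N → N} {p' q' : N} (h : IsCP sig' p' q')
    {a b : Tm} (hab : Rel a b) : ev sig' p' q' a = ev sig' p' q' b := by
  induction hab with
  | refl a => rfl
  | symm _ ih => exact ih.symm
  | trans _ _ ih1 ih2 => exact ih1.trans ih2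
  | mul _ _ ih1 ih2 => simp only [ev, ih1, ih2]
  | sig _ _ ih1 ih2 => simp only [ev, ih1, ih2]
  | assoc a b c => simp only [ev, mul_assoc]
  | one_mul a => simp only [ev, _root_.one_mul]
  | mul_one a => simp only [ev, _root_.mul_one]
  | fst a b => simp only [ev, h.fst]
  | snd a b => simp only [ev, h.snd]
  | sig_mul a b c => simp only [ev, h.mul]
  | eta => simp only [ev, h.eta]

theorem isUniversal : IsUniversal sig p q := by
  intro N _ sig' p' q' h
  let f : U →* N :=
    { toFun := Quotient.lift (ev sig' p' q') fun _ _ hab => ev_rel h hab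
      map_one' := rfl
      map_mul' := by
        rintro ⟨a⟩ ⟨b⟩
        rfl }
  refine ⟨f, ⟨rfl, rfl, ?_⟩, ?_⟩
  · rintro ⟨a⟩ ⟨b⟩
    rfl
  · rintro g ⟨h1, h2, h3⟩
    ext x
    obtain ⟨a⟩ := x
    change g (mk a) = ev sig' p' q' a
    induction a with
    | one => exact map_one g
    | p => exact h1
    | q => exact h2
    | mul a b iha ihb =>
      have : mk (.mul a b) = mk a * mk b := rfl
      rw [this, map_mul, iha, ihb]
      rfl
    | sig a b iha ihb =>
      have : mk (.sig a b) = sig (mk a) (mk b) := rfl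
      rw [this, h3, iha, ihb]
      rfl

end U

/-! ### Induction in a universal CP monoid -/

theorem IsUniversal.induction {V : Type} [Monoid V] {sig : V → V → V} {p q : V}
    (hcp : IsCP sig p q) (h : IsUniversal.{0} sig p q) (S : Submonoid V) (hp : p ∈ S) (hq : q ∈ S)
    (hs : ∀ a ∈ S, ∀ b ∈ S, sig a b ∈ S) (x : V) : x ∈ S := by
  let sig' : S → S → S := fun a b => ⟨sig a b, hs a a.2 b b.2⟩
  have hcp' : IsCP sig' ⟨p, hp⟩ ⟨q, hq⟩ := by
    refine IsCP.of_laws ?_ ?_ ?_ ?_
    · intro a b
      exact Subtype.ext (hcp.fst _ _)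
    · intro a b
      exact Subtype.ext (hcp.snd _ _)
    · intro a b c
      exact Subtype.ext (hcp.mul _ _ _)
    · exact Subtype.ext hcp.eta
  obtain ⟨f, ⟨hf1, hf2, hf3⟩, -⟩ := h S inferInstance sig' _ _ hcp'
  obtain ⟨g, -, hg⟩ := h V inferInstance sig p q hcp
  have e1 : S.subtype.comp f = g := by
    apply hg
    refine ⟨?_, ?_, ?_⟩
    · simp [hf1]
    · simp [hf2]
    · intro a b
      simp [hf3, sig']
  have e2 : MonoidHom.id V = g := hg _ ⟨rfl, rfl, fun _ _ => rfl⟩
  have e3 : S.subtype.comp f = MonoidHom.id V := e1.trans e2.symm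
  have e4 : (f x : V) = x := DFunLike.congr_fun e3 x
  rw [← e4]
  exact (f x).2

/-! ### The model on infinite sequences -/

/-- prepend a letter -/
def cons (b : Bool) (s : ℕ → Bool) : ℕ → Bool
  | 0 => b
  | n + 1 => s n

/-- drop the first letter -/
def tl (s : ℕ → Bool) : ℕ → Bool := fun n => s (n + 1)

@[simp] theorem cons_zero (b : Bool) (s : ℕ → Bool) : cons b s 0 = b := rfl
@[simp] theorem tl_cons (b : Bool) (s : ℕ → Bool) : tl (cons b s) = s := rfl
theorem cons_tl (s : ℕ → Bool) : cons (s 0) (tl s) = s := by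
  funext n
  cases n <;> rfl

/-- The monoid of self-maps of the Cantor set, with reversed composition. -/
abbrev EndC : Type := (Function.End (ℕ → Bool))ᵐᵒᵖ

/-- the operation: case distinction on the first letter -/
def sigC (a b : EndC) : EndC :=
  MulOpposite.op (fun s => if s 0 = false then a.unop (tl s) else b.unop (tl s))

/-- prepend `false` -/
def pC : EndC := MulOpposite.op (cons false)
/-- prepend `true` -/
def qC : EndC := MulOpposite.op (cons true)

theorem isCP_C : IsCP sigC pC qC := by
  refine IsCP.of_laws ?_ ?_ ?_ ?_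
  · intro a b
    apply MulOpposite.unop_injective
    funext s
    simp [sigC, pC, Function.End.mul_def]
  · intro a b
    apply MulOpposite.unop_injective
    funext s
    simp [sigC, qC, Function.End.mul_def]
  · intro a b c
    apply MulOpposite.unop_injective
    funext s
    simp only [sigC, MulOpposite.unop_mul, MulOpposite.unop_op, Function.End.mul_def,
      Function.comp_apply]
    split_ifs <;> rfl
  · apply MulOpposite.unop_injective
    funext s
    simp only [sigC, pC, qC, MulOpposite.unop_op, MulOpposite.unop_one]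
    have := cons_tl s
    split_ifs with h
    · rw [h] at this; exact this
    · have h' : s 0 = true := by simpa using h
      rw [h'] at this; exact this

theorem pC_ne_qC : pC ≠ qC := by
  intro h
  have := congrFun (congrArg MulOpposite.unop h) (fun _ => false)
  have h0 : false = true := congrFun this 0
  exact Bool.false_ne_true h0

theorem IsUniversal.nontrivial {V : Type} [Monoid V] {sig : V → V → V} {p q : V}
    (h : IsUniversal.{0} sig p q) : Nontrivial V := by
  obtain ⟨f, ⟨hf1, hf2, -⟩, -⟩ := h _ _ _ _ _ isCP_C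
  refine ⟨p, q, fun hpq => pC_ne_qC ?_⟩
  rw [← hf1, ← hf2, hpq]

end Pool.Agent.Q94.CP
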