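import Mathlib
import Pool.Agent.Q94.CP

/-! Binary trees, the `d`-CP structures obtained from them, and the unit group of the universal
CP monoid. -/

namespace Pool.Agent.Q94.CP

/-- `(Φ; τ_1, …, τ_d)` is a `d`-CP structure on the monoid `M`. -/
structure IsDCP {M : Type*} [Monoid M] {d : ℕ} (Φ : (Fin d → M) → M) (τ : Fin d → M) : Prop where
  bij : Function.Bijective Φ
  proj : ∀ i m, τ i * Φ m = m i

/-- The set `𝕊(M)`: all structures obtained from `(sig; p, q)` and `(id; 1)` by repeated
combination.  In `comb` the index set `{1, …, Σ d_i}` is identified with the set of the pairs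
`(i, j)` in lexicographic order through `finSigmaFinEquiv`. -/
inductive InS {M : Type*} [Monoid M] (sig : M → M → M) (p q : M) :
    (d : ℕ) → ((Fin d → M) → M) → (Fin d → M) → Prop
  | base : InS sig p q 2 (fun m => sig (m 0) (m 1)) ![p, q]
  | triv : InS sig p q 1 (fun m => m 0) (fun _ => 1)
  | comb {s : ℕ} {Ψ : (Fin s → M) → M} {ρ : Fin s → M} (hΨ : InS sig p q s Ψ ρ)
      {d : Fin s → ℕ} {Φ : ∀ i, (Fin (d i) → M) → M} {τ : ∀ i, Fin (d i) → M}
      (h : ∀ i, InS sig p q (d i) (Φ i) (τ i)) :
      InS sig p q (∑ i, d i)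
        (fun m => Ψ (fun i => Φ i (fun j => m (finSigmaFinEquiv ⟨i, j⟩))))
        (fun k => τ (finSigmaFinEquiv.symm k).1 (finSigmaFinEquiv.symm k).2 *
          ρ (finSigmaFinEquiv.symm k).1)

section
variable {M : Type*} [Monoid M] {sig : M → M → M} {p q : M}

theorem InS.isDCP (hcp : IsCP sig p q) {d : ℕ} {Φ : (Fin d → M) → M} {τ : Fin d → M}
    (h : InS sig p q d Φ τ) : IsDCP Φ τ := by
  induction h with
  | base =>
    refine ⟨⟨?_, ?_⟩, ?_⟩
    · intro m m' h
      have := @hcp.bij.1 (m 0, m 1) (m' 0, m' 1) h
      simp only [Prod.mk.injEq] at this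
      funext i
      fin_cases i
      · exact this.1
      · exact this.2
    · intro x
      obtain ⟨⟨a, b⟩, hab⟩ := hcp.bij.2 x
      exact ⟨![a, b], hab⟩
    · intro i m
      fin_cases i
      · exact hcp.fst _ _
      · exact hcp.snd _ _
  | triv =>
    refine ⟨⟨?_, ?_⟩, ?_⟩
    · intro m m' h
      funext i
      rw [Subsingleton.elim i 0]
      exact h
    · intro x
      exact ⟨fun _ => x, rfl⟩
    · intro i m
      rw [Subsingleton.elim i 0]
      exact one_mul _
  | @comb s Ψ ρ _ d Φ τ _ ihΨ ih =>
    refine ⟨⟨?_, ?_⟩, ?_⟩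
    · intro m m' h
      have h1 := ihΨ.bij.1 h
      funext k
      obtain ⟨⟨i, j⟩, rfl⟩ := finSigmaFinEquiv.surjective k
      have h2 := (ih i).bij.1 (congrFun h1 i)
      exact congrFun h2 j
    · intro x
      obtain ⟨y, rfl⟩ := ihΨ.bij.2 x
      choose z hz using fun i => (ih i).bij.2 (y i)
      let g : (Σ i, Fin (d i)) → M := fun x => z x.1 x.2
      refine ⟨fun k => g (finSigmaFinEquiv.symm k), ?_⟩
      simp only [Equiv.symm_apply_apply]
      congr 1
      funext i
      exact hz i
    · intro k m
      obtain ⟨⟨i, j⟩, rfl⟩ := finSigmaFinEquiv.surjective k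
      let g : (Σ i, Fin (d i)) → M := fun x => τ x.1 x.2 * ρ x.1
      change g (finSigmaFinEquiv.symm (finSigmaFinEquiv ⟨i, j⟩)) * _ = _
      rw [Equiv.symm_apply_apply]
      change τ i j * ρ i * _ = _
      rw [mul_assoc, ihΨ.proj, (ih i).proj]

end

/-- binary trees -/
inductive T : Type
  | leaf : T
  | node (l r : T) : T

namespace T

/-- the type of leaves -/
def Idx : T → Type
  | leaf => Unit
  | node l r => l.Idx ⊕ r.Idx

/-- the number of leaves -/
def size : T → ℕ
  | leaf => 1
  | node l r => l.size + r.size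

instance decIdx : (t : T) → DecidableEq t.Idx
  | leaf => inferInstanceAs (DecidableEq Unit)
  | node l r =>
    have := decIdx l
    have := decIdx r
    inferInstanceAs (DecidableEq (l.Idx ⊕ r.Idx))

instance finIdx : (t : T) → Fintype t.Idx
  | leaf => inferInstanceAs (Fintype Unit)
  | node l r =>
    have := finIdx l
    have := finIdx r
    inferInstanceAs (Fintype (l.Idx ⊕ r.Idx))

instance nonemptyIdx : (t : T) → Nonempty t.Idx
  | leaf => ⟨()⟩
  | node l _ => (nonemptyIdx l).map Sum.inl

section
variable {M : Type*} [Monoid M] (sig : M → M → M) (p q : M)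

/-- the bijection attached to a tree -/
def Phi : (t : T) → (t.Idx → M) → M
  | leaf, m => m ()
  | node l r, m => sig (Phi l (fun i => m (Sum.inl i))) (Phi r (fun i => m (Sum.inr i)))

/-- the distinguished elements attached to the leaves of a tree -/
def tau : (t : T) → t.Idx → M
  | leaf, _ => 1
  | node l _, Sum.inl i => tau l i * p
  | node _ r, Sum.inr i => tau r i * q

end

section
variable {M : Type*} [Monoid M] {sig : M → M → M} {p q : M}

theorem Phi_mul (h : IsCP sig p q) : ∀ (t : T) (m : t.Idx → M) (c : M),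
    Phi sig t m * c = Phi sig t (fun i => m i * c)
  | leaf, m, c => rfl
  | node l r, m, c => by
    simp only [Phi]
    rw [h.mul, Phi_mul h l, Phi_mul h r]

theorem tau_Phi (h : IsCP sig p q) : ∀ (t : T) (m : t.Idx → M) (i : t.Idx),
    tau p q t i * Phi sig t m = m i
  | leaf, m, i => by cases i; exact one_mul _
  | node l r, m, Sum.inl i => by
    simp only [Phi, tau]
    rw [mul_assoc, h.fst, tau_Phi h l]
  | node l r, m, Sum.inr i => by
    simp only [Phi, tau]
    rw [mul_assoc, h.snd, tau_Phi h r]

theorem Phi_tau (h : IsCP sig p q) : ∀ (t : T), Phi sig t (tau p q t) = 1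
  | leaf => rfl
  | node l r => by
    simp only [Phi, tau]
    rw [← Phi_mul h l, ← Phi_mul h r, Phi_tau h l, Phi_tau h r, one_mul, one_mul, h.eta]

/-- the tree permutation -/
def psi (sig : M → M → M) (p q : M) (t : T) (σ : Equiv.Perm t.Idx) : M :=
  Phi sig t (fun i => tau p q t (σ i))

theorem psi_mul_Phi (h : IsCP sig p q) (t : T) (σ : Equiv.Perm t.Idx) (m : t.Idx → M) :
    psi sig p q t σ * Phi sig t m = Phi sig t (fun i => m (σ i)) := by
  unfold psi
  rw [Phi_mul h]
  congr 1
  funext i
  exact tau_Phi h t m (σ i)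

theorem psi_mul_psi (h : IsCP sig p q) (t : T) (σ σ' : Equiv.Perm t.Idx) :
    psi sig p q t σ * psi sig p q t σ' = psi sig p q t (σ' * σ) := by
  conv_lhs => rw [psi.eq_def sig p q t σ']
  rw [psi_mul_Phi h]
  rfl

theorem psi_one (h : IsCP sig p q) (t : T) : psi sig p q t 1 = 1 := Phi_tau h t

/-- the tree permutation as a unit -/
def psiU (h : IsCP sig p q) (t : T) (σ : Equiv.Perm t.Idx) : Mˣ where
  val := psi sig p q t σ
  inv := psi sig p q t σ⁻¹
  val_inv := by rw [psi_mul_psi h, inv_mul_cancel, psi_one h]
  inv_val := by rw [psi_mul_psi h, mul_inv_cancel, psi_one h]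

/-- words in `p, q`; the last letter is the leftmost factor -/
def W (p q : M) : List Bool → M
  | [] => 1
  | b :: l => W p q l * (if b then q else p)

theorem W_append (l l' : List Bool) : W p q (l ++ l') = W p q l' * W p q l := by
  induction l with
  | nil => simp [W]
  | cons b l ih => simp only [List.cons_append, W, ih, mul_assoc]

/-- the elements of tree form -/
def IsForm (sig : M → M → M) (p q x : M) : Prop :=
  ∃ (t : T) (L : t.Idx → List Bool), x = Phi sig t (fun i => W p q (L i))

theorem isForm_W (l : List Bool) : IsForm sig p q (W p q l) := ⟨leaf, fun _ => l, rfl⟩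

theorem IsForm.sigma {x y : M} (hx : IsForm sig p q x) (hy : IsForm sig p q y) :
    IsForm sig p q (sig x y) := by
  obtain ⟨t, L, rfl⟩ := hx
  obtain ⟨t', L', rfl⟩ := hy
  exact ⟨node t t', Sum.elim L L', rfl⟩

theorem IsForm.letter (h : IsCP sig p q) {x : M} (hx : IsForm sig p q x) (b : Bool) :
    IsForm sig p q ((if b then q else p) * x) := by
  obtain ⟨t, L, rfl⟩ := hx
  cases t with
  | leaf =>
    refine ⟨leaf, fun _ => L () ++ [b], ?_⟩
    simp only [Phi]
    rw [W_append]
    simp [W]
  | node l r =>
    cases b with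
    | false =>
      refine ⟨l, fun i => L (Sum.inl i), ?_⟩
      simp only [Phi]
      exact h.fst _ _
    | true =>
      refine ⟨r, fun i => L (Sum.inr i), ?_⟩
      simp only [Phi]
      exact h.snd _ _

theorem IsForm.W_mul (h : IsCP sig p q) {x : M} (hx : IsForm sig p q x) (l : List Bool) :
    IsForm sig p q (W p q l * x) := by
  induction l generalizing x with
  | nil => simpa [W] using hx
  | cons b l ih =>
    simp only [W, mul_assoc]
    exact ih (hx.letter h b)

theorem isForm_Phi (t : T) : ∀ (m : t.Idx → M), (∀ i, IsForm sig p q (m i)) →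
    IsForm sig p q (Phi sig t m) := by
  induction t with
  | leaf => exact fun m hm => hm ()
  | node l r ihl ihr =>
    intro m hm
    exact (ihl _ fun i => hm (Sum.inl i)).sigma (ihr _ fun i => hm (Sum.inr i))

theorem IsForm.mul (h : IsCP sig p q) {x y : M} (hx : IsForm sig p q x) (hy : IsForm sig p q y) :
    IsForm sig p q (x * y) := by
  obtain ⟨t, L, rfl⟩ := hx
  rw [Phi_mul h]
  exact isForm_Phi t _ fun i => hy.W_mul h _

/-- every element of the universal CP monoid has tree form -/
theorem isForm_universal {V : Type} [Monoid V] {sig : V → V → V} {p q : V}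
    (hcp : IsCP sig p q) (h : IsUniversal.{0} sig p q) (x : V) : IsForm sig p q x := by
  let S : Submonoid V :=
    { carrier := {x | IsForm sig p q x}
      mul_mem' := fun ha hb => IsForm.mul hcp ha hb
      one_mem' := isForm_W [] }
  refine IsUniversal.induction hcp h S ?_ ?_ (fun a ha b hb => IsForm.sigma ha hb) x
  · change IsForm sig p q p
    have := isForm_W (sig := sig) (p := p) (q := q) [false]
    simpa [W] using this
  · change IsForm sig p q q
    have := isForm_W (sig := sig) (p := p) (q := q) [true]
    simpa [W] using this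

/-! ### Carets -/

theorem caret (h : IsCP sig p q) (t : T) : t ≠ leaf → ∃ (i0 i1 : t.Idx) (t' : T), i0 ≠ i1 ∧
    t'.size < t.size ∧ ∀ (L : t.Idx → List Bool) (z : List Bool), L i0 = z ++ [false] →
      L i1 = z ++ [true] → ∃ L' : t'.Idx → List Bool,
        Phi sig t (fun i => W p q (L i)) = Phi sig t' (fun i => W p q (L' i)) := by
  induction t with
  | leaf => exact fun h => absurd rfl h
  | node l r ihl ihr =>
    intro _
    by_cases hl : l = leaf
    · by_cases hr : r = leaf
      · subst hl hr
        refine ⟨Sum.inl (), Sum.inr (), leaf, Sum.inl_ne_inr, by simp [size], ?_⟩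
        intro L z h0 h1
        refine ⟨fun _ => z, ?_⟩
        simp only [Phi]
        rw [h0, h1, W_append, W_append]
        simp only [W, one_mul, Bool.false_eq_true, if_false, if_true]
        exact h.eta' _
      · obtain ⟨i0, i1, t', h1, h2, h3⟩ := ihr hr
        refine ⟨Sum.inr i0, Sum.inr i1, node l t', fun h => h1 (Sum.inr_injective h),
          by simp only [size]; omega, ?_⟩
        intro L z e0 e1
        obtain ⟨L', hL'⟩ := h3 (fun i => L (Sum.inr i)) z e0 e1
        refine ⟨Sum.elim (fun i => L (Sum.inl i)) L', ?_⟩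
        simp only [Phi, Sum.elim_inl, Sum.elim_inr]
        rw [hL']
    · obtain ⟨i0, i1, t', h1, h2, h3⟩ := ihl hl
      refine ⟨Sum.inl i0, Sum.inl i1, node t' r, fun h => h1 (Sum.inl_injective h),
        by simp only [size]; omega, ?_⟩
      intro L z e0 e1
      obtain ⟨L', hL'⟩ := h3 (fun i => L (Sum.inl i)) z e0 e1
      refine ⟨Sum.elim L' (fun i => L (Sum.inr i)), ?_⟩
      simp only [Phi, Sum.elim_inl, Sum.elim_inr]
      rw [hL']

end

/-! ### Bridge to `InS` -/

theorem exists_inS {M : Type*} [Monoid M] (sig : M → M → M) (p q : M) (t : T) :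
    ∃ (n : ℕ) (e : t.Idx ≃ Fin n), InS sig p q n (fun m => Phi sig t (fun i => m (e i)))
      (fun k => tau p q t (e.symm k)) := by
  induction t with
  | leaf =>
    exact ⟨1, ⟨fun _ => 0, fun _ => (), fun _ => rfl, fun i => (Subsingleton.elim i 0).symm⟩,
      InS.triv⟩
  | node l r ihl ihr =>
    obtain ⟨a, el, hl⟩ := ihl
    obtain ⟨b, er, hr⟩ := ihr
    let d : Fin 2 → ℕ := ![a, b]
    let Φ : ∀ i, (Fin (d i) → M) → M := fun i =>
      match i with
      | 0 => fun m => Phi sig l (fun i => m (el i))
      | 1 => fun m => Phi sig r (fun i => m (er i))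
    let τ : ∀ i, Fin (d i) → M := fun i =>
      match i with
      | 0 => fun k => tau p q l (el.symm k)
      | 1 => fun k => tau p q r (er.symm k)
    have hh : ∀ i, InS sig p q (d i) (Φ i) (τ i) := fun i =>
      match i with
      | 0 => hl
      | 1 => hr
    have key := InS.comb InS.base hh
    let e' : (node l r).Idx ≃ (Σ i : Fin 2, Fin (d i)) :=
      { toFun := fun x => match x with
          | Sum.inl i => ⟨0, el i⟩
          | Sum.inr i => ⟨1, er i⟩
        invFun := fun x => match x with
          | ⟨0, i⟩ => Sum.inl (el.symm i)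
          | ⟨1, i⟩ => Sum.inr (er.symm i)
        left_inv := by
          rintro (i | i)
          · simp
          · simp
        right_inv := by
          rintro ⟨i, j⟩
          match i, j with
          | 0, j => simp
          | 1, j => simp }
    refine ⟨∑ i, d i, e'.trans finSigmaFinEquiv, ?_⟩
    have e1 : (fun k => tau p q (node l r) ((e'.trans finSigmaFinEquiv).symm k)) =
        (fun k => τ (finSigmaFinEquiv.symm k).1 (finSigmaFinEquiv.symm k).2 *
          ![p, q] (finSigmaFinEquiv.symm k).1) := by
      funext k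
      change tau p q (node l r) (e'.symm (finSigmaFinEquiv.symm k)) = _
      generalize finSigmaFinEquiv.symm k = x
      obtain ⟨i, j⟩ := x
      match i, j with
      | 0, j => rfl
      | 1, j => rfl
    rw [e1]
    exact key

end T

end Pool.Agent.Q94.CP
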