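import Mathlib

/-! Lattice embeddings of `Sub(B³)`, `B` an abelian group, into subspace lattices over division
rings. -/

namespace Pool.Agent.Q94.CubeSub

open AddSubgroup

section lines
variable {B : Type*} [AddCommGroup B]

/-- the cyclic subgroup generated by `(i b, j b, k b)` -/
def ln (b : B) (i j k : ℤ) : AddSubgroup (Fin 3 → B) := zmultiples ![i • b, j • b, k • b]

theorem mem_ln {b : B} {i j k : ℤ} {w : Fin 3 → B} :
    w ∈ ln b i j k ↔ ∃ t : ℤ, w 0 = (t * i) • b ∧ w 1 = (t * j) • b ∧ w 2 = (t * k) • b := by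
  unfold ln
  rw [mem_zmultiples_iff]
  constructor
  · rintro ⟨t, rfl⟩
    exact ⟨t, by simp [mul_smul], by simp [mul_smul], by simp [mul_smul]⟩
  · rintro ⟨t, h0, h1, h2⟩
    refine ⟨t, ?_⟩
    funext l
    fin_cases l
    · simp [h0, mul_smul]
    · simp [h1, mul_smul]
    · simp [h2, mul_smul]

theorem step_le (b : B) (k : ℤ) :
    (((ln b 1 k 0 ⊔ ln b 0 1 1) ⊓ (ln b 1 0 1 ⊔ ln b 0 1 0)) ⊔ ln b 0 0 1) ⊓
      (ln b 1 0 0 ⊔ ln b 0 1 0) ≤ ln b 1 (k + 1) 0 := by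
  intro w hw
  obtain ⟨hw1, hw2⟩ := hw
  obtain ⟨a, ha, c, hb, rfl⟩ := mem_sup.mp hw1
  obtain ⟨ha1, ha2⟩ := ha
  obtain ⟨a1, h1, a2, h2, h12⟩ := mem_sup.mp ha1
  obtain ⟨a3, h3, a4, h4, h34⟩ := mem_sup.mp ha2
  obtain ⟨c1, hc1, c2, hc2, hc⟩ := mem_sup.mp hw2
  rw [mem_ln] at *
  obtain ⟨t1, h10, h11, h12'⟩ := h1
  obtain ⟨t2, h20, h21, h22⟩ := h2
  obtain ⟨t3, h30, h31, h32⟩ := h3
  obtain ⟨t4, h40, h41, h42⟩ := h4
  obtain ⟨t5, hb0, hb1, hb2⟩ := hb
  obtain ⟨t6, hc10, hc11, hc12⟩ := hc1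
  obtain ⟨t7, hc20, hc21, hc22⟩ := hc2
  have e0 := congrFun h12 0
  have e1 := congrFun h12 1
  have e2 := congrFun h12 2
  have f0 := congrFun h34 0
  have f2 := congrFun h34 2
  have g2 := congrFun hc 2
  simp only [Pi.add_apply] at e0 e1 e2 f0 f2 g2 ⊢
  simp only [mul_zero, mul_one, zero_smul, add_zero, zero_add] at *
  refine ⟨t1, ?_, ?_, ?_⟩
  · rw [hb0, ← e0, h10, h20]; simp
  · have c : t3 • b = t1 • b := by
      rw [← h30, ← h10]
      rw [h40, add_zero] at f0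
      rw [h20, add_zero] at e0
      rw [f0, e0]
    have d : t2 • b = t3 • b := by
      rw [← h22, ← h32]
      rw [h12', zero_add] at e2
      rw [h42, add_zero] at f2
      rw [e2, f2]
    rw [hb1, add_zero, ← e1, h11, h21, d, c]
    rw [← add_smul]
    congr 1
    ring
  · rw [← g2, hc12, hc22]; simp

theorem le13 (b : B) : ln b 1 0 0 ≤ ln b 1 0 1 ⊔ ln b 0 0 1 := by
  intro w hw
  rw [mem_ln] at hw
  obtain ⟨t, h0, h1, h2⟩ := hw
  rw [mem_sup]
  refine ⟨![t • b, 0, t • b], ?_, ![0, 0, -(t • b)], ?_, ?_⟩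
  · rw [mem_ln]; exact ⟨t, by simp, by simp, by simp⟩
  · rw [mem_ln]; exact ⟨-t, by simp, by simp, by simp⟩
  · funext i
    fin_cases i
    · simp [h0]
    · simp [h1]
    · simp [h2]

theorem le23 (b : B) : ln b 0 0 1 ≤ ln b 0 1 1 ⊔ ln b 0 1 0 := by
  intro w hw
  rw [mem_ln] at hw
  obtain ⟨t, h0, h1, h2⟩ := hw
  rw [mem_sup]
  refine ⟨![0, t • b, t • b], ?_, ![0, -(t • b), 0], ?_, ?_⟩
  · rw [mem_ln]; exact ⟨t, by simp, by simp, by simp⟩
  · rw [mem_ln]; exact ⟨-t, by simp, by simp, by simp⟩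
  · funext i
    fin_cases i
    · simp [h0]
    · simp [h1]
    · simp [h2]

theorem down12 (b : B) (q : ℤ) :
    (ln b 1 q 0 ⊔ ln b 1 0 0) ⊓ ln b 0 1 0 ≤ ln b 0 q 0 := by
  rintro w ⟨h1, h2⟩
  obtain ⟨a, ha, c, hc, rfl⟩ := mem_sup.mp h1
  rw [SetLike.mem_coe] at h2
  rw [mem_ln]
  obtain ⟨t, ha0, ha1, ha2⟩ := mem_ln.mp ha
  obtain ⟨s, hc0, hc1, hc2⟩ := mem_ln.mp hc
  obtain ⟨u, h20, h21, h22⟩ := mem_ln.mp h2
  refine ⟨t, ?_, ?_, ?_⟩
  · simpa using h20
  · rw [Pi.add_apply, ha1, hc1]; simp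
  · simpa using h22

theorem down23 (b : B) (q : ℤ) :
    (ln b 0 q 0 ⊔ ln b 0 1 1) ⊓ ln b 0 0 1 ≤ ln b 0 0 q := by
  rintro w ⟨h1, h2⟩
  obtain ⟨a, ha, c, hc, rfl⟩ := mem_sup.mp h1
  rw [SetLike.mem_coe] at h2
  rw [mem_ln]
  obtain ⟨t, ha0, ha1, ha2⟩ := mem_ln.mp ha
  obtain ⟨s, hc0, hc1, hc2⟩ := mem_ln.mp hc
  obtain ⟨u, h20, h21, h22⟩ := mem_ln.mp h2
  have k1 : (t * q) • b + s • b = 0 := by
    have := h21
    rw [Pi.add_apply, ha1, hc1] at this
    simpa using this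
  refine ⟨-t, ?_, ?_, ?_⟩
  · simpa using h20
  · simpa using h21
  · rw [Pi.add_apply, ha2, hc2]
    simp only [mul_zero, zero_smul, mul_one, zero_add]
    rw [neg_mul, neg_smul]
    exact (neg_eq_of_add_eq_zero_right k1).symm

theorem down13 (b : B) (q : ℤ) :
    (ln b 0 0 q ⊔ ln b 1 0 1) ⊓ ln b 1 0 0 ≤ ln b q 0 0 := by
  rintro w ⟨h1, h2⟩
  obtain ⟨a, ha, c, hc, rfl⟩ := mem_sup.mp h1
  rw [SetLike.mem_coe] at h2
  rw [mem_ln]
  obtain ⟨t, ha0, ha1, ha2⟩ := mem_ln.mp ha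
  obtain ⟨s, hc0, hc1, hc2⟩ := mem_ln.mp hc
  obtain ⟨u, h20, h21, h22⟩ := mem_ln.mp h2
  have k1 : (t * q) • b + s • b = 0 := by
    have := h22
    rw [Pi.add_apply, ha2, hc2] at this
    simpa using this
  refine ⟨-t, ?_, ?_, ?_⟩
  · rw [Pi.add_apply, ha0, hc0]
    simp only [mul_zero, zero_smul, mul_one, zero_add]
    rw [neg_mul, neg_smul]
    exact (neg_eq_of_add_eq_zero_right k1).symm
  · simpa using h21
  · simpa using h22

end lines

variable {B : Type*} [AddCommGroup B] {D : Type*} [DivisionRing D]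
    {V : Type*} [AddCommGroup V] [Module D V]

/-- the key computation with a frame -/
theorem frame (φ : LatticeHom (AddSubgroup (Fin 3 → B)) (Submodule D V)) (b : B) {x : V}
    (hx : x ∈ φ (ln b 1 0 0)) :
    ∃ y z : V, y ∈ φ (ln b 0 1 0) ∧ z ∈ φ (ln b 0 0 1) ∧ x - z ∈ φ (ln b 1 0 1) ∧
      y - z ∈ φ (ln b 0 1 1) ∧ ∀ k : ℕ, x + (k : D) • y ∈ φ (ln b 1 k 0) := by
  have hmono : Monotone φ := OrderHomClass.mono φ
  have hx' : x ∈ φ (ln b 1 0 1) ⊔ φ (ln b 0 0 1) := by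
    rw [← SupHomClass.map_sup φ]; exact hmono (le13 b) hx
  obtain ⟨g, hg, z, hz, hgz⟩ := Submodule.mem_sup.mp hx'
  have hz' : -z ∈ φ (ln b 0 1 1) ⊔ φ (ln b 0 1 0) := by
    rw [← SupHomClass.map_sup φ]; exact hmono (le23 b) (neg_mem hz)
  obtain ⟨g', hg', y', hy', hgy⟩ := Submodule.mem_sup.mp hz'
  have hyP : -y' ∈ φ (ln b 0 1 0) := neg_mem hy'
  have e1 : x - z = g := by rw [← hgz]; abel
  have e2 : -y' - z = g' := by rw [sub_eq_add_neg, ← hgy]; abel
  refine ⟨-y', z, hyP, hz, e1 ▸ hg, e2 ▸ hg', ?_⟩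
  intro k
  induction k with
  | zero => simpa using hx
  | succ k ih =>
    have hle := hmono (step_le b (k : ℤ))
    simp only [SupHomClass.map_sup φ, InfHomClass.map_inf φ] at hle
    push_cast
    apply hle
    refine ⟨?_, ?_⟩
    · have h1 : (x + (k : D) • -y') + (-y' - z) ∈ φ (ln b 1 (k : ℤ) 0) ⊔ φ (ln b 0 1 1) :=
        add_mem (Submodule.mem_sup_left ih) (Submodule.mem_sup_right (e2 ▸ hg'))
      have h2 : (x - z) + ((k : D) + 1) • -y' ∈ φ (ln b 1 0 1) ⊔ φ (ln b 0 1 0) :=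
        add_mem (Submodule.mem_sup_left (e1 ▸ hg))
          (Submodule.mem_sup_right (Submodule.smul_mem _ _ hyP))
      have h3 : (x + (k : D) • -y') + (-y' - z) = (x - z) + ((k : D) + 1) • -y' := by
        rw [add_smul, one_smul]; abel
      have h4 : x + ((k : D) + 1) • -y' = ((x - z) + ((k : D) + 1) • -y') + z := by abel
      rw [h4]
      refine add_mem (Submodule.mem_sup_left ⟨?_, h2⟩) (Submodule.mem_sup_right hz)
      rw [← h3]
      exact h1
    · exact add_mem (Submodule.mem_sup_left hx)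
        (Submodule.mem_sup_right (Submodule.smul_mem _ _ hyP))

theorem smul_eq_zero_of_natCast_eq_zero
    (φ : LatticeHom (AddSubgroup (Fin 3 → B)) (Submodule D V)) (hφ : Function.Injective φ)
    {q : ℕ} (hq : (q : D) = 0) (b : B) : q • b = 0 := by
  have hmono : Monotone φ := OrderHomClass.mono φ
  have h1 : φ (ln b 1 0 0) ≤ φ (ln b 1 q 0 ⊓ ln b 1 0 0) := by
    intro x hx
    obtain ⟨y, z, -, -, -, -, h⟩ := frame φ b hx
    have := h q
    rw [hq, zero_smul, add_zero] at this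
    rw [InfHomClass.map_inf φ]
    exact ⟨this, hx⟩
  have h2 : ln b 1 0 0 ≤ ln b 1 q 0 ⊓ ln b 1 0 0 := by
    have : φ (ln b 1 q 0 ⊓ ln b 1 0 0) = φ (ln b 1 0 0) := le_antisymm (hmono inf_le_right) h1
    exact (hφ this).ge
  have h3 : ![b, 0, 0] ∈ ln b 1 0 0 := mem_ln.mpr ⟨1, by simp, by simp, by simp⟩
  obtain ⟨t, ht0, ht1, -⟩ := mem_ln.mp (h2 h3).1
  simp only [Matrix.cons_val_zero, Matrix.cons_val_one, mul_one] at ht0 ht1
  rw [← natCast_zsmul, ht0, ← mul_smul, mul_comm]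
  exact ht1.symm

theorem mem_of_natCast_ne_zero
    (φ : LatticeHom (AddSubgroup (Fin 3 → B)) (Submodule D V)) (hφ : Function.Injective φ)
    {q : ℕ} (hq : (q : D) ≠ 0) (b : B) : ∃ t : ℤ, (t * q) • b = b := by
  have hmono : Monotone φ := OrderHomClass.mono φ
  have h1 : φ (ln b 1 0 0) ≤ φ (ln b q 0 0) := by
    intro x hx
    obtain ⟨y, z, hy, hz, hxz, hyz, h⟩ := frame φ b hx
    have hqy : (q : D) • y ∈ φ (ln b 0 q 0) := by
      apply hmono (down12 b q)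
      rw [InfHomClass.map_inf φ, SupHomClass.map_sup φ]
      refine ⟨?_, Submodule.smul_mem _ _ hy⟩
      have : (q : D) • y = (x + (q : D) • y) + (-x) := by abel
      rw [this]
      exact add_mem (Submodule.mem_sup_left (h q)) (Submodule.mem_sup_right (neg_mem hx))
    have hy' : y ∈ φ (ln b 0 q 0) := by
      have := Submodule.smul_mem _ ((q : D)⁻¹) hqy
      rwa [smul_smul, inv_mul_cancel₀ hq, one_smul] at this
    have hz' : z ∈ φ (ln b 0 0 q) := by
      apply hmono (down23 b q)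
      rw [InfHomClass.map_inf φ, SupHomClass.map_sup φ]
      refine ⟨?_, hz⟩
      have : z = y + -(y - z) := by abel
      rw [this]
      exact add_mem (Submodule.mem_sup_left hy') (Submodule.mem_sup_right (neg_mem hyz))
    apply hmono (down13 b q)
    rw [InfHomClass.map_inf φ, SupHomClass.map_sup φ]
    refine ⟨?_, hx⟩
    have : x = z + (x - z) := by abel
    rw [this]
    exact add_mem (Submodule.mem_sup_left hz') (Submodule.mem_sup_right hxz)
  have h2 : ln b 1 0 0 ≤ ln b q 0 0 := by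
    have : φ (ln b 1 0 0 ⊓ ln b q 0 0) = φ (ln b 1 0 0) := by
      rw [InfHomClass.map_inf φ]
      exact inf_eq_left.mpr h1
    exact inf_eq_left.mp (hφ this)
  have h3 : ![b, 0, 0] ∈ ln b 1 0 0 := mem_ln.mpr ⟨1, by simp, by simp, by simp⟩
  obtain ⟨t, ht0, -, -⟩ := mem_ln.mp (h2 h3)
  exact ⟨t, by simpa using ht0.symm⟩

/-- If `Sub(B³)` embeds into a subspace lattice over a division ring `D` and `B ≠ 0`, then `B` is
an elementary abelian `p`-group for a prime `p` (the characteristic of `D`). -/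
theorem elementary_of_embedding [Nontrivial B]
    (φ : LatticeHom (AddSubgroup (Fin 3 → B)) (Submodule D V)) (hφ : Function.Injective φ) :
    ∃ p : ℕ, p.Prime ∧ ∀ b : B, p • b = 0 := by
  obtain ⟨p, hp⟩ := CharP.exists D
  rcases CharP.char_is_prime_or_zero D p with h | rfl
  · exact ⟨p, h, fun b => smul_eq_zero_of_natCast_eq_zero φ hφ (CharP.cast_eq_zero D p) b⟩
  · exfalso
    have : CharZero D := CharP.charP_to_charZero D
    obtain ⟨b, hb⟩ := exists_ne (0 : B)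
    -- `b` has finite order
    obtain ⟨t, ht⟩ := mem_of_natCast_ne_zero φ hφ (q := 2) (Nat.cast_ne_zero.mpr two_ne_zero) b
    have hfin : IsOfFinAddOrder b := by
      rw [isOfFinAddOrder_iff_zsmul_eq_zero]
      refine ⟨t * (2 : ℕ) - 1, ?_, ?_⟩
      · push_cast; omega
      · rw [sub_smul, ht]; simp
    have hm1 : addOrderOf b ≠ 1 := by
      rw [Ne, AddMonoid.addOrderOf_eq_one_iff]; exact hb
    obtain ⟨q, hq, hqm⟩ := Nat.exists_prime_and_dvd hm1
    obtain ⟨m, hm⟩ := hqm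
    obtain ⟨s, hs⟩ := mem_of_natCast_ne_zero φ hφ (q := q)
      (Nat.cast_ne_zero.mpr hq.ne_zero) b
    have hpos : 0 < addOrderOf b := hfin.addOrderOf_pos
    have hm0 : 0 < m := by
      rcases Nat.eq_zero_or_pos m with h | h
      · rw [h, mul_zero] at hm; omega
      · exact h
    have h0 : (m : ℕ) • b = 0 := by
      rw [← natCast_zsmul, ← hs, ← mul_smul]
      have : (m : ℤ) * (s * q) = s * ((q * m : ℕ) : ℤ) := by push_cast; ring
      rw [this, ← hm, mul_smul, natCast_zsmul, addOrderOf_nsmul_eq_zero, smul_zero]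
    have h2 := addOrderOf_dvd_of_nsmul_eq_zero h0
    have h3 := Nat.le_of_dvd hm0 h2
    rw [hm] at h3
    have := hq.two_le
    nlinarith

end Pool.Agent.Q94.CubeSub
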