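import Mathlib

/-!
# Implication zroupoids: terms, varieties, the lattice of subvarieties
-/

namespace Pool.Agent.Q94.IZ

/-- Terms of type `(2,0)` over the variables `ℕ`. -/
inductive Tm : Type
  | var : ℕ → Tm
  | zero : Tm
  | imp : Tm → Tm → Tm

/-- Algebras `⟨A; →, 0⟩` of type `(2,0)`. -/
structure Alg : Type 1 where
  /-- universe of the algebra -/
  carrier : Type
  /-- the binary operation -/
  imp : carrier → carrier → carrier
  /-- the constant -/
  zero : carrier

/-- Value of a term. -/
def Alg.eval (A : Alg) (v : ℕ → A.carrier) : Tm → A.carrier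
  | .var n => v n
  | .zero => A.zero
  | .imp s t => A.imp (A.eval v s) (A.eval v t)

/-- The algebra `A` satisfies the identity `e.1 ≈ e.2`. -/
def Sat (A : Alg) (e : Tm × Tm) : Prop := ∀ v : ℕ → A.carrier, A.eval v e.1 = A.eval v e.2

/-- All algebras satisfying a set of identities. -/
def Mod (E : Set (Tm × Tm)) : Set Alg := {A | ∀ e ∈ E, Sat A e}

/-- All identities valid in a class of algebras. -/
def Th (K : Set Alg) : Set (Tm × Tm) := {e | ∀ A ∈ K, Sat A e}

/-- A variety is a class of algebras defined by identities. -/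
def IsVariety (K : Set Alg) : Prop := ∃ E : Set (Tm × Tm), K = Mod E

/-- `u' = u → 0`. -/
def Tm.pr (u : Tm) : Tm := .imp u .zero

/-- The identities of implication zroupoids:
`(x → y) → z ≈ ((z' → x) → (y → z)')'` and `0'' ≈ 0`. -/
def izAxioms : Set (Tm × Tm) :=
  {(.imp (.imp (.var 0) (.var 1)) (.var 2),
      Tm.pr (.imp (.imp (Tm.pr (.var 2)) (.var 0)) (Tm.pr (.imp (.var 1) (.var 2))))),
    (Tm.pr (Tm.pr .zero), .zero)}

/-- The class of implication zroupoids. -/
def izClass : Set Alg := Mod izAxioms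

/-! ### General facts on classes -/

theorem mod_anti {E F : Set (Tm × Tm)} (h : E ⊆ F) : Mod F ⊆ Mod E := fun _ hA e he => hA e (h he)

theorem th_anti {K L : Set Alg} (h : K ⊆ L) : Th L ⊆ Th K := fun _ he A hA => he A (h hA)

theorem subset_mod_th (K : Set Alg) : K ⊆ Mod (Th K) := fun A hA _ he => he A hA

theorem mod_th_of_variety {K : Set Alg} (h : IsVariety K) : Mod (Th K) = K := by
  obtain ⟨E, rfl⟩ := h
  apply Set.Subset.antisymm
  · apply mod_anti
    intro e he A hA
    exact hA e he
  · exact subset_mod_th _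

/-- Subvarieties of the variety of implication zroupoids, ordered by inclusion. -/
def SubVar : Type 1 := {K : Set Alg // IsVariety K ∧ K ⊆ izClass}

instance : PartialOrder SubVar := inferInstanceAs (PartialOrder {K : Set Alg // _})

theorem SubVar.le_iff {X Y : SubVar} : X ≤ Y ↔ X.1 ⊆ Y.1 := Iff.rfl

/-- The lattice `𝕀ℤ`: the meet is the intersection, the join is the variety generated by the
union. -/
instance : Lattice SubVar where
  sup X Y := ⟨Mod (Th (X.1 ∪ Y.1)), ⟨_, rfl⟩, by
    have h : X.1 ∪ Y.1 ⊆ izClass := Set.union_subset X.2.2 Y.2.2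
    refine (mod_anti (th_anti h)).trans (le_of_eq ?_)
    exact mod_th_of_variety ⟨_, rfl⟩⟩
  inf X Y := ⟨X.1 ∩ Y.1, by
    obtain ⟨E, hE⟩ := X.2.1
    obtain ⟨F, hF⟩ := Y.2.1
    refine ⟨E ∪ F, ?_⟩
    rw [hE, hF]
    ext A
    constructor
    · rintro ⟨h1, h2⟩ e (he | he)
      · exact h1 e he
      · exact h2 e he
    · intro h
      exact ⟨fun e he => h e (Or.inl he), fun e he => h e (Or.inr he)⟩,
    fun A hA => X.2.2 hA.1⟩
  le_sup_left X Y := fun A hA => subset_mod_th _ (Or.inl hA)
  le_sup_right X Y := fun A hA => subset_mod_th _ (Or.inr hA)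
  sup_le X Y Z h1 h2 := by
    have h : X.1 ∪ Y.1 ⊆ Z.1 := Set.union_subset h1 h2
    intro A hA
    have := mod_anti (th_anti h) hA
    rwa [mod_th_of_variety Z.2.1] at this
  inf_le_left X Y := fun A hA => hA.1
  inf_le_right X Y := fun A hA => hA.2
  le_inf X Y Z h1 h2 := fun A hA => ⟨h1 hA, h2 hA⟩

theorem SubVar.sup_val (X Y : SubVar) : (X ⊔ Y).1 = Mod (Th (X.1 ∪ Y.1)) := rfl

theorem SubVar.inf_val (X Y : SubVar) : (X ⊓ Y).1 = X.1 ∩ Y.1 := rfl

/-- The subvariety defined inside `𝕀ℤ` by a set of identities. -/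
def sub (E : Set (Tm × Tm)) : SubVar :=
  ⟨Mod (izAxioms ∪ E), ⟨_, rfl⟩, mod_anti Set.subset_union_left⟩

theorem mem_sub {E : Set (Tm × Tm)} {A : Alg} :
    A ∈ (sub E).1 ↔ A ∈ izClass ∧ ∀ e ∈ E, Sat A e := by
  constructor
  · intro h
    exact ⟨fun e he => h e (Or.inl he), fun e he => h e (Or.inr he)⟩
  · rintro ⟨h1, h2⟩ e (he | he)
    · exact h1 e he
    · exact h2 e he

theorem mem_iz {A : Alg} : A ∈ izClass ↔
    (∀ x y z : A.carrier, A.imp (A.imp x y) z =
      A.imp (A.imp (A.imp (A.imp z A.zero) x) (A.imp (A.imp y z) A.zero)) A.zero) ∧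
    A.imp (A.imp A.zero A.zero) A.zero = A.zero := by
  constructor
  · intro h
    constructor
    · intro x y z
      have := h _ (Or.inl rfl) (fun n => if n = 0 then x else if n = 1 then y else z)
      simpa [Alg.eval, Tm.pr] using this
    · have := h _ (Or.inr rfl) (fun _ => A.zero)
      simpa [Alg.eval, Tm.pr] using this
  · rintro ⟨h1, h2⟩ e (rfl | rfl) v
    · simp only [Alg.eval, Tm.pr]
      exact h1 _ _ _
    · simp only [Alg.eval, Tm.pr]
      exact h2

/-- The variety `ZM`, defined by `x → y ≈ 0`. -/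
def ZM : SubVar := sub {(.imp (.var 0) (.var 1), .zero)}

theorem mem_ZM {A : Alg} : A ∈ ZM.1 ↔ ∀ x y : A.carrier, A.imp x y = A.zero := by
  constructor
  · intro h x y
    have := (mem_sub.1 h).2 _ rfl (fun n => if n = 0 then x else y)
    simpa [Alg.eval] using this
  · intro h
    refine mem_sub.2 ⟨mem_iz.2 ⟨fun x y z => by simp [h], by simp [h]⟩, ?_⟩
    rintro e rfl v
    exact h _ _

/-! ### The identity `x'''' ≈ x''` -/

/-- In every implication zroupoid `x'''' ≈ x''`. -/
theorem quad {A : Type} (i : A → A → A) (o : A)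
    (ax0 : ∀ x y z : A, i (i x y) z = i (i (i (i z o) x) (i (i y z) o)) o)
    (ax1 : i (i o o) o = o) :
    ∀ x : A, (i (i (i (i x o) o) o) o) = (i (i x o) o) := by
  have r1 : (i (i o o) o) = o := by
    have e : (i (i o o) o) = o := ax1
    exact e
  have r2 : ∀ x y z : A, (i (i (i (i x o) y) (i (i z x) o)) o) = (i (i y z) x) := by
    intro x y z
    have e : (i (i y z) x) = (i (i (i (i x o) y) (i (i z x) o)) o) := ax0 y z x
    exact e.symm
  have r3 : ∀ x : A, (i (i o (i (i x o) o)) o) = (i (i o x) o) := by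
    intro x
    have e1 := r1 
    have e2 := r2 o o x
    have e : (i (i o (i (i x o) o)) o) = (i (i o x) o) := by rw [e1] at e2; exact e2
    exact e
  have r4 : ∀ x : A, (i (i (i (i o o) x) o) o) = (i (i x o) o) := by
    intro x
    have e1 := r1 
    have e2 := r2 o x o
    have e : (i (i (i (i o o) x) o) o) = (i (i x o) o) := by rw [e1] at e2; exact e2
    exact e
  have r5 : ∀ x : A, (i (i (i (i o o) x) (i o o)) o) = (i (i x (i o o)) o) := by
    intro x
    have e1 := r1 
    have e2 := r2 o x (i o o)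
    have e : (i (i (i (i o o) x) (i o o)) o) = (i (i x (i o o)) o) := by rw [e1] at e2; exact e2
    exact e
  have r7 : ∀ x y : A, (i (i (i o x) (i (i y (i o o)) o)) o) = (i (i x y) (i o o)) := by
    intro x y
    have e1 := r1 
    have e2 := r2 (i o o) x y
    have e : (i (i (i o x) (i (i y (i o o)) o)) o) = (i (i x y) (i o o)) := by rw [e1] at e2; exact e2
    exact e
  have r8 : ∀ x : A, (i (i (i (i x (i o o)) o) o) o) = (i (i (i o x) (i o o)) o) := by
    intro x
    have e1 := r7 o x
    have e2 := r4 (i (i x (i o o)) o)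
    have e : (i (i (i o x) (i o o)) o) = (i (i (i (i x (i o o)) o) o) o) := by rw [e1] at e2; exact e2
    exact e.symm
  have r9 : (i (i (i o (i o o)) (i o o)) o) = o := by
    have e1 := r4 (i o o)
    have e2 := r8 (i o o)
    have e : (i (i (i (i o o) o) o) o) = (i (i (i o (i o o)) (i o o)) o) := by rw [e1] at e2; exact e2
    simp only [r1] at e
    exact e.symm
  have r11 : ∀ x : A, (i (i x (i o (i o o))) (i o o)) = (i (i (i o x) o) o) := by
    intro x
    have e1 := r9 
    have e2 := r7 x (i o (i o o))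
    have e : (i (i (i o x) o) o) = (i (i x (i o (i o o))) (i o o)) := by rw [e1] at e2; exact e2
    exact e.symm
  have r16 : ∀ x : A, (i (i o (i (i (i o o) x) o)) o) = (i (i o (i x o)) o) := by
    intro x
    have e1 := r4 x
    have e2 := r3 (i (i (i o o) x) o)
    have e : (i (i o (i (i (i x o) o) o)) o) = (i (i o (i (i (i o o) x) o)) o) := by rw [e1] at e2; exact e2
    simp only [r3] at e
    exact e.symm
  have r17 : ∀ x y : A, (i (i x (i (i o o) y)) o) = (i (i x y) o) := by
    intro x y
    have e1 := r4 y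
    have e2 := r2 o x (i (i o o) y)
    have e : (i (i (i (i o o) x) (i (i y o) o)) o) = (i (i x (i (i o o) y)) o) := by rw [e1] at e2; exact e2
    simp only [r2] at e
    exact e.symm
  have r19 : (i (i (i o o) (i o o)) o) = o := by
    have e1 := r11 (i o o)
    have e2 := r5 (i o (i o o))
    have e : (i (i (i (i o (i o o)) o) o) o) = (i (i (i o (i o o)) (i o o)) o) := by rw [e1] at e2; exact e2
    simp only [r8, r9] at e
    exact e
  have r20 : ∀ x : A, (i (i x (i o o)) (i o o)) = (i (i (i o x) o) o) := by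
    intro x
    have e1 := r19 
    have e2 := r7 x (i o o)
    have e : (i (i (i o x) o) o) = (i (i x (i o o)) (i o o)) := by rw [e1] at e2; exact e2
    exact e.symm
  have r24 : ∀ x : A, (i (i (i o (i x (i o o))) o) o) = (i (i (i (i o x) o) o) (i o o)) := by
    intro x
    have e1 := r20 x
    have e2 := r20 (i x (i o o))
    have e : (i (i (i (i o x) o) o) (i o o)) = (i (i (i o (i x (i o o))) o) o) := by rw [e1] at e2; exact e2
    exact e.symm
  have r30 : ∀ x : A, (i (i o (i (i o x) (i o o))) o) = (i (i o (i x (i o o))) o) := by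
    intro x
    have e1 := r7 o x
    have e2 := r16 (i (i x (i o o)) o)
    have e : (i (i o (i (i o x) (i o o))) o) = (i (i o (i (i (i x (i o o)) o) o)) o) := by rw [e1] at e2; exact e2
    simp only [r3] at e
    exact e
  have r31 : (i (i o (i o (i o o))) o) = (i (i o (i o o)) o) := by
    have e1 := r30 o
    have e2 := r17 o (i o o)
    have e : (i (i o (i o (i o o))) o) = (i (i o (i o o)) o) := by rw [e1] at e2; exact e2
    exact e
  have r32 : (i (i (i o (i o o)) o) o) = (i (i o o) (i o o)) := by
    have e1 := r31 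
    have e2 := r24 o
    have e : (i (i (i o (i o o)) o) o) = (i (i (i (i o o) o) o) (i o o)) := by rw [e1] at e2; exact e2
    simp only [r1] at e
    exact e
  have r41 : ∀ x : A, (i (i x (i o (i o o))) o) = (i (i x (i o o)) o) := by
    intro x
    have e1 := r32 
    have e2 := r2 o x (i o (i o o))
    have e : (i (i (i (i o o) x) (i (i o o) (i o o))) o) = (i (i x (i o (i o o))) o) := by rw [e1] at e2; exact e2
    simp only [r5, r17] at e
    exact e.symm
  have r42 : (i (i o o) (i o o)) = (i o o) := by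
    have e1 := r41 (i o o)
    have e2 := r4 (i o (i o o))
    have e : (i (i (i (i o o) (i o o)) o) o) = (i (i (i o (i o o)) o) o) := by rw [e1] at e2; exact e2
    simp only [r19, r32] at e
    exact e.symm
  have r43 : ∀ x : A, (i (i (i o o) (i (i x o) o)) o) = (i (i (i o o) x) o) := by
    intro x
    have e1 := r42 
    have e2 := r2 o (i o o) x
    have e : (i (i (i o o) (i (i x o) o)) o) = (i (i (i o o) x) o) := by rw [e1] at e2; exact e2
    exact e
  have r44 : ∀ x : A, (i (i (i (i x o) o) o) o) = (i (i x o) o) := by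
    intro x
    have e1 := r43 x
    have e2 := r4 (i (i x o) o)
    have e : (i (i (i (i o o) x) o) o) = (i (i (i (i x o) o) o) o) := by rw [e1] at e2; exact e2
    simp only [r4] at e
    exact e.symm
  exact r44

end Pool.Agent.Q94.IZ
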