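import Pool.Agent.Q94.IZZero

/-!
# Neutral elements, and the atoms of the lattice of implication zroupoid varieties
-/

namespace Pool.Agent.Q94.IZ

/-- `a` is neutral: for all `y, z` the sublattice generated by `a, y, z` is distributive. -/
def Neutral {L : Type*} [Lattice L] (a : L) : Prop :=
  ∀ y z : L, ∀ p ∈ latticeClosure ({a, y, z} : Set L), ∀ q ∈ latticeClosure ({a, y, z} : Set L),
    ∀ r ∈ latticeClosure ({a, y, z} : Set L), p ⊓ (q ⊔ r) = (p ⊓ q) ⊔ (p ⊓ r)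

section lattice

variable {L : Type*} [Lattice L]

theorem closure_induction {s : Set L} {P : L → Prop} (h0 : ∀ x ∈ s, P x)
    (hs : ∀ x y, P x → P y → P (x ⊔ y)) (hi : ∀ x y, P x → P y → P (x ⊓ y)) :
    ∀ x ∈ latticeClosure s, P x := by
  have h : latticeClosure s ⊆ {x | P x} := by
    apply latticeClosure_min
    · exact h0
    · exact ⟨fun x hx y hy => hs x y hx hy, fun x hx y hy => hi x y hx hy⟩
  exact fun x hx => h hx

/-- join table for `{v ⊓ w, v, w, v ⊔ w, u}` -/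
def jt : Fin 5 → Fin 5 → Fin 5 :=
  ![![0, 1, 2, 3, 4], ![1, 1, 3, 3, 4], ![2, 3, 2, 3, 4], ![3, 3, 3, 3, 4], ![4, 4, 4, 4, 4]]

/-- meet table for `{v ⊓ w, v, w, v ⊔ w, u}` -/
def mt : Fin 5 → Fin 5 → Fin 5 :=
  ![![0, 0, 0, 0, 0], ![0, 1, 0, 1, 1], ![0, 0, 2, 2, 2], ![0, 1, 2, 3, 3], ![0, 1, 2, 3, 4]]

/-- the five elements, top version -/
def five (u v w : L) : Fin 5 → L := ![v ⊓ w, v, w, v ⊔ w, u]

theorem five_sup {u v w : L} (hv : v ≤ u) (hw : w ≤ u) (i j : Fin 5) :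
    five u v w i ⊔ five u v w j = five u v w (jt i j) := by
  have h1 : v ⊔ w ≤ u := sup_le hv hw
  have h2 : v ⊓ w ≤ u := inf_le_left.trans hv
  have h3 : v ⊓ w ≤ v ⊔ w := inf_le_left.trans le_sup_left
  fin_cases i <;> fin_cases j <;>
    simp [five, jt, hv, hw, h1, h2, h3, sup_comm]

theorem five_inf {u v w : L} (hv : v ≤ u) (hw : w ≤ u) (i j : Fin 5) :
    five u v w i ⊓ five u v w j = five u v w (mt i j) := by
  have h1 : v ⊔ w ≤ u := sup_le hv hw
  have h2 : v ⊓ w ≤ u := inf_le_left.trans hv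
  have h3 : v ⊓ w ≤ v ⊔ w := inf_le_left.trans le_sup_left
  fin_cases i <;> fin_cases j <;>
    simp [five, mt, hv, hw, h1, h2, h3, inf_comm]

/-- the five elements, bottom version -/
def five' (u v w : L) : Fin 5 → L := ![v ⊔ w, v, w, v ⊓ w, u]

theorem five'_inf {u v w : L} (hv : u ≤ v) (hw : u ≤ w) (i j : Fin 5) :
    five' u v w i ⊓ five' u v w j = five' u v w (jt i j) := by
  have h1 : u ≤ v ⊓ w := le_inf hv hw
  have h2 : u ≤ v ⊔ w := hv.trans le_sup_left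
  have h3 : v ⊓ w ≤ v ⊔ w := inf_le_left.trans le_sup_left
  fin_cases i <;> fin_cases j <;>
    simp [five', jt, hv, hw, h1, h2, h3, inf_comm]

theorem five'_sup {u v w : L} (hv : u ≤ v) (hw : u ≤ w) (i j : Fin 5) :
    five' u v w i ⊔ five' u v w j = five' u v w (mt i j) := by
  have h1 : u ≤ v ⊓ w := le_inf hv hw
  have h2 : u ≤ v ⊔ w := hv.trans le_sup_left
  have h3 : v ⊓ w ≤ v ⊔ w := inf_le_left.trans le_sup_left
  fin_cases i <;> fin_cases j <;>
    simp [five', mt, hv, hw, h1, h2, h3, sup_comm]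

theorem tab1 : ∀ i j k : Fin 5, mt i (jt j k) = jt (mt i j) (mt i k) := by decide

theorem tab2 : ∀ i j k : Fin 5, jt i (mt j k) = mt (jt i j) (jt i k) := by decide

/-- distributive, dually distributive and cancellable elements are neutral -/
theorem neutral_of (a : L) (D1 : ∀ x y : L, a ⊓ (x ⊔ y) = (a ⊓ x) ⊔ (a ⊓ y))
    (D2 : ∀ x y : L, a ⊔ (x ⊓ y) = (a ⊔ x) ⊓ (a ⊔ y))
    (D3 : ∀ x y : L, a ⊓ x = a ⊓ y → a ⊔ x = a ⊔ y → x = y) : Neutral a := by
  intro y z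
  have key : ∀ p ∈ latticeClosure ({a, y, z} : Set L),
      (∃ i, a ⊓ p = five a (a ⊓ y) (a ⊓ z) i) ∧ (∃ j, a ⊔ p = five' a (a ⊔ y) (a ⊔ z) j) := by
    apply closure_induction
    · rintro x (rfl | rfl | rfl)
      · exact ⟨⟨4, by simp [five]⟩, ⟨4, by simp [five']⟩⟩
      · exact ⟨⟨1, by simp [five]⟩, ⟨1, by simp [five']⟩⟩
      · exact ⟨⟨2, by simp [five]⟩, ⟨2, by simp [five']⟩⟩
    · rintro p q ⟨⟨i, hi⟩, ⟨j, hj⟩⟩ ⟨⟨i', hi'⟩, ⟨j', hj'⟩⟩
      refine ⟨⟨jt i i', ?_⟩, ⟨mt j j', ?_⟩⟩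
      · rw [D1, hi, hi', five_sup inf_le_left inf_le_left]
      · rw [sup_sup_distrib_left, hj, hj', five'_sup le_sup_left le_sup_left]
    · rintro p q ⟨⟨i, hi⟩, ⟨j, hj⟩⟩ ⟨⟨i', hi'⟩, ⟨j', hj'⟩⟩
      refine ⟨⟨mt i i', ?_⟩, ⟨jt j j', ?_⟩⟩
      · rw [inf_inf_distrib_left, hi, hi', five_inf inf_le_left inf_le_left]
      · rw [D2, hj, hj', five'_inf le_sup_left le_sup_left]
  intro p hp q hq r hr
  obtain ⟨⟨i1, h1⟩, ⟨j1, k1⟩⟩ := key p hp
  obtain ⟨⟨i2, h2⟩, ⟨j2, k2⟩⟩ := key q hq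
  obtain ⟨⟨i3, h3⟩, ⟨j3, k3⟩⟩ := key r hr
  apply D3
  · calc a ⊓ (p ⊓ (q ⊔ r)) = (a ⊓ p) ⊓ ((a ⊓ q) ⊔ (a ⊓ r)) := by
          rw [inf_inf_distrib_left a p (q ⊔ r), D1 q r]
      _ = ((a ⊓ p) ⊓ (a ⊓ q)) ⊔ ((a ⊓ p) ⊓ (a ⊓ r)) := by
          rw [h1, h2, h3]
          simp only [five_sup inf_le_left inf_le_left, five_inf inf_le_left inf_le_left, tab1]
      _ = a ⊓ ((p ⊓ q) ⊔ (p ⊓ r)) := by
          rw [D1, inf_inf_distrib_left a p q, inf_inf_distrib_left a p r]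
  · calc a ⊔ (p ⊓ (q ⊔ r)) = (a ⊔ p) ⊓ ((a ⊔ q) ⊔ (a ⊔ r)) := by
          rw [D2 p (q ⊔ r), sup_sup_distrib_left a q r]
      _ = ((a ⊔ p) ⊓ (a ⊔ q)) ⊔ ((a ⊔ p) ⊓ (a ⊔ r)) := by
          rw [k1, k2, k3]
          simp only [five'_sup le_sup_left le_sup_left, five'_inf le_sup_left le_sup_left, tab2]
      _ = a ⊔ ((p ⊓ q) ⊔ (p ⊓ r)) := by
          rw [sup_sup_distrib_left a (p ⊓ q) (p ⊓ r), D2 p q, D2 p r]

/-- neutral elements are dually distributive -/
theorem Neutral.dual {a : L} (h : Neutral a) (y z : L) :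
    a ⊔ (y ⊓ z) = (a ⊔ y) ⊓ (a ⊔ z) := by
  have hs : IsSublattice (latticeClosure ({a, y, z} : Set L)) := isSublattice_latticeClosure
  have ha : a ∈ latticeClosure ({a, y, z} : Set L) := subset_latticeClosure (by simp)
  have hy : y ∈ latticeClosure ({a, y, z} : Set L) := subset_latticeClosure (by simp)
  have hz : z ∈ latticeClosure ({a, y, z} : Set L) := subset_latticeClosure (by simp)
  have h1 := h y z (a ⊔ y) (hs.supClosed ha hy) a ha z hz
  have h2 := h y z z hz a ha y hy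
  rw [h1, inf_comm (a ⊔ y) a, inf_sup_self, inf_comm (a ⊔ y) z, h2, ← sup_assoc,
    sup_comm a (z ⊓ a), inf_comm z a, sup_comm (a ⊓ z) a, sup_inf_self, inf_comm z y]

end lattice

/-! ### Homomorphisms -/

theorem eval_hom {A B : Alg} (h : A.carrier → B.carrier)
    (hi : ∀ x y, h (A.imp x y) = B.imp (h x) (h y)) (h0 : h A.zero = B.zero)
    (v : ℕ → A.carrier) : ∀ t : Tm, h (A.eval v t) = B.eval (fun n => h (v n)) t
  | .var n => rfl
  | .zero => h0
  | .imp s t => by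
    simp only [Alg.eval]
    rw [hi, eval_hom h hi h0 v s, eval_hom h hi h0 v t]

/-- identities pass to subalgebras -/
theorem sat_of_inj {A B : Alg} (h : A.carrier → B.carrier) (hinj : Function.Injective h)
    (hi : ∀ x y, h (A.imp x y) = B.imp (h x) (h y)) (h0 : h A.zero = B.zero)
    {e : Tm × Tm} (he : Sat B e) : Sat A e := by
  intro v
  apply hinj
  rw [eval_hom h hi h0, eval_hom h hi h0]
  exact he _

/-- identities pass to subdirect products of two algebras -/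
theorem sat_of_inj₂ {A B C : Alg} (f : A.carrier → B.carrier) (g : A.carrier → C.carrier)
    (hinj : ∀ x y, f x = f y → g x = g y → x = y)
    (fi : ∀ x y, f (A.imp x y) = B.imp (f x) (f y)) (f0 : f A.zero = B.zero)
    (gi : ∀ x y, g (A.imp x y) = C.imp (g x) (g y)) (g0 : g A.zero = C.zero)
    {e : Tm × Tm} (he : Sat B e) (he' : Sat C e) : Sat A e := by
  intro v
  apply hinj
  · rw [eval_hom f fi f0, eval_hom f fi f0]
    exact he _
  · rw [eval_hom g gi g0, eval_hom g gi g0]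
    exact he' _

/-- identities pass to quotients -/
theorem sat_of_surj {A B : Alg} (h : A.carrier → B.carrier) (s : B.carrier → A.carrier)
    (hs : ∀ b, h (s b) = b)
    (hi : ∀ x y, h (A.imp x y) = B.imp (h x) (h y)) (h0 : h A.zero = B.zero)
    {e : Tm × Tm} (he : Sat A e) : Sat B e := by
  intro v
  have := congrArg h (he (fun n => s (v n)))
  rw [eval_hom h hi h0, eval_hom h hi h0] at this
  simpa [hs] using this

/-! ### `ZM` is neutral -/

/-- the identities `(x → y)'' ≈ x → y` and `x'' → y'' ≈ x → y` -/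
def Infl (A : Alg) : Prop :=
  (∀ x y : A.carrier, A.imp (A.imp (A.imp x y) A.zero) A.zero = A.imp x y) ∧
    (∀ x y : A.carrier, A.imp (A.imp (A.imp x A.zero) A.zero) (A.imp (A.imp y A.zero) A.zero) =
      A.imp x y)

theorem infl_of_mem {Y : SubVar} (hY : ∀ A ∈ Y.1, Sat A inv) {A : Alg} (hA : A ∈ (ZM ⊔ Y).1) :
    Infl A := by
  constructor
  · intro x y
    have h : (Tm.pr (Tm.pr (.imp (.var 0) (.var 1))), Tm.imp (.var 0) (.var 1)) ∈
        Th (ZM.1 ∪ Y.1) := by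
      rintro B (hB | hB) v
      · simp only [Alg.eval, Tm.pr, mem_ZM.1 hB]
      · exact sat_inv.1 (hY B hB) _
    have := hA _ h (fun n => if n = 0 then x else y)
    simpa [Alg.eval, Tm.pr] using this
  · intro x y
    have h : (Tm.imp (Tm.pr (Tm.pr (.var 0))) (Tm.pr (Tm.pr (.var 1))),
        Tm.imp (.var 0) (.var 1)) ∈ Th (ZM.1 ∪ Y.1) := by
      rintro B (hB | hB) v
      · simp only [Alg.eval, Tm.pr, mem_ZM.1 hB]
      · simp only [Alg.eval, Tm.pr]
        rw [sat_inv.1 (hY B hB), sat_inv.1 (hY B hB)]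
    have := hA _ h (fun n => if n = 0 then x else y)
    simpa [Alg.eval, Tm.pr] using this

/-- the retract `A''` -/
def R (A : Alg) (hI : Infl A) (h0 : A.imp (A.imp A.zero A.zero) A.zero = A.zero) : Alg where
  carrier := {a : A.carrier // A.imp (A.imp a A.zero) A.zero = a}
  imp x y := ⟨A.imp x.1 y.1, hI.1 _ _⟩
  zero := ⟨A.zero, h0⟩

theorem zero_zero {A : Alg} (hA : A ∈ izClass) : A.imp (A.imp A.zero A.zero) A.zero = A.zero :=
  (mem_iz.1 hA).2

theorem R_mem_of_mem {A : Alg} (hI : Infl A) (h0) {Y : SubVar} (hA : A ∈ Y.1) :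
    R A hI h0 ∈ Y.1 := by
  have hm := mod_th_of_variety Y.2.1
  rw [← hm]
  intro e he
  exact sat_of_inj (A := R A hI h0) (B := A) Subtype.val Subtype.val_injective
    (fun _ _ => rfl) rfl (he A hA)

theorem eval_R {A : Alg} (hI : Infl A) (h0) (v : ℕ → (R A hI h0).carrier) (t : Tm) :
    ((R A hI h0).eval v t).1 = A.eval (fun n => (v n).1) t :=
  eval_hom (A := R A hI h0) (B := A) Subtype.val (fun _ _ => rfl) rfl v t

theorem R_mem {Y : SubVar} (hY : ∀ A ∈ Y.1, Sat A inv) {A : Alg} (hA : A ∈ (ZM ⊔ Y).1)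
    (hI : Infl A) (h0) : R A hI h0 ∈ Y.1 := by
  have hm := mod_th_of_variety Y.2.1
  rw [← hm]
  rintro ⟨p, q⟩ he v
  have h : (Tm.pr (Tm.pr p), Tm.pr (Tm.pr q)) ∈ Th (ZM.1 ∪ Y.1) := by
    rintro B (hB | hB) w
    · simp only [Alg.eval, Tm.pr, mem_ZM.1 hB]
    · simp only [Alg.eval, Tm.pr]
      have := he B hB w
      rw [this]
  have h2 := hA _ h (fun n => (v n).1)
  simp only [Alg.eval, Tm.pr] at h2
  rw [← eval_R hI h0, ← eval_R hI h0] at h2
  apply Subtype.ext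
  rw [((R A hI h0).eval v p).2, ((R A hI h0).eval v q).2] at h2
  exact h2

theorem eval_infl {A : Alg} (hA : A ∈ izClass) (hI : Infl A) (h0) (v : ℕ → A.carrier) :
    ∀ t : Tm, A.imp (A.imp (A.eval v t) A.zero) A.zero =
      ((R A hI h0).eval (fun n => ⟨A.imp (A.imp (v n) A.zero) A.zero, quad_alg hA _⟩) t).1
  | .var n => rfl
  | .zero => h0
  | .imp s t => by
    simp only [Alg.eval]
    rw [hI.1, ← hI.2, eval_infl hA hI h0 v s, eval_infl hA hI h0 v t]
    rfl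

theorem mem_of_R {A : Alg} (hA : A ∈ izClass) (hI : Infl A) (h0) {W : SubVar}
    (hR : R A hI h0 ∈ W.1) : A ∈ (ZM ⊔ W).1 := by
  rintro ⟨p, q⟩ he v
  let M : Alg := ⟨Bool, fun _ _ => false, false⟩
  have hM : M ∈ ZM.1 := mem_ZM.2 (fun _ _ => rfl)
  have hsM := he M (Or.inl hM)
  have hsR := he _ (Or.inr hR)
  have nv : ∀ (n : ℕ) (t : Tm), Sat M (.var n, t) → t = .var n := by
    intro n t h
    have h1 := h (fun k => if k = n then true else false)
    cases t with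
    | var m =>
      by_cases hmn : m = n
      · rw [hmn]
      · simp [Alg.eval, hmn] at h1
    | zero => simp [Alg.eval, M] at h1
    | imp s t => simp [Alg.eval, M] at h1
  have nonvar : ∀ t : Tm, (∀ n, t ≠ .var n) →
      A.imp (A.imp (A.eval v t) A.zero) A.zero = A.eval v t := by
    intro t ht
    cases t with
    | var n => exact absurd rfl (ht n)
    | zero => exact h0
    | imp s t => exact hI.1 _ _
  by_cases hp : ∃ n, p = .var n
  · obtain ⟨n, rfl⟩ := hp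
    rw [nv n q hsM]
  · by_cases hq : ∃ n, q = .var n
    · obtain ⟨n, rfl⟩ := hq
      rw [nv n p (fun w => (hsM w).symm)]
    · push Not at hp hq
      rw [← nonvar p hp, ← nonvar q hq, eval_infl hA hI h0 v p, eval_infl hA hI h0 v q]
      exact congrArg Subtype.val (hsR _)

theorem sat_inv_of_not_zm {X : SubVar} (hX : ¬ ZM ≤ X) : ∀ A ∈ X.1, Sat A inv :=
  fun _ hA => sat_inv.2 (involutive_of_not_zm hX hA)

theorem zm_dist (x y : SubVar) : ZM ⊓ (x ⊔ y) = (ZM ⊓ x) ⊔ (ZM ⊓ y) := by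
  apply le_antisymm
  · by_cases hx : ZM ≤ x
    · exact inf_le_left.trans ((le_inf le_rfl hx).trans le_sup_left)
    · by_cases hy : ZM ≤ y
      · exact inf_le_left.trans ((le_inf le_rfl hy).trans le_sup_right)
      · rintro A ⟨hA1, hA2⟩
        have hi : Sat A inv := by
          apply hA2
          rintro B (hB | hB)
          · exact sat_inv_of_not_zm hx B hB
          · exact sat_inv_of_not_zm hy B hB
        have h1 : ∀ a : A.carrier, a = A.zero := by
          intro a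
          rw [← sat_inv.1 hi a, mem_ZM.1 hA1]
        intro e _ v
        rw [h1 (A.eval v e.1), h1 (A.eval v e.2)]
  · exact sup_le (inf_le_inf_left _ le_sup_left) (inf_le_inf_left _ le_sup_right)

theorem zm_dual (x y : SubVar) : ZM ⊔ (x ⊓ y) = (ZM ⊔ x) ⊓ (ZM ⊔ y) := by
  apply le_antisymm
  · exact le_inf (sup_le_sup_left inf_le_left _) (sup_le_sup_left inf_le_right _)
  · rintro A ⟨hA1, hA2⟩
    have hiz : A ∈ izClass := (ZM ⊔ x).2.2 hA1
    have h0 := zero_zero hiz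
    by_cases hx : ZM ≤ x
    · have hAx : A ∈ x.1 := (sup_eq_right.2 hx).le hA1
      by_cases hy : ZM ≤ y
      · have hAy : A ∈ y.1 := (sup_eq_right.2 hy).le hA2
        exact (le_sup_right : x ⊓ y ≤ ZM ⊔ (x ⊓ y)) ⟨hAx, hAy⟩
      · have hy' := sat_inv_of_not_zm hy
        have hI := infl_of_mem hy' hA2
        exact mem_of_R hiz hI h0 ⟨R_mem_of_mem hI h0 hAx, R_mem hy' hA2 hI h0⟩
    · have hx' := sat_inv_of_not_zm hx
      have hI := infl_of_mem hx' hA1
      by_cases hy : ZM ≤ y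
      · have hAy : A ∈ y.1 := (sup_eq_right.2 hy).le hA2
        exact mem_of_R hiz hI h0 ⟨R_mem hx' hA1 hI h0, R_mem_of_mem hI h0 hAy⟩
      · have hy' := sat_inv_of_not_zm hy
        exact mem_of_R hiz hI h0 ⟨R_mem hx' hA1 hI h0, R_mem hy' hA2 hI h0⟩

theorem zm_cancel_aux {x y : SubVar} (hx : ¬ ZM ≤ x) (hy : ¬ ZM ≤ y)
    (h : ZM ⊔ x = ZM ⊔ y) : x ≤ y := by
  intro A hA
  have hA' : A ∈ (ZM ⊔ y).1 := by
    rw [← h]
    exact (le_sup_right : x ≤ ZM ⊔ x) hA
  have h0 := zero_zero (x.2.2 hA)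
  have hy' := sat_inv_of_not_zm hy
  have hI := infl_of_mem hy' hA'
  have hR := R_mem hy' hA' hI h0
  have hinv := sat_inv.1 (sat_inv_of_not_zm hx A hA)
  have hm := mod_th_of_variety y.2.1
  rw [← hm]
  intro e he
  exact sat_of_inj (A := A) (B := R A hI h0) (fun a => ⟨a, hinv a⟩)
    (fun a b hab => congrArg Subtype.val hab) (fun _ _ => rfl) rfl (he _ hR)

theorem zm_cancel (x y : SubVar) (h1 : ZM ⊓ x = ZM ⊓ y) (h2 : ZM ⊔ x = ZM ⊔ y) : x = y := by
  by_cases hx : ZM ≤ x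
  · have hy : ZM ≤ y := by
      rw [inf_eq_left.2 hx] at h1
      exact h1 ▸ inf_le_right
    rw [sup_eq_right.2 hx, sup_eq_right.2 hy] at h2
    exact h2
  · have hy : ¬ ZM ≤ y := by
      intro hy
      rw [inf_eq_left.2 hy] at h1
      exact hx (h1 ▸ inf_le_right)
    exact le_antisymm (zm_cancel_aux hx hy h2) (zm_cancel_aux hy hx h2.symm)

theorem zm_neutral : Neutral ZM := neutral_of ZM zm_dist zm_dual zm_cancel

end Pool.Agent.Q94.IZ
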