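import Pool.Agent.Q94.IZNeutral

/-!
# `SL` and `BA` are not neutral in the lattice of implication zroupoid varieties
-/

namespace Pool.Agent.Q94.IZ

/-- The variety `SL`: associative, idempotent and commutative implication zroupoids. -/
def SL : SubVar :=
  sub {(.imp (.imp (.var 0) (.var 1)) (.var 2), .imp (.var 0) (.imp (.var 1) (.var 2))),
    (.imp (.var 0) (.var 0), .var 0), (.imp (.var 0) (.var 1), .imp (.var 1) (.var 0))}

/-- Boolean algebras, viewed as algebras with `x → y = ¬ x ∨ y` and the constant `0`. -/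
def boolClass : Set Alg :=
  {A | ∃ _ : BooleanAlgebra A.carrier, (∀ x y : A.carrier, A.imp x y = xᶜ ⊔ y) ∧ A.zero = ⊥}

theorem boolClass_iz : boolClass ⊆ izClass := by
  rintro A ⟨inst, h1, h2⟩
  rw [mem_iz]
  constructor
  · intro x y z
    simp only [h1, h2, sup_bot_eq, compl_sup, compl_inf, compl_compl]
    rw [sup_inf_right, sup_comm x z]
  · simp only [h1, h2, sup_bot_eq, compl_compl]

/-- The variety `BA` generated by the Boolean algebras. -/
def BA : SubVar := ⟨Mod (Th boolClass), ⟨_, rfl⟩,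
  (mod_anti (th_anti boolClass_iz)).trans (le_of_eq (mod_th_of_variety ⟨_, rfl⟩))⟩

theorem mem_SL {A : Alg} : A ∈ SL.1 ↔ A ∈ izClass ∧
    (∀ x y z : A.carrier, A.imp (A.imp x y) z = A.imp x (A.imp y z)) ∧
    (∀ x : A.carrier, A.imp x x = x) ∧ (∀ x y : A.carrier, A.imp x y = A.imp y x) := by
  rw [SL, mem_sub]
  constructor
  · rintro ⟨h0, h⟩
    refine ⟨h0, ?_, ?_, ?_⟩
    · intro x y z
      have := h _ (Or.inl rfl) (fun n => if n = 0 then x else if n = 1 then y else z)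
      simpa [Alg.eval] using this
    · intro x
      have := h _ (Or.inr (Or.inl rfl)) (fun _ => x)
      simpa [Alg.eval] using this
    · intro x y
      have := h _ (Or.inr (Or.inr rfl)) (fun n => if n = 0 then x else y)
      simpa [Alg.eval] using this
  · rintro ⟨h0, h1, h2, h3⟩
    refine ⟨h0, ?_⟩
    rintro e (rfl | rfl | rfl) v
    · exact h1 _ _ _
    · exact h2 _
    · exact h3 _ _

theorem SL_zero {A : Alg} (hA : A ∈ SL.1) (x : A.carrier) : A.imp x A.zero = x := by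
  obtain ⟨h0, ha, hi, hc⟩ := mem_SL.1 hA
  have h := (mem_iz.1 h0).1 x x x
  have e1 : A.imp (A.imp x A.zero) x = A.imp x A.zero := by
    rw [ha, hc A.zero x, ← ha, hi]
  have e2 : A.imp (A.imp x A.zero) A.zero = A.imp x A.zero := by
    rw [ha, hi]
  rw [hi, hi, e1, hi, e2] at h
  exact h.symm

/-- the identity `(x → y)'' ≈ x → y` -/
def dd : Tm × Tm := (Tm.pr (Tm.pr (.imp (.var 0) (.var 1))), .imp (.var 0) (.var 1))

theorem SL_dd {A : Alg} (hA : A ∈ SL.1) : Sat A dd := by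
  intro v
  simp only [dd, Tm.pr, Alg.eval, SL_zero hA]

theorem BA_dd {A : Alg} (hA : A ∈ BA.1) : Sat A dd := by
  apply hA
  rintro B ⟨inst, h1, h2⟩ v
  simp only [dd, Tm.pr, Alg.eval, h1, h2, sup_bot_eq, compl_compl]

/-- The variety `X`: `(x → y) → z ≈ 0` and `x → y ≈ x'`. -/
def XX : SubVar := sub {(.imp (.imp (.var 0) (.var 1)) (.var 2), .zero),
  (.imp (.var 0) (.var 1), .imp (.var 0) .zero)}

/-- The variety `Y`: `x''' ≈ x'`. -/
def YY : SubVar := sub {(Tm.pr (Tm.pr (Tm.pr (.var 0))), Tm.pr (.var 0))}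

theorem mem_XX {A : Alg} : A ∈ XX.1 ↔
    (∀ x y z : A.carrier, A.imp (A.imp x y) z = A.zero) ∧
    (∀ x y : A.carrier, A.imp x y = A.imp x A.zero) := by
  rw [XX, mem_sub]
  constructor
  · rintro ⟨h0, h⟩
    refine ⟨?_, ?_⟩
    · intro x y z
      have := h _ (Or.inl rfl) (fun n => if n = 0 then x else if n = 1 then y else z)
      simpa [Alg.eval] using this
    · intro x y
      have := h _ (Or.inr rfl) (fun n => if n = 0 then x else y)
      simpa [Alg.eval] using this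
  · rintro ⟨h1, h2⟩
    refine ⟨mem_iz.2 ⟨fun x y z => by simp [h1], by simp [h1]⟩, ?_⟩
    rintro e (rfl | rfl) v
    · exact h1 _ _ _
    · exact h2 _ _

theorem mem_YY {A : Alg} : A ∈ YY.1 ↔ A ∈ izClass ∧
    ∀ x : A.carrier, A.imp (A.imp (A.imp x A.zero) A.zero) A.zero = A.imp x A.zero := by
  rw [YY, mem_sub]
  constructor
  · rintro ⟨h0, h⟩
    refine ⟨h0, ?_⟩
    intro x
    have := h _ rfl (fun _ => x)
    simpa [Alg.eval, Tm.pr] using this
  · rintro ⟨h0, h1⟩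
    refine ⟨h0, ?_⟩
    rintro e rfl v
    exact h1 _

theorem inf_zm {A : Alg} (hA : A ∈ (XX ⊓ YY).1) (x y : A.carrier) : A.imp x y = A.zero := by
  obtain ⟨hx, hy⟩ := hA
  obtain ⟨h1, h2⟩ := mem_XX.1 hx
  obtain ⟨_, h3⟩ := mem_YY.1 hy
  rw [h2, ← h3, h1]

theorem not_neutral_of (S : SubVar) (hS : ∀ A ∈ S.1, Sat A dd) (A : Alg) (hAY : A ∈ YY.1)
    (hAX : A ∈ (S ⊔ XX).1) (hA : ¬ Sat A dd) : ¬ Neutral S := by
  intro h
  have h1 := h.dual XX YY
  have h2 : A ∈ (S ⊔ (XX ⊓ YY)).1 := by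
    rw [h1]
    exact ⟨hAX, (le_sup_right : YY ≤ S ⊔ YY) hAY⟩
  apply hA
  apply h2
  rintro B (hB | hB)
  · exact hS B hB
  · intro v
    simp only [dd, Tm.pr, Alg.eval, inf_zm hB]

/-- a three-element algebra in `X` -/
def B3 : Alg := ⟨Fin 3, fun b _ => if b = 2 then 1 else 0, 0⟩

theorem B3_mem : B3 ∈ XX.1 := by
  rw [mem_XX]
  constructor
  · intro x y z
    change Fin 3 at x y z
    change (if (if x = 2 then (1 : Fin 3) else 0) = 2 then (1 : Fin 3) else 0) = 0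
    split_ifs <;> simp_all
  · intro x y
    rfl

/-! #### The semilattice case -/

/-- the two-element semilattice -/
def S2 : Alg := ⟨Bool, fun x y => x || y, false⟩

theorem S2_mem : S2 ∈ SL.1 := by
  rw [mem_SL, mem_iz]
  refine ⟨⟨?_, ?_⟩, ?_, ?_, ?_⟩
  · exact (by decide : ∀ x y z : Bool, ((x || y) || z) =
      ((((z || false) || x) || ((y || z) || false)) || false))
  · rfl
  · exact (by decide : ∀ x y z : Bool, ((x || y) || z) = (x || (y || z)))
  · exact (by decide : ∀ x : Bool, (x || x) = x)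
  · exact (by decide : ∀ x y : Bool, (x || y) = (y || x))

/-- table of the five-element algebra -/
def cS : Fin 5 → Fin 5 → Fin 5 :=
  ![![0, 0, 0, 4, 4], ![2, 2, 2, 3, 3], ![0, 0, 0, 4, 4], ![4, 4, 4, 4, 4], ![4, 4, 4, 4, 4]]

/-- table of the four-element algebra -/
def aS : Fin 4 → Fin 4 → Fin 4 :=
  ![![0, 0, 3, 3], ![0, 0, 2, 2], ![3, 3, 3, 3], ![3, 3, 3, 3]]

/-- a five-element subalgebra of `S2 × B3` -/
def CS : Alg := ⟨Fin 5, cS, 0⟩

/-- a four-element quotient of it -/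
def AS : Alg := ⟨Fin 4, aS, 0⟩

theorem AS_mem : AS ∈ (SL ⊔ XX).1 := by
  intro e he
  have hS : Sat S2 e := he S2 (Or.inl S2_mem)
  have hB : Sat B3 e := he B3 (Or.inr B3_mem)
  have hC : Sat CS e := sat_of_inj₂ (A := CS) (B := S2) (C := B3)
    (![false, false, false, true, true] : Fin 5 → Bool) (![0, 2, 1, 1, 0] : Fin 5 → Fin 3)
    (by decide +kernel : ∀ x y : Fin 5, (![false, false, false, true, true] : Fin 5 → Bool) x =
      (![false, false, false, true, true] : Fin 5 → Bool) y →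
      (![0, 2, 1, 1, 0] : Fin 5 → Fin 3) x = (![0, 2, 1, 1, 0] : Fin 5 → Fin 3) y → x = y)
    (by decide +kernel : ∀ x y : Fin 5, (![false, false, false, true, true] : Fin 5 → Bool) (cS x y) =
      ((![false, false, false, true, true] : Fin 5 → Bool) x ||
      (![false, false, false, true, true] : Fin 5 → Bool) y)) rfl
    (by decide +kernel : ∀ x y : Fin 5, (![0, 2, 1, 1, 0] : Fin 5 → Fin 3) (cS x y) =
      if (![0, 2, 1, 1, 0] : Fin 5 → Fin 3) x = 2 then 1 else 0) rfl hS hB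
  exact sat_of_surj (A := CS) (B := AS) (![0, 1, 0, 2, 3] : Fin 5 → Fin 4)
    (![0, 1, 3, 4] : Fin 4 → Fin 5)
    (by decide +kernel : ∀ b : Fin 4, (![0, 1, 0, 2, 3] : Fin 5 → Fin 4)
      ((![0, 1, 3, 4] : Fin 4 → Fin 5) b) = b)
    (by decide +kernel : ∀ x y : Fin 5, (![0, 1, 0, 2, 3] : Fin 5 → Fin 4) (cS x y) =
      aS ((![0, 1, 0, 2, 3] : Fin 5 → Fin 4) x) ((![0, 1, 0, 2, 3] : Fin 5 → Fin 4) y)) rfl hC

theorem AS_YY : AS ∈ YY.1 := by
  rw [mem_YY, mem_iz]
  refine ⟨⟨?_, ?_⟩, ?_⟩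
  · exact (by decide +kernel : ∀ x y z : Fin 4, aS (aS x y) z =
      aS (aS (aS (aS z 0) x) (aS (aS y z) 0)) 0)
  · exact (by decide +kernel : aS (aS 0 0) 0 = 0)
  · exact (by decide +kernel : ∀ x : Fin 4, aS (aS (aS x 0) 0) 0 = aS x 0)

theorem AS_dd : ¬ Sat AS dd := by
  intro h
  have := h (fun n => if n = 0 then (1 : Fin 4) else (3 : Fin 4))
  exact absurd this (by decide +kernel : ¬ (aS (aS (aS 1 3) 0) 0 = aS 1 3))

theorem SL_not_neutral : ¬ Neutral SL :=
  not_neutral_of SL (fun _ hA => SL_dd hA) AS AS_YY AS_mem AS_dd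

/-! #### The Boolean case -/

/-- the two-element Boolean algebra -/
def B2 : Alg := ⟨Bool, fun x y => !x || y, false⟩

theorem B2_mem : B2 ∈ BA.1 := by
  apply subset_mod_th
  exact ⟨inferInstanceAs (BooleanAlgebra Bool), fun x y => rfl, rfl⟩

/-- table of the five-element algebra -/
def cB : Fin 5 → Fin 5 → Fin 5 :=
  ![![4, 4, 4, 4, 4], ![2, 3, 2, 3, 3], ![4, 4, 4, 4, 4], ![0, 4, 0, 4, 4], ![0, 4, 0, 4, 4]]

/-- table of the four-element algebra -/
def aB : Fin 4 → Fin 4 → Fin 4 :=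
  ![![3, 3, 3, 3], ![0, 2, 2, 2], ![0, 3, 3, 3], ![0, 3, 3, 3]]

/-- a five-element subalgebra of `B2 × B3` -/
def CB : Alg := ⟨Fin 5, cB, 0⟩

/-- a four-element quotient of it -/
def AB : Alg := ⟨Fin 4, aB, 0⟩

theorem AB_mem : AB ∈ (BA ⊔ XX).1 := by
  intro e he
  have hS : Sat B2 e := he B2 (Or.inl B2_mem)
  have hB : Sat B3 e := he B3 (Or.inr B3_mem)
  have hC : Sat CB e := sat_of_inj₂ (A := CB) (B := B2) (C := B3)
    (![false, true, false, true, true] : Fin 5 → Bool) (![0, 2, 1, 1, 0] : Fin 5 → Fin 3)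
    (by decide +kernel : ∀ x y : Fin 5, (![false, true, false, true, true] : Fin 5 → Bool) x =
      (![false, true, false, true, true] : Fin 5 → Bool) y →
      (![0, 2, 1, 1, 0] : Fin 5 → Fin 3) x = (![0, 2, 1, 1, 0] : Fin 5 → Fin 3) y → x = y)
    (by decide +kernel : ∀ x y : Fin 5, (![false, true, false, true, true] : Fin 5 → Bool) (cB x y) =
      (!(![false, true, false, true, true] : Fin 5 → Bool) x ||
      (![false, true, false, true, true] : Fin 5 → Bool) y)) rfl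
    (by decide +kernel : ∀ x y : Fin 5, (![0, 2, 1, 1, 0] : Fin 5 → Fin 3) (cB x y) =
      if (![0, 2, 1, 1, 0] : Fin 5 → Fin 3) x = 2 then 1 else 0) rfl hS hB
  exact sat_of_surj (A := CB) (B := AB) (![0, 1, 0, 2, 3] : Fin 5 → Fin 4)
    (![0, 1, 3, 4] : Fin 4 → Fin 5)
    (by decide +kernel : ∀ b : Fin 4, (![0, 1, 0, 2, 3] : Fin 5 → Fin 4)
      ((![0, 1, 3, 4] : Fin 4 → Fin 5) b) = b)
    (by decide +kernel : ∀ x y : Fin 5, (![0, 1, 0, 2, 3] : Fin 5 → Fin 4) (cB x y) =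
      aB ((![0, 1, 0, 2, 3] : Fin 5 → Fin 4) x) ((![0, 1, 0, 2, 3] : Fin 5 → Fin 4) y)) rfl hC

theorem AB_YY : AB ∈ YY.1 := by
  rw [mem_YY, mem_iz]
  refine ⟨⟨?_, ?_⟩, ?_⟩
  · exact (by decide +kernel : ∀ x y z : Fin 4, aB (aB x y) z =
      aB (aB (aB (aB z 0) x) (aB (aB y z) 0)) 0)
  · exact (by decide +kernel : aB (aB 0 0) 0 = 0)
  · exact (by decide +kernel : ∀ x : Fin 4, aB (aB (aB x 0) 0) 0 = aB x 0)

theorem AB_dd : ¬ Sat AB dd := by
  intro h
  have := h (fun n => if n = 0 then (1 : Fin 4) else (3 : Fin 4))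
  exact absurd this (by decide +kernel : ¬ (aB (aB (aB 1 3) 0) 0 = aB 1 3))

theorem BA_not_neutral : ¬ Neutral BA :=
  not_neutral_of BA (fun _ hA => BA_dd hA) AB AB_YY AB_mem AB_dd

end Pool.Agent.Q94.IZ
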