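import Mathlib

/-!
# Lattices of equivalence relations on countable sets satisfy no nontrivial lattice identity

(Jónsson's argument for Whitman's theorem, carried out for a given pair of terms.)
-/

namespace Pool.Agent.Q94.PartLattice

universe u

/-- Lattice terms over the variables `ℕ`. -/
inductive LTerm : Type
  | var : ℕ → LTerm
  | sup : LTerm → LTerm → LTerm
  | inf : LTerm → LTerm → LTerm
  deriving DecidableEq, Encodable

/-- Value of a lattice term. -/
def LTerm.eval {L : Type u} [Lattice L] (v : ℕ → L) : LTerm → L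
  | .var i => v i
  | .sup s t => s.eval v ⊔ t.eval v
  | .inf s t => s.eval v ⊓ t.eval v

/-- Exchange joins and meets. -/
def LTerm.dual : LTerm → LTerm
  | .var i => .var i
  | .sup s t => .inf s.dual t.dual
  | .inf s t => .sup s.dual t.dual

/-- Depth of a term. -/
def LTerm.depth : LTerm → ℕ
  | .var _ => 0
  | .sup s t => max s.depth t.depth + 1
  | .inf s t => max s.depth t.depth + 1

theorem LTerm.eval_dual {L : Type u} [Lattice L] (v : ℕ → L) (t : LTerm) :
    (t.dual.eval (L := Lᵒᵈ) (fun i => OrderDual.toDual (v i))) = OrderDual.toDual (t.eval v) := by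
  induction t with
  | var i => rfl
  | sup s t hs ht => simp only [dual, eval, hs, ht]; rfl
  | inf s t hs ht => simp only [dual, eval, hs, ht]; rfl

variable {L : Type u} [Lattice L] (v : ℕ → L)

/-- Sets with an `L`-valued distance. -/
structure Sp (L : Type u) [Lattice L] where
  /-- points -/
  X : Type
  /-- distance -/
  d : X → X → WithBot L
  self : ∀ x, d x x = ⊥
  symm : ∀ x y, d x y = d y x
  tri : ∀ x y z, d x z ≤ d x y ⊔ d y z
  cnt : Countable X

/-- value of a term as an element of `WithBot L` -/
def ev (t : LTerm) : WithBot L := ((t.eval v : L) : WithBot L)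

/-- the quadruples for which new points are added -/
def Quad (S : Sp L) : Type :=
  {q : S.X × S.X × LTerm × LTerm // S.d q.1 q.2.1 ≤ ev v q.2.2.1 ⊔ ev v q.2.2.2}

/-- new points -/
abbrev NX (S : Sp L) : Type := S.X ⊕ (Quad v S × Fin 3)

/-- anchor of a point -/
def anc (S : Sp L) : NX v S → S.X
  | .inl x => x
  | .inr (q, 0) => q.1.1
  | .inr (q, 1) => q.1.1
  | .inr (q, 2) => q.1.2.1

/-- weight of a point -/
def wt (S : Sp L) : NX v S → WithBot L
  | .inl _ => ⊥
  | .inr (q, 0) => ev v q.1.2.2.1
  | .inr (q, 1) => ev v q.1.2.2.1 ⊔ ev v q.1.2.2.2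
  | .inr (q, 2) => ev v q.1.2.2.2

/-- group of a point -/
def grp (S : Sp L) : NX v S → S.X ⊕ Quad v S
  | .inl x => .inl x
  | .inr (q, _) => .inr q

/-- distances inside a quadruple -/
def inn (a b : WithBot L) : Fin 3 → Fin 3 → WithBot L :=
  ![![⊥, b, a ⊔ b], ![b, ⊥, a], ![a ⊔ b, a, ⊥]]

/-- distances inside a group -/
def ing (S : Sp L) : NX v S → NX v S → WithBot L
  | .inr (q, i), .inr (_, j) => inn (ev v q.1.2.2.1) (ev v q.1.2.2.2) i j
  | _, _ => ⊥

/-- outer distance -/
def out (S : Sp L) (z z' : NX v S) : WithBot L :=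
  wt v S z ⊔ S.d (anc v S z) (anc v S z') ⊔ wt v S z'

open Classical in
/-- the new distance -/
noncomputable def nd (S : Sp L) (z z' : NX v S) : WithBot L :=
  if grp v S z = grp v S z' then ing v S z z' else out v S z z'

theorem inn_symm (a b : WithBot L) (i j : Fin 3) : inn a b i j = inn a b j i := by
  fin_cases i <;> fin_cases j <;> simp [inn]

theorem inn_tri (a b : WithBot L) (i j k : Fin 3) :
    inn a b i k ≤ inn a b i j ⊔ inn a b j k := by
  fin_cases i <;> fin_cases j <;> fin_cases k <;> simp [inn, sup_comm]

theorem out_symm (S : Sp L) (z z' : NX v S) : out v S z z' = out v S z' z := by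
  simp only [out]
  rw [S.symm (anc v S z)]
  ac_rfl

theorem out_tri (S : Sp L) (x y z : NX v S) :
    out v S x z ≤ out v S x y ⊔ out v S y z := by
  simp only [out]
  have := S.tri (anc v S x) (anc v S y) (anc v S z)
  refine sup_le (sup_le ?_ ?_) ?_
  · exact le_sup_left.trans (le_sup_left.trans le_sup_left)
  · refine this.trans (sup_le ?_ ?_)
    · exact le_sup_right.trans (le_sup_left.trans le_sup_left)
    · exact le_sup_right.trans (le_sup_left.trans le_sup_right)
  · exact le_sup_right.trans le_sup_right

/-- inner distances are below outer ones -/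
theorem ing_le_out (S : Sp L) (z z' : NX v S) (h : grp v S z = grp v S z') :
    ing v S z z' ≤ out v S z z' := by
  match z, z' with
  | .inl x, .inl y => exact bot_le
  | .inl x, .inr _ => exact bot_le
  | .inr _, .inl _ => exact bot_le
  | .inr (q, i), .inr (q', j) =>
    have hq : q = q' := Sum.inr.inj h
    subst hq
    simp only [ing, out]
    generalize S.d _ _ = D
    fin_cases i <;> fin_cases j <;>
      simp only [inn, wt, Matrix.cons_val_zero, Matrix.cons_val_one, Fin.zero_eta,
        Fin.mk_one, Fin.reduceFinMk, Matrix.cons_val] <;>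
      generalize ev v (q.1.2.2.1) = A <;> generalize ev v (q.1.2.2.2) = B <;>
      aesop (add safe apply sup_le, safe apply bot_le, 50% apply le_sup_of_le_left,
        50% apply le_sup_of_le_right)

/-- the key inequality -/
theorem shift (S : Sp L) (z z' : NX v S) (h : grp v S z = grp v S z') :
    wt v S z ⊔ S.d (anc v S z) (anc v S z') ≤ ing v S z z' ⊔ wt v S z' := by
  match z, z' with
  | .inl x, .inl y =>
    have hq : x = y := Sum.inl.inj h
    subst hq
    simp [ing, wt, anc, S.self]
  | .inl x, .inr _ => exact absurd h (by simp [grp])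
  | .inr _, .inl _ => exact absurd h (by simp [grp])
  | .inr (q, i), .inr (q', j) =>
    have hq : q = q' := Sum.inr.inj h
    subst hq
    have h1 := q.2
    have h2 : S.d q.1.2.1 q.1.1 ≤ ev v q.1.2.2.1 ⊔ ev v q.1.2.2.2 := by
      rw [S.symm]; exact h1
    simp only [ing]
    fin_cases i <;> fin_cases j <;>
      simp only [inn, wt, anc, S.self, Matrix.cons_val_zero, Matrix.cons_val_one, Fin.zero_eta,
        Fin.mk_one, Fin.reduceFinMk, Matrix.cons_val, bot_sup_eq, sup_bot_eq] <;>
      generalize ev v (q.1.2.2.1) = A at h1 h2 ⊢ <;>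
      generalize ev v (q.1.2.2.2) = B at h1 h2 ⊢ <;>
      first
      | (refine sup_le ?_ (h1.trans (sup_le ?_ ?_)) <;>
          aesop (add safe apply sup_le, safe apply bot_le, 50% apply le_sup_of_le_left,
        50% apply le_sup_of_le_right))
      | (refine sup_le ?_ (h2.trans (sup_le ?_ ?_)) <;>
          aesop (add safe apply sup_le, safe apply bot_le, 50% apply le_sup_of_le_left,
        50% apply le_sup_of_le_right))
      | aesop (add safe apply sup_le, safe apply bot_le, 50% apply le_sup_of_le_left,
        50% apply le_sup_of_le_right)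

theorem shift' (S : Sp L) (z z' : NX v S) (h : grp v S z = grp v S z') (w : NX v S) :
    out v S z w ≤ ing v S z z' ⊔ out v S z' w := by
  have h1 := shift v S z z' h
  have h2 := S.tri (anc v S z) (anc v S z') (anc v S w)
  simp only [out]
  have ha : wt v S z ≤ ing v S z z' ⊔ wt v S z' := le_sup_left.trans h1
  have hb : S.d (anc v S z) (anc v S z') ≤ ing v S z z' ⊔ wt v S z' := le_sup_right.trans h1
  have hc : ing v S z z' ⊔ wt v S z' ≤
      ing v S z z' ⊔ (wt v S z' ⊔ S.d (anc v S z') (anc v S w) ⊔ wt v S w) :=
    sup_le_sup_left (le_sup_left.trans le_sup_left) _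
  refine sup_le (sup_le (ha.trans hc) (h2.trans (sup_le (hb.trans hc) ?_))) ?_
  · exact le_sup_right.trans (le_sup_left.trans le_sup_right)
  · exact le_sup_right.trans le_sup_right

theorem ing_symm (S : Sp L) (z z' : NX v S) (h : grp v S z = grp v S z') :
    ing v S z z' = ing v S z' z := by
  match z, z' with
  | .inl x, .inl y => rfl
  | .inl x, .inr _ => exact absurd h (by simp [grp])
  | .inr _, .inl _ => exact absurd h (by simp [grp])
  | .inr (q, i), .inr (q', j) =>
    have hq : q = q' := Sum.inr.inj h
    subst hq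
    exact inn_symm _ _ _ _

theorem ing_tri (S : Sp L) (x y z : NX v S) (h : grp v S x = grp v S y)
    (h' : grp v S y = grp v S z) : ing v S x z ≤ ing v S x y ⊔ ing v S y z := by
  match x, y, z with
  | .inl _, .inl _, .inl _ => exact bot_le
  | .inl _, .inr _, _ => exact absurd h (by simp [grp])
  | .inr _, .inl _, _ => exact absurd h (by simp [grp])
  | _, .inl _, .inr _ => exact absurd h' (by simp [grp])
  | _, .inr _, .inl _ => exact absurd h' (by simp [grp])
  | .inr (q, i), .inr (q', j), .inr (q'', k) =>
    have hq : q = q' := Sum.inr.inj h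
    have hq' : q' = q'' := Sum.inr.inj h'
    subst hq
    subst hq'
    exact inn_tri _ _ _ _ _

theorem ing_self (S : Sp L) (z : NX v S) : ing v S z z = ⊥ := by
  match z with
  | .inl _ => rfl
  | .inr (q, i) => fin_cases i <;> rfl

theorem nd_self (S : Sp L) (z : NX v S) : nd v S z z = ⊥ := by
  rw [nd, if_pos rfl, ing_self]

theorem nd_symm (S : Sp L) (z z' : NX v S) : nd v S z z' = nd v S z' z := by
  unfold nd
  by_cases h : grp v S z = grp v S z'
  · rw [if_pos h, if_pos h.symm, ing_symm v S z z' h]
  · rw [if_neg h, if_neg (fun h' => h h'.symm), out_symm]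

theorem nd_tri (S : Sp L) (x y z : NX v S) : nd v S x z ≤ nd v S x y ⊔ nd v S y z := by
  unfold nd
  by_cases h1 : grp v S x = grp v S y
  · by_cases h2 : grp v S y = grp v S z
    · rw [if_pos (h1.trans h2), if_pos h1, if_pos h2]
      exact ing_tri v S x y z h1 h2
    · rw [if_neg (fun h => h2 (h1.symm.trans h)), if_pos h1, if_neg h2]
      exact shift' v S x y h1 z
  · by_cases h2 : grp v S y = grp v S z
    · rw [if_neg (fun h => h1 (h.trans h2.symm)), if_neg h1, if_pos h2]
      have := shift' v S z y h2.symm x
      rw [out_symm v S z x, out_symm v S y x, ing_symm v S z y h2.symm] at this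
      rw [sup_comm]
      exact this
    · rw [if_neg h1, if_neg h2]
      by_cases h3 : grp v S x = grp v S z
      · rw [if_pos h3]
        exact (ing_le_out v S x z h3).trans (out_tri v S x y z)
      · rw [if_neg h3]
        exact out_tri v S x y z

/-- the extended space -/
noncomputable def ext (S : Sp L) : Sp L where
  X := NX v S
  d := nd v S
  self := nd_self v S
  symm := nd_symm v S
  tri := nd_tri v S
  cnt := by
    have := S.cnt
    have : Countable (Quad v S) := by unfold Quad; infer_instance
    infer_instance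

theorem nd_old (S : Sp L) (x y : S.X) : nd v S (.inl x) (.inl y) = S.d x y := by
  unfold nd
  by_cases h : x = y
  · subst h
    simp [ing, S.self]
  · rw [if_neg (by simp [grp, h])]
    simp [out, wt, anc]

/-- iterated extension -/
noncomputable def it (S : Sp L) : ℕ → Sp L
  | 0 => S
  | k + 1 => it (ext v S) k

/-- the inclusion -/
noncomputable def emb : (k : ℕ) → (S : Sp L) → S.X → (it v S k).X
  | 0, _, x => x
  | k + 1, S, x => emb k (ext v S) (.inl x)

theorem d_emb : ∀ (k : ℕ) (S : Sp L) (x y : S.X),
    (it v S k).d (emb v k S x) (emb v k S y) = S.d x y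
  | 0, _, _, _ => rfl
  | k + 1, S, x, y => by
    rw [emb, emb]
    exact (d_emb k (ext v S) _ _).trans (nd_old v S x y)

/-- the equivalence relation `d x y ≤ a` -/
def eqv (S : Sp L) (a : WithBot L) : Setoid S.X where
  r x y := S.d x y ≤ a
  iseqv :=
    { refl := fun x => by rw [S.self]; exact bot_le
      symm := fun {x y} h => by rw [S.symm]; exact h
      trans := fun {x y z} h h' => (S.tri x y z).trans (sup_le h h') }

/-- valuation in the partition lattice -/
def pv (S : Sp L) : ℕ → Setoid S.X := fun i => eqv S ((v i : L) : WithBot L)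

theorem eval_le (S : Sp L) (t : LTerm) : t.eval (pv v S) ≤ eqv S (ev v t) := by
  induction t with
  | var i => exact le_rfl
  | sup s t hs ht =>
    refine sup_le (hs.trans ?_) (ht.trans ?_)
    · intro x y h
      exact le_trans h (WithBot.coe_le_coe.2 le_sup_left)
    · intro x y h
      exact le_trans h (WithBot.coe_le_coe.2 le_sup_right)
  | inf s t hs ht =>
    intro x y h
    have h1 := hs h.1
    have h2 := ht h.2
    change S.d x y ≤ ev v (s.inf t)
    have : ev v (s.inf t) = ev v s ⊓ ev v t := by
      simp [ev, LTerm.eval, WithBot.coe_inf]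
    rw [this]
    exact le_inf h1 h2

theorem le_eval (t : LTerm) : ∀ (k : ℕ), t.depth ≤ k → ∀ (S : Sp L) (x y : S.X),
    S.d x y ≤ ev v t → (t.eval (pv v (it v S k))) (emb v k S x) (emb v k S y) := by
  induction t with
  | var i =>
    intro k _ S x y h
    change (it v S k).d _ _ ≤ _
    rw [d_emb]
    exact h
  | inf s t hs ht =>
    intro k hk S x y h
    simp only [LTerm.depth] at hk
    have e : ev v (s.inf t) = ev v s ⊓ ev v t := by
      simp [ev, LTerm.eval, WithBot.coe_inf]
    rw [e] at h
    exact ⟨hs k (by omega) S x y (h.trans inf_le_left), ht k (by omega) S x y (h.trans inf_le_right)⟩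
  | sup s t hs ht =>
    intro k hk S x y h
    simp only [LTerm.depth] at hk
    obtain ⟨k, rfl⟩ : ∃ k', k = k' + 1 := ⟨k - 1, by omega⟩
    have e : ev v (s.sup t) = ev v s ⊔ ev v t := by
      simp [ev, LTerm.eval, WithBot.coe_sup]
    rw [e] at h
    let q : Quad v S := ⟨(x, y, s, t), h⟩
    have d1 : nd v S (.inl x) (.inr (q, 0)) ≤ ev v s := by
      rw [nd, if_neg (by simp [grp])]
      simp [out, wt, anc, S.self, q]
    have d2 : nd v S (.inr (q, 0)) (.inr (q, 1)) ≤ ev v t := by
      rw [nd, if_pos (by simp [grp])]
      simp [ing, inn, q]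
    have d3 : nd v S (.inr (q, 1)) (.inr (q, 2)) ≤ ev v s := by
      rw [nd, if_pos (by simp [grp])]
      simp [ing, inn, q]
    have d4 : nd v S (.inr (q, 2)) (.inl y) ≤ ev v t := by
      rw [nd, if_neg (by simp [grp])]
      simp [out, wt, anc, S.self, q]
    have r1 := hs k (by omega) (ext v S) (Sum.inl x) (Sum.inr (q, 0)) d1
    have r2 := ht k (by omega) (ext v S) (Sum.inr (q, 0)) (Sum.inr (q, 1)) d2
    have r3 := hs k (by omega) (ext v S) (Sum.inr (q, 1)) (Sum.inr (q, 2)) d3
    have r4 := ht k (by omega) (ext v S) (Sum.inr (q, 2)) (Sum.inl y) d4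
    let E := (s.sup t).eval (pv v (it v S (k + 1)))
    have l1 : s.eval (pv v (it v (ext v S) k)) ≤ E := le_sup_left
    have l2 : t.eval (pv v (it v (ext v S) k)) ≤ E := le_sup_right
    exact E.trans (E.trans (E.trans (l1 r1) (l2 r2)) (l1 r3)) (l2 r4)

open Classical in
/-- the two-point space -/
noncomputable def two (a : WithBot L) : Sp L where
  X := Bool
  d x y := if x = y then ⊥ else a
  self x := if_pos rfl
  symm x y := by
    by_cases h : x = y
    · rw [if_pos h, if_pos h.symm]
    · rw [if_neg h, if_neg (fun h' => h h'.symm)]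
  tri x y z := by
    by_cases h : x = z
    · rw [if_pos h]; exact bot_le
    · rw [if_neg h]
      by_cases h' : x = y
      · subst h'
        rw [if_neg h]
        exact le_sup_right
      · rw [if_neg h']
        exact le_sup_left
  cnt := inferInstance

/-- If an identity holds in all lattices of equivalence relations on countable sets, then it holds
in all lattices. -/
theorem identity_of_setoid (p q : LTerm)
    (h : ∀ (X : Type) (_ : Countable X) (w : ℕ → Setoid X), p.eval w = q.eval w) :
    p.eval v = q.eval v := by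
  have key : ∀ p q : LTerm, (∀ (X : Type) (_ : Countable X) (w : ℕ → Setoid X),
      p.eval w = q.eval w) → p.eval v ≤ q.eval v := by
    intro p q h
    let S : Sp L := two (ev v p)
    let T := it v S p.depth
    have h1 : (p.eval (pv v T)) (emb v p.depth S false) (emb v p.depth S true) := by
      apply le_eval v p p.depth le_rfl S
      simp [S, two]
    rw [h T.X T.cnt (pv v T)] at h1
    have h2 : (it v S p.depth).d _ _ ≤ ev v q := eval_le v T q h1
    have e := d_emb v p.depth S (false : Bool) (true : Bool)
    have h3 : S.d (false : Bool) (true : Bool) ≤ ev v q := le_trans (le_of_eq e.symm) h2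
    simp only [S, two, Bool.false_eq_true, if_false] at h3
    exact WithBot.coe_le_coe.1 h3
  exact le_antisymm (key p q h) (key q p (fun X hX w => (h X hX w).symm))

end Pool.Agent.Q94.PartLattice
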