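import Pool.Agent.Q94.IZBase
import Pool.Agent.Q94.PartLattice

/-!
# Dual partition lattices inside the lattice of implication zroupoid varieties
-/

namespace Pool.Agent.Q94.IZ

open PartLattice

/-- Normal forms: `none` is `0`, and `some (l, p)` is the word `p₁ → (p₂ → (… → l))`. -/
abbrev NF : Type := Option (ℕ × List ℕ)

/-- product of normal forms -/
def mul : NF → NF → NF
  | some (v, []), some (l, p) => if l ∈ p then none else some (l, v :: p)
  | _, _ => none

/-- normal form of a term -/
def nf : Tm → NF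
  | .var n => some (n, [])
  | .zero => none
  | .imp s t => mul (nf s) (nf t)

/-- substitution -/
def Tm.subst (σ : ℕ → Tm) : Tm → Tm
  | .var n => σ n
  | .zero => .zero
  | .imp s t => .imp (s.subst σ) (t.subst σ)

/-- substitution on normal forms -/
def ph (g : ℕ → NF) : NF → NF
  | none => none
  | some (l, p) => p.foldr (fun v acc => mul (g v) acc) (g l)

theorem mul_none (a : NF) : mul a none = none := by
  rcases a with _ | ⟨v, _ | ⟨w, p⟩⟩ <;> rfl

theorem none_mul (a : NF) : mul none a = none := rfl

theorem cons_mul (l w : ℕ) (p : List ℕ) (a : NF) : mul (some (l, w :: p)) a = none := by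
  rcases a with _ | ⟨v, q⟩ <;> rfl

/-- `a` is not a single letter -/
def NS (a : NF) : Prop := ∀ b, mul a b = none

theorem ns_of {a : NF} (h : ∀ v, a ≠ some (v, [])) : NS a := by
  intro b
  rcases a with _ | ⟨v, _ | ⟨w, p⟩⟩
  · exact none_mul b
  · exact absurd rfl (h v)
  · exact cons_mul _ _ _ _

theorem ns_mul (a b : NF) : NS (mul a b) := by
  apply ns_of
  intro v h
  rcases a with _ | ⟨x, _ | ⟨w, p⟩⟩
  · simp [mul] at h
  · rcases b with _ | ⟨y, q⟩
    · simp [mul] at h
    · simp only [mul] at h
      split_ifs at h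
      simp at h
  · simp [mul] at h

theorem ph_cons (g : ℕ → NF) (l v : ℕ) (p : List ℕ) :
    ph g (some (l, v :: p)) = mul (g v) (ph g (some (l, p))) := rfl

theorem ph_ns {g : ℕ → NF} {l : ℕ} {p : List ℕ} (w : ℕ) (hw : w ∈ p) (h : NS (g w)) :
    ph g (some (l, p)) = none := by
  induction p with
  | nil => simp at hw
  | cons v p ih =>
    rw [ph_cons]
    rcases List.mem_cons.1 hw with rfl | hw
    · exact h _
    · rw [ih hw, mul_none]

/-- the result of a substitution by letters -/
theorem ph_form {g : ℕ → NF} {l c : ℕ} (hc : g l = some (c, [])) (p : List ℕ) :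
    ph g (some (l, p)) = none ∨ ∃ q : List ℕ, ph g (some (l, p)) = some (c, q) ∧
      (∀ w ∈ p, ∀ e, g w = some (e, []) → e ∈ q) := by
  induction p with
  | nil => right; exact ⟨[], hc, by simp⟩
  | cons v p ih =>
    rw [ph_cons]
    rcases ih with h | ⟨q, hq, hq'⟩
    · left; rw [h, mul_none]
    · rw [hq]
      by_cases hv : ∃ e, g v = some (e, [])
      · obtain ⟨e, he⟩ := hv
        rw [he]
        simp only [mul]
        split_ifs with h
        · left; rfl
        · right
          refine ⟨e :: q, rfl, ?_⟩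
          intro w hw e' he'
          rcases List.mem_cons.1 hw with rfl | hw
          · rw [he] at he'
            simp at he'
            simp [he']
          · exact List.mem_cons_of_mem _ (hq' w hw e' he')
      · left
        push Not at hv
        exact ns_of hv _

theorem ph_mul (g : ℕ → NF) (a b : NF) : ph g (mul a b) = mul (ph g a) (ph g b) := by
  rcases a with _ | ⟨v, _ | ⟨w, p⟩⟩
  · simp [mul, ph]
  · rcases b with _ | ⟨l, p⟩
    · simp [mul, ph, mul_none]
    · simp only [mul]
      split_ifs with h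
      · -- `l ∈ p`
        change none = mul (g v) (ph g (some (l, p)))
        by_cases hl : ∃ c, g l = some (c, [])
        · obtain ⟨c, hc⟩ := hl
          rcases ph_form hc p with h1 | ⟨q, h1, h2⟩
          · rw [h1, mul_none]
          · rw [h1]
            have h3 := h2 l h c hc
            rcases hgv : g v with _ | ⟨e, _ | ⟨e', r⟩⟩
            · rfl
            · simp [mul, h3]
            · rfl
        · push Not at hl
          rw [ph_ns l h (ns_of hl), mul_none]
      · rfl
  · rw [cons_mul]
    rw [ph_cons]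
    exact (ns_mul _ _ _).symm

theorem nf_subst (σ : ℕ → Tm) (t : Tm) : nf (t.subst σ) = ph (fun n => nf (σ n)) (nf t) := by
  induction t with
  | var n => rfl
  | zero => rfl
  | imp s t hs ht => simp only [Tm.subst, nf, hs, ht, ph_mul]

/-- the words `a → (b → (… (b → a)))` with `i` letters `b` -/
def wd (i a b : ℕ) : NF := some (a, a :: List.replicate i b)

theorem wd_inj {i a b i' a' b' : ℕ} (hi : 0 < i) (h : wd i a b = wd i' a' b') :
    i = i' ∧ a = a' ∧ b = b' := by
  simp only [wd, Option.some.injEq, Prod.mk.injEq, List.cons.injEq] at h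
  obtain ⟨h1, _, h2⟩ := h
  have h3 := congrArg List.length h2
  simp only [List.length_replicate] at h3
  subst h3
  refine ⟨rfl, h1, ?_⟩
  rw [List.replicate_right_inj (by omega)] at h2
  exact h2

theorem ph_wd_diff {g : ℕ → NF} {a b a' b' : ℕ} (ha : g a = some (a', [])) (hb : g b = some (b', []))
    (hne : a' ≠ b') (i : ℕ) : ph g (wd i a b) = wd i a' b' := by
  have h : ∀ i, ph g (some (a, List.replicate i b)) = some (a', List.replicate i b') := by
    intro i
    induction i with
    | zero => exact ha
    | succ i ih =>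
      rw [List.replicate_succ, ph_cons, ih, hb]
      simp only [mul]
      rw [if_neg]
      · rfl
      · intro h
        exact hne (List.eq_of_mem_replicate h)
  rw [wd, ph_cons, h, ha]
  simp only [mul]
  rw [if_neg]
  · rfl
  · intro h
    exact hne (List.eq_of_mem_replicate h)

theorem ph_wd_none {g : ℕ → NF} {a b : ℕ} (h : ¬ ∃ a' b', a' ≠ b' ∧ g a = some (a', []) ∧
    g b = some (b', [])) (i : ℕ) (hi : 0 < i) : ph g (wd i a b) = none := by
  by_cases ha : ∃ a', g a = some (a', [])
  · obtain ⟨a', ha⟩ := ha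
    by_cases hb : ∃ b', g b = some (b', [])
    · obtain ⟨b', hb⟩ := hb
      have hab : a' = b' := by
        by_contra hne
        exact h ⟨a', b', hne, ha, hb⟩
      subst hab
      rcases ph_form ha (List.replicate i b) with h1 | ⟨q, h1, h2⟩
      · rw [wd, ph_cons, h1, mul_none]
      · rw [wd, ph_cons, h1, ha]
        have : a' ∈ q := h2 b (List.mem_replicate.2 ⟨by omega, rfl⟩) a' hb
        simp [mul, this]
    · push Not at hb
      rw [wd]
      exact ph_ns b (List.mem_cons_of_mem _ (List.mem_replicate.2 ⟨by omega, rfl⟩)) (ns_of hb)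
  · push Not at ha
    rw [wd]
    exact ph_ns a (List.mem_cons_self) (ns_of ha)

variable {X : Type} (f : X → ℕ)

/-- the equational theory attached to an equivalence relation -/
def E (π : Setoid X) : Set (Tm × Tm) :=
  {e | nf e.1 = nf e.2 ∨ ∃ a b x y, a ≠ b ∧ π x y ∧ nf e.1 = wd (f x + 1) a b ∧
    nf e.2 = wd (f y + 1) a b}

variable (hf : Function.Injective f)

theorem E_refl (π : Setoid X) (t : Tm) : (t, t) ∈ E f π := Or.inl rfl

theorem E_symm {π : Setoid X} {s t : Tm} (h : (s, t) ∈ E f π) : (t, s) ∈ E f π := by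
  rcases h with h | ⟨a, b, x, y, hab, hxy, h1, h2⟩
  · exact Or.inl h.symm
  · exact Or.inr ⟨a, b, y, x, hab, π.symm hxy, h2, h1⟩

include hf in
theorem E_trans {π : Setoid X} {s t r : Tm} (h : (s, t) ∈ E f π) (h' : (t, r) ∈ E f π) :
    (s, r) ∈ E f π := by
  rcases h with h | ⟨a, b, x, y, hab, hxy, h1, h2⟩
  · rcases h' with h' | ⟨a', b', x', y', hab', hxy', h1', h2'⟩
    · exact Or.inl (h.trans h')
    · exact Or.inr ⟨a', b', x', y', hab', hxy', h.trans h1', h2'⟩
  · rcases h' with h' | ⟨a', b', x', y', hab', hxy', h1', h2'⟩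
    · exact Or.inr ⟨a, b, x, y, hab, hxy, h1, (h'.symm).trans h2⟩
    · have h3 : wd (f y + 1) a b = wd (f x' + 1) a' b' := h2.symm.trans h1'
      obtain ⟨e1, e2, e3⟩ := wd_inj (by omega) h3
      subst e2
      subst e3
      have e4 : y = x' := hf (by omega)
      subst e4
      exact Or.inr ⟨a, b, x, y', hab, π.trans hxy hxy', h1, h2'⟩

theorem mul_wd (c : NF) (i a b : ℕ) : mul c (wd i a b) = none := by
  rcases c with _ | ⟨v, _ | ⟨w, p⟩⟩
  · rfl
  · simp [mul, wd]
  · rfl

theorem wd_mul (c : NF) (i a b : ℕ) : mul (wd i a b) c = none := cons_mul _ _ _ _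

theorem E_cong {π : Setoid X} {s t s' t' : Tm} (h : (s, t) ∈ E f π) (h' : (s', t') ∈ E f π) :
    (Tm.imp s s', Tm.imp t t') ∈ E f π := by
  left
  simp only [nf]
  rcases h with h | ⟨a, b, x, y, hab, hxy, h1, h2⟩
  · simp only at h
    rcases h' with h' | ⟨a', b', x', y', hab', hxy', h1', h2'⟩
    · simp only at h'
      rw [h, h']
    · simp only at h1' h2'
      rw [h1', h2', mul_wd, mul_wd]
  · simp only at h1 h2
    rw [h1, h2, wd_mul, wd_mul]

theorem E_subst {π : Setoid X} {s t : Tm} (h : (s, t) ∈ E f π) (σ : ℕ → Tm) :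
    (s.subst σ, t.subst σ) ∈ E f π := by
  rcases h with h | ⟨a, b, x, y, hab, hxy, h1, h2⟩
  · simp only at h
    left
    simp only [nf_subst, h]
  · simp only at h1 h2
    by_cases hg : ∃ a' b', a' ≠ b' ∧ nf (σ a) = some (a', []) ∧ nf (σ b) = some (b', [])
    · obtain ⟨a', b', hne, ha, hb⟩ := hg
      right
      refine ⟨a', b', x, y, hne, hxy, ?_, ?_⟩
      · simp only [nf_subst, h1]
        exact ph_wd_diff ha hb hne _
      · simp only [nf_subst, h2]
        exact ph_wd_diff ha hb hne _
    · left
      simp only [nf_subst, h1, h2]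
      rw [ph_wd_none hg _ (by omega), ph_wd_none hg _ (by omega)]

/-- the equational theory as an equivalence relation on terms -/
def ES (π : Setoid X) : Setoid Tm where
  r s t := (s, t) ∈ E f π
  iseqv := ⟨E_refl f π, fun h => E_symm f h, fun h h' => E_trans f hf h h'⟩

/-- the free algebra of the variety attached to an equivalence relation -/
def Fr (π : Setoid X) : Alg where
  carrier := Quotient (ES f hf π)
  imp := Quotient.map₂ Tm.imp (fun _ _ h _ _ h' => E_cong f h h')
  zero := Quotient.mk _ Tm.zero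

theorem eval_Fr (π : Setoid X) (σ : ℕ → Tm) (t : Tm) :
    (Fr f hf π).eval (fun n => Quotient.mk (ES f hf π) (σ n)) t =
      Quotient.mk (ES f hf π) (t.subst σ) := by
  induction t with
  | var n => rfl
  | zero => rfl
  | imp s t hs ht =>
    simp only [Alg.eval, Tm.subst]
    rw [hs, ht]
    rfl

theorem Fr_sat (π : Setoid X) : ∀ e ∈ E f π, Sat (Fr f hf π) e := by
  intro e he v
  have hv : ∃ σ : ℕ → Tm, v = fun n => Quotient.mk (ES f hf π) (σ n) :=
    ⟨fun n => (v n).out, funext fun n => ((v n).out_eq).symm⟩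
  obtain ⟨σ, rfl⟩ := hv
  rw [eval_Fr, eval_Fr]
  exact Quotient.sound (E_subst f he σ)

theorem subst_id (t : Tm) : t.subst Tm.var = t := by
  induction t with
  | var n => rfl
  | zero => rfl
  | imp s t hs ht => simp only [Tm.subst, hs, ht]

theorem mem_E_of_sat (π : Setoid X) (e : Tm × Tm) (h : Sat (Fr f hf π) e) : e ∈ E f π := by
  have := h (fun n => Quotient.mk (ES f hf π) (Tm.var n))
  rw [eval_Fr, eval_Fr, subst_id, subst_id] at this
  exact Quotient.exact this

theorem iz_sub_E (π : Setoid X) : izAxioms ⊆ E f π := by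
  rintro e (rfl | rfl)
  · left
    simp only [nf, Tm.pr]
    rw [ns_mul]
    simp only [mul_none]
  · left
    simp only [nf, Tm.pr, mul_none]

/-- the variety attached to an equivalence relation -/
def V (π : Setoid X) : SubVar := sub (E f π)

theorem V_val (π : Setoid X) : (V f π).1 = Mod (E f π) := by
  apply Set.Subset.antisymm
  · exact mod_anti Set.subset_union_right
  · intro A hA e he
    rcases he with he | he
    · exact hA e (iz_sub_E f π he)
    · exact hA e he

include hf in
theorem th_V (π : Setoid X) : Th (V f π).1 = E f π := by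
  rw [V_val]
  apply Set.Subset.antisymm
  · intro e he
    exact mem_E_of_sat f hf π e (he _ (Fr_sat f hf π))
  · intro e he A hA
    exact hA e he

theorem E_mono {π ρ : Setoid X} (h : π ≤ ρ) : E f π ⊆ E f ρ := by
  rintro e (he | ⟨a, b, x, y, hab, hxy, h1, h2⟩)
  · exact Or.inl he
  · exact Or.inr ⟨a, b, x, y, hab, h hxy, h1, h2⟩

include hf in
theorem E_inf (π ρ : Setoid X) : E f π ∩ E f ρ = E f (π ⊓ ρ) := by
  apply Set.Subset.antisymm
  · rintro e ⟨h | ⟨a, b, x, y, hab, hxy, h1, h2⟩, h'⟩
    · exact Or.inl h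
    · rcases h' with h' | ⟨a', b', x', y', hab', hxy', h1', h2'⟩
      · exact Or.inl h'
      · obtain ⟨e1, e2, e3⟩ := wd_inj (by omega) (h1.symm.trans h1')
        obtain ⟨e4, e5, e6⟩ := wd_inj (by omega) (h2.symm.trans h2')
        have hx : x = x' := hf (by omega)
        have hy : y = y' := hf (by omega)
        subst hx
        subst hy
        exact Or.inr ⟨a, b, x, y, hab, ⟨hxy, hxy'⟩, h1, h2⟩
  · exact Set.subset_inter (E_mono f inf_le_left) (E_mono f inf_le_right)

include hf in
theorem V_sup (π ρ : Setoid X) : V f π ⊔ V f ρ = V f (π ⊓ ρ) := by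
  apply Subtype.ext
  rw [SubVar.sup_val, V_val f (π ⊓ ρ), ← E_inf f hf]
  congr 1
  have h1 := th_V f hf π
  have h2 := th_V f hf ρ
  rw [← h1, ← h2]
  ext e
  constructor
  · intro h
    exact ⟨fun A hA => h A (Or.inl hA), fun A hA => h A (Or.inr hA)⟩
  · rintro ⟨h, h'⟩ A (hA | hA)
    · exact h A hA
    · exact h' A hA

/-- terms with normal form `wd i a b` -/
def wt' (i a b : ℕ) : Tm := .imp (.var a) (Nat.rec (.var a) (fun _ t => .imp (.var b) t) i)

theorem nf_wt' (i a b : ℕ) (hab : a ≠ b) : nf (wt' i a b) = wd i a b := by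
  have h : ∀ i : ℕ, nf (Nat.rec (.var a) (fun _ t => .imp (.var b) t) i) =
      some (a, List.replicate i b) := by
    intro i
    induction i with
    | zero => rfl
    | succ i ih =>
      simp only [nf]
      rw [ih]
      simp only [mul]
      rw [if_neg]
      · rfl
      · intro h
        exact hab (List.eq_of_mem_replicate h)
  simp only [wt', nf]
  rw [h]
  simp only [mul]
  rw [if_neg]
  · rfl
  · intro h
    exact hab (List.eq_of_mem_replicate h)

theorem V_inf (π ρ : Setoid X) : V f π ⊓ V f ρ = V f (π ⊔ ρ) := by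
  apply Subtype.ext
  rw [SubVar.inf_val, V_val, V_val, V_val]
  apply Set.Subset.antisymm
  · rintro A ⟨hA, hA'⟩ ⟨s, t⟩ he
    rcases he with he | ⟨a, b, x, y, hab, hxy, h1, h2⟩
    · exact hA _ (Or.inl he)
    · have hs : Sat A (s, wt' (f x + 1) a b) := hA _ (Or.inl (by
        simp only
        rw [nf_wt' _ _ _ hab]; exact h1))
      have ht : Sat A (t, wt' (f y + 1) a b) := hA _ (Or.inl (by
        simp only
        rw [nf_wt' _ _ _ hab]; exact h2))
      have hchain : ∀ x y, (π ⊔ ρ) x y → Sat A (wt' (f x + 1) a b, wt' (f y + 1) a b) := by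
        intro x y hxy
        rw [Setoid.sup_eq_eqvGen] at hxy
        induction hxy with
        | rel x y h =>
          rcases h with h | h
          · exact hA _ (Or.inr ⟨a, b, x, y, hab, h, nf_wt' (f x + 1) a b hab,
              nf_wt' (f y + 1) a b hab⟩)
          · exact hA' _ (Or.inr ⟨a, b, x, y, hab, h, nf_wt' (f x + 1) a b hab,
              nf_wt' (f y + 1) a b hab⟩)
        | refl x => intro v; rfl
        | symm x y _ ih => exact fun v => (ih v).symm
        | trans x y z _ _ ih1 ih2 => exact fun v => (ih1 v).trans (ih2 v)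
      intro v
      exact (hs v).trans ((hchain x y hxy v).trans (ht v).symm)
  · exact Set.subset_inter (mod_anti (E_mono f le_sup_left)) (mod_anti (E_mono f le_sup_right))

include hf in
theorem V_inj {π ρ : Setoid X} (h : V f π = V f ρ) : π = ρ := by
  have h1 : E f π = E f ρ := by
    rw [← th_V f hf, ← th_V f hf, h]
  have key : ∀ π ρ : Setoid X, E f π = E f ρ → π ≤ ρ := by
    intro π ρ h x y hxy
    have h2 : (wt' (f x + 1) 0 1, wt' (f y + 1) 0 1) ∈ E f ρ := by
      rw [← h]
      exact Or.inr ⟨0, 1, x, y, by norm_num, hxy, nf_wt' (f x + 1) 0 1 (by norm_num),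
        nf_wt' (f y + 1) 0 1 (by norm_num)⟩
    rcases h2 with h2 | ⟨a, b, x', y', hab, hxy', h3, h4⟩
    · simp only at h2
      rw [nf_wt' (f x + 1) 0 1 (by norm_num), nf_wt' (f y + 1) 0 1 (by norm_num)] at h2
      obtain ⟨e, _⟩ := wd_inj (by omega) h2
      have : x = y := hf (by omega)
      rw [this]
    · simp only at h3 h4
      rw [nf_wt' (f x + 1) 0 1 (by norm_num)] at h3
      rw [nf_wt' (f y + 1) 0 1 (by norm_num)] at h4
      obtain ⟨e, _⟩ := wd_inj (by omega) h3
      obtain ⟨e', _⟩ := wd_inj (by omega) h4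
      have hx : x = x' := hf (by omega)
      have hy : y = y' := hf (by omega)
      rw [hx, hy]
      exact hxy'
  exact le_antisymm (key π ρ h1) (key ρ π h1.symm)

include hf in
theorem eval_V (w : ℕ → Setoid X) (t : LTerm) :
    t.eval (fun i => V f (w i)) = V f (t.dual.eval w) := by
  induction t with
  | var i => rfl
  | sup s t hs ht => simp only [LTerm.eval, LTerm.dual, hs, ht, V_sup f hf]
  | inf s t hs ht => simp only [LTerm.eval, LTerm.dual, hs, ht, V_inf f]

/-- Every lattice identity valid in `𝕀ℤ` is valid in all lattices. -/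
theorem no_identity (p q : LTerm) (h : ∀ v : ℕ → SubVar, p.eval v = q.eval v)
    (L : Type*) [Lattice L] (v : ℕ → L) : p.eval v = q.eval v := by
  have h1 : p.dual.eval (L := Lᵒᵈ) (fun i => OrderDual.toDual (v i)) =
      q.dual.eval (L := Lᵒᵈ) (fun i => OrderDual.toDual (v i)) := by
    apply identity_of_setoid
    intro X hX w
    obtain ⟨f, hf⟩ := hX.exists_injective_nat
    apply V_inj f hf
    rw [← eval_V f hf, ← eval_V f hf]
    exact h _
  rw [LTerm.eval_dual, LTerm.eval_dual] at h1
  exact OrderDual.toDual.injective h1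

end Pool.Agent.Q94.IZ
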