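import Pool.Agent.Q94.IZBase

/-!
# Varieties of implication zroupoids not containing `ZM` satisfy `x'' ≈ x`
-/

namespace Pool.Agent.Q94.IZ

theorem eval_zm {M : Alg} (hM : ∀ x y : M.carrier, M.imp x y = M.zero) (v : ℕ → M.carrier) :
    ∀ t : Tm, (∃ n, t = .var n) ∨ M.eval v t = M.zero
  | .var n => Or.inl ⟨n, rfl⟩
  | .zero => Or.inr rfl
  | .imp s t => Or.inr (hM _ _)

/-- In an implication zroupoid, `(x → y) → z` is of the form `s''`. -/
theorem prod_form {A : Alg} (hA : A ∈ izClass) (x y z : A.carrier) :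
    ∃ s, A.imp (A.imp x y) z = A.imp (A.imp s A.zero) A.zero := by
  obtain ⟨h1, _⟩ := mem_iz.1 hA
  exact ⟨_, (h1 x y z).trans (congrArg (fun w => A.imp w A.zero) (h1 _ _ _))⟩

theorem quad_alg {A : Alg} (hA : A ∈ izClass) (x : A.carrier) :
    A.imp (A.imp (A.imp (A.imp x A.zero) A.zero) A.zero) A.zero =
      A.imp (A.imp x A.zero) A.zero := by
  obtain ⟨h1, h2⟩ := mem_iz.1 hA
  exact quad A.imp A.zero h1 h2 x

/-- If every element is a product then `x'' = x` holds. -/
theorem involutive_of_products {A : Alg} (hA : A ∈ izClass)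
    (h : ∀ a : A.carrier, ∃ b c, a = A.imp b c) (a : A.carrier) :
    A.imp (A.imp a A.zero) A.zero = a := by
  obtain ⟨b, c, hbc⟩ := h a
  obtain ⟨d, e, hde⟩ := h b
  obtain ⟨s, hs⟩ := prod_form hA d e c
  have ha : a = A.imp (A.imp s A.zero) A.zero := by rw [hbc, hde, hs]
  rw [ha]
  exact quad_alg hA s

theorem involutive_of_var {A : Alg} (hA : A ∈ izClass) {n : ℕ} {t : Tm}
    (ht : t ≠ .var n) (hs : Sat A (.var n, t)) (a : A.carrier) :
    A.imp (A.imp a A.zero) A.zero = a := by
  cases t with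
  | var m =>
    have hmn : m ≠ n := fun h => ht (by rw [h])
    have := hs (fun k => if k = n then A.imp (A.imp a A.zero) A.zero else a)
    simpa [Alg.eval, hmn] using this
  | zero =>
    have h0 := hs (fun _ => a)
    have h1 := hs (fun _ => A.imp (A.imp a A.zero) A.zero)
    simp only [Alg.eval] at h0 h1
    rw [h1, h0]
  | imp p q =>
    apply involutive_of_products hA
    intro b
    exact ⟨_, _, hs (fun _ => b)⟩

/-- A variety of implication zroupoids which does not contain `ZM` satisfies `x'' ≈ x`. -/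
theorem involutive_of_not_zm {X : SubVar} (hX : ¬ ZM ≤ X) {A : Alg} (hA : A ∈ X.1)
    (a : A.carrier) : A.imp (A.imp a A.zero) A.zero = a := by
  have hiz := X.2.2 hA
  obtain ⟨E, hE⟩ := X.2.1
  rw [SubVar.le_iff, Set.not_subset] at hX
  obtain ⟨M, hM, hMX⟩ := hX
  rw [hE] at hMX hA
  have hM' := mem_ZM.1 hM
  have : ∃ e ∈ E, ¬ Sat M e := by
    by_contra hno
    push Not at hno
    exact hMX hno
  obtain ⟨e, he, hne⟩ := this
  have hs := hA e he
  obtain ⟨p, q⟩ := e
  have : ∃ v, M.eval v p ≠ M.eval v q := by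
    by_contra hno
    push Not at hno
    exact hne hno
  obtain ⟨v, hv⟩ := this
  rcases eval_zm hM' v p with ⟨n, rfl⟩ | hp
  · have hq : q ≠ .var n := by
      rintro rfl
      exact hv rfl
    exact involutive_of_var hiz hq hs a
  · rcases eval_zm hM' v q with ⟨n, rfl⟩ | hq
    · have hp' : p ≠ .var n := by
        rintro rfl
        exact hv rfl
      exact involutive_of_var hiz hp' (fun w => (hs w).symm) a
    · exact absurd (hp.trans hq.symm) hv

/-- the identity `x'' ≈ x` -/
def inv : Tm × Tm := (Tm.pr (Tm.pr (.var 0)), .var 0)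

theorem sat_inv {A : Alg} : Sat A inv ↔ ∀ a : A.carrier, A.imp (A.imp a A.zero) A.zero = a := by
  constructor
  · intro h a
    have := h (fun _ => a)
    simpa [inv, Tm.pr, Alg.eval] using this
  · intro h v
    simp only [inv, Tm.pr, Alg.eval]
    exact h _

end Pool.Agent.Q94.IZ
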