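import Mathlib

/-! The random graph: uniqueness, a functorial extension of graphs to graphs with the extension
property, retractions. -/

namespace Pool.Agent.Q94.Rado

/-- the extension property characterising the random graph among countable graphs -/
def HasExt {V : Type*} (G : SimpleGraph V) : Prop :=
  ∀ U W : Finset V, Disjoint U W →
    ∃ z : V, z ∉ U ∧ z ∉ W ∧ (∀ u ∈ U, G.Adj z u) ∧ ∀ w ∈ W, ¬ G.Adj z w

/-! ### Uniqueness -/

section unique
variable {α β : Type*} (A : SimpleGraph α) (B : SimpleGraph β)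

/-- finite partial isomorphisms -/
def PI : Type _ :=
  {f : Finset (α × β) // ∀ p ∈ f, ∀ q ∈ f, (p.1 = q.1 ↔ p.2 = q.2) ∧
    (A.Adj p.1 q.1 ↔ B.Adj p.2 q.2)}

instance : Preorder (PI A B) := inferInstanceAs (Preorder {f : Finset (α × β) // _})

instance : Inhabited (PI A B) := ⟨⟨∅, fun _ h => (Finset.notMem_empty _ h).elim⟩⟩

variable {A B}

theorem exists_across (hB : HasExt B) (f : PI A B) (a : α) :
    ∃ b : β, ∀ p ∈ f.val, (p.1 = a ↔ p.2 = b) ∧ (A.Adj p.1 a ↔ B.Adj p.2 b) := by
  classical
  by_cases h : ∃ b, (a, b) ∈ f.val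
  · obtain ⟨b, hb⟩ := h
    exact ⟨b, fun p hp => f.prop _ hp _ hb⟩
  · let U : Finset β := {p ∈ f.val | A.Adj p.1 a}.image Prod.snd
    let W : Finset β := {p ∈ f.val | ¬ A.Adj p.1 a}.image Prod.snd
    have hUW : Disjoint U W := by
      rw [Finset.disjoint_left]
      intro b hb1 hb2
      simp only [U, W, Finset.mem_image, Finset.mem_filter] at hb1 hb2
      obtain ⟨p, ⟨hp, hpa⟩, rfl⟩ := hb1
      obtain ⟨q, ⟨hq, hqa⟩, hqp⟩ := hb2
      have := (f.prop _ hq _ hp).1.mpr hqp
      rw [this] at hqa
      exact hqa hpa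
    obtain ⟨b, hbU, hbW, h1, h2⟩ := hB U W hUW
    refine ⟨b, fun p hp => ⟨⟨?_, ?_⟩, ?_⟩⟩
    · rintro rfl
      exact absurd ⟨p.2, hp⟩ h
    · intro hpb
      exfalso
      by_cases hpa : A.Adj p.1 a
      · exact hbU (Finset.mem_image.mpr ⟨p, Finset.mem_filter.mpr ⟨hp, hpa⟩, hpb⟩)
      · exact hbW (Finset.mem_image.mpr ⟨p, Finset.mem_filter.mpr ⟨hp, hpa⟩, hpb⟩)
    · by_cases hpa : A.Adj p.1 a
      · have := h1 p.2 (Finset.mem_image.mpr ⟨p, Finset.mem_filter.mpr ⟨hp, hpa⟩, rfl⟩)
        exact ⟨fun _ => this.symm, fun _ => hpa⟩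
      · have := h2 p.2 (Finset.mem_image.mpr ⟨p, Finset.mem_filter.mpr ⟨hp, hpa⟩, rfl⟩)
        exact ⟨fun h => absurd h hpa, fun h => absurd h.symm this⟩

/-- swap the two sides -/
def PI.comm [DecidableEq α] [DecidableEq β] (f : PI A B) : PI B A :=
  ⟨f.val.image Prod.swap, by
    intro p hp q hq
    obtain ⟨p', hp', rfl⟩ := Finset.mem_image.mp hp
    obtain ⟨q', hq', rfl⟩ := Finset.mem_image.mp hq
    have := f.prop p' hp' q' hq'
    exact ⟨this.1.symm, this.2.symm⟩⟩

theorem exists_extend_left (hB : HasExt B) (f : PI A B) (a : α) :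
    ∃ g : PI A B, (∃ b, (a, b) ∈ g.val) ∧ f ≤ g := by
  classical
  obtain ⟨b, hb⟩ := exists_across hB f a
  refine ⟨⟨insert (a, b) f.val, ?_⟩, ⟨b, Finset.mem_insert_self _ _⟩, Finset.subset_insert _ _⟩
  intro p hp q hq
  rw [Finset.mem_insert] at hp hq
  rcases hp with rfl | hp <;> rcases hq with rfl | hq
  · simp
  · have := hb q hq
    exact ⟨⟨fun h => (this.1.mp h.symm).symm, fun h => (this.1.mpr h.symm).symm⟩,
      ⟨fun h => (this.2.mp h.symm).symm, fun h => (this.2.mpr h.symm).symm⟩⟩
  · exact hb p hp
  · exact f.prop p hp q hq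

theorem exists_extend_right (hA : HasExt A) (f : PI A B) (b : β) :
    ∃ g : PI A B, (∃ a, (a, b) ∈ g.val) ∧ f ≤ g := by
  classical
  obtain ⟨g, ⟨a, ha⟩, hg⟩ := exists_extend_left hA f.comm b
  refine ⟨g.comm, ⟨a, ?_⟩, ?_⟩
  · exact Finset.mem_image.mpr ⟨(b, a), ha, rfl⟩
  · intro p hp
    exact Finset.mem_image.mpr ⟨p.swap, hg (Finset.mem_image.mpr ⟨p, hp, rfl⟩), rfl⟩

/-- two countable graphs with the extension property are isomorphic -/
theorem iso_of_hasExt [Countable α] [Countable β] (hA : HasExt A) (hB : HasExt B) :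
    Nonempty (A ≃g B) := by
  cases nonempty_encodable α
  cases nonempty_encodable β
  let cof : α ⊕ β → Order.Cofinal (PI A B) := fun x => match x with
    | Sum.inl a => ⟨{f | ∃ b, (a, b) ∈ f.val}, fun f => by
        obtain ⟨g, h1, h2⟩ := exists_extend_left hB f a
        exact ⟨g, h1, h2⟩⟩
    | Sum.inr b => ⟨{f | ∃ a, (a, b) ∈ f.val}, fun f => by
        obtain ⟨g, h1, h2⟩ := exists_extend_right hA f b
        exact ⟨g, h1, h2⟩⟩
  let I : Order.Ideal (PI A B) := Order.idealOfCofinals default cof
  have hl : ∀ a : α, ∃ b : β, ∃ f ∈ I, (a, b) ∈ f.val := by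
    intro a
    obtain ⟨f, ⟨b, hb⟩, hf⟩ := Order.cofinal_meets_idealOfCofinals default cof (Sum.inl a)
    exact ⟨b, f, hf, hb⟩
  have hr : ∀ b : β, ∃ a : α, ∃ f ∈ I, (a, b) ∈ f.val := by
    intro b
    obtain ⟨f, ⟨a, ha⟩, hf⟩ := Order.cofinal_meets_idealOfCofinals default cof (Sum.inr b)
    exact ⟨a, f, hf, ha⟩
  have key : ∀ (a a' : α) (b b' : β), (∃ f ∈ I, (a, b) ∈ f.val) → (∃ f ∈ I, (a', b') ∈ f.val) →
      (a = a' ↔ b = b') ∧ (A.Adj a a' ↔ B.Adj b b') := by
    rintro a a' b b' ⟨f, hf, h1⟩ ⟨g, hg, h2⟩
    obtain ⟨m, -, hm1, hm2⟩ := I.directed f hf g hg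
    exact m.prop (a, b) (hm1 h1) (a', b') (hm2 h2)
  choose F hF using hl
  choose G hG using hr
  refine ⟨⟨⟨F, G, ?_, ?_⟩, ?_⟩⟩
  · intro a
    exact ((key _ _ _ _ (hG (F a)) (hF a)).1.mpr rfl)
  · intro b
    exact ((key _ _ _ _ (hF (G b)) (hG b)).1.mp rfl)
  · intro a a'
    exact (key _ _ _ _ (hF a) (hF a')).2.symm

end unique

/-! ### The functorial extension -/

/-- Binary trees with atoms in `V`; the trees built with `nil` and `cons` are read as lists. -/
inductive HF (V : Type) : Type
  | atom (x : V) : HF V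
  | nil : HF V
  | cons (a l : HF V) : HF V

namespace HF

variable {V V' V'' : Type}

/-- membership in the list -/
def mem (z : HF V) : HF V → Prop
  | atom _ => False
  | nil => False
  | cons a l => z = a ∨ mem z l

/-- size -/
def sz : HF V → ℕ
  | atom _ => 0
  | nil => 0
  | cons a l => sz a + sz l + 1

theorem sz_lt_of_mem {z : HF V} : ∀ {t : HF V}, mem z t → sz z < sz t
  | cons a l, h => by
    rcases h with rfl | h
    · simp only [sz]; omega
    · have := sz_lt_of_mem h
      simp only [sz]; omega

/-- functoriality -/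
def map (h : V → V') : HF V → HF V'
  | atom x => atom (h x)
  | nil => nil
  | cons a l => cons (map h a) (map h l)

theorem map_map (h : V → V') (h' : V' → V'') (t : HF V) : map h' (map h t) = map (h' ∘ h) t := by
  induction t with
  | atom x => rfl
  | nil => rfl
  | cons a l iha ihl => simp only [map, iha, ihl]

theorem map_id (t : HF V) : map id t = t := by
  induction t with
  | atom x => rfl
  | nil => rfl
  | cons a l iha ihl => simp only [map, iha, ihl]

theorem mem_map (h : V → V') {z : HF V} : ∀ {t : HF V}, mem z t → mem (map h z) (map h t)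
  | cons a l, hz => by
    rcases hz with rfl | hz
    · exact Or.inl rfl
    · exact Or.inr (mem_map h hz)

/-- the adjacency relation -/
def adj (G : SimpleGraph V) (s t : HF V) : Prop :=
  (∃ x y, s = atom x ∧ t = atom y ∧ G.Adj x y) ∨ mem s t ∨ mem t s

/-- the extended graph -/
def ext (G : SimpleGraph V) : SimpleGraph (HF V) where
  Adj := adj G
  symm := ⟨by
    rintro s t (⟨x, y, hx, hy, h⟩ | h | h)
    · exact Or.inl ⟨y, x, hy, hx, h.symm⟩
    · exact Or.inr (Or.inr h)
    · exact Or.inr (Or.inl h)⟩
  loopless := ⟨by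
    rintro s (⟨x, y, hx, hy, h⟩ | h | h)
    · rw [hx] at hy
      cases hy
      exact h.ne rfl
    · exact absurd (sz_lt_of_mem h) (lt_irrefl _)
    · exact absurd (sz_lt_of_mem h) (lt_irrefl _)⟩

theorem ext_adj (G : SimpleGraph V) (s t : HF V) : (ext G).Adj s t ↔ adj G s t := Iff.rfl

theorem ext_map {G : SimpleGraph V} {G' : SimpleGraph V'} {h : V → V'}
    (hh : ∀ x y, G.Adj x y → G'.Adj (h x) (h y)) {s t : HF V} (hst : (ext G).Adj s t) :
    (ext G').Adj (map h s) (map h t) := by
  rcases hst with ⟨x, y, rfl, rfl, h1⟩ | h1 | h1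
  · exact Or.inl ⟨h x, h y, rfl, rfl, hh x y h1⟩
  · exact Or.inr (Or.inl (mem_map h h1))
  · exact Or.inr (Or.inr (mem_map h h1))

/-- the list of the elements of a list -/
def ofList : List (HF V) → HF V
  | [] => nil
  | a :: l => cons a (ofList l)

theorem mem_ofList {z : HF V} : ∀ {l : List (HF V)}, mem z (ofList l) ↔ z ∈ l
  | [] => by simp [ofList, mem]
  | a :: l => by simp only [ofList, mem, List.mem_cons, mem_ofList]

/-- trees of large size -/
def big : ℕ → HF V
  | 0 => nil
  | n + 1 => cons nil (big n)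

theorem sz_big (n : ℕ) : sz (big n : HF V) = n := by
  induction n with
  | zero => rfl
  | succ n ih => simp only [big, sz, ih]; omega

theorem hasExt (G : SimpleGraph V) : HasExt (ext G) := by
  classical
  intro U W hUW
  obtain ⟨n, hn⟩ : ∃ n, ∀ z ∈ U ∪ W, sz z < n := by
    refine ⟨(U ∪ W).sup sz + 1, fun z hz => ?_⟩
    exact Nat.lt_succ_of_le (Finset.le_sup hz)
  let z : HF V := cons (big n) (ofList U.toList)
  have hsz : n < sz z := by
    simp only [z, sz, sz_big]
    omega
  refine ⟨z, ?_, ?_, ?_, ?_⟩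
  · intro h
    have := hn z (Finset.mem_union_left _ h)
    omega
  · intro h
    have := hn z (Finset.mem_union_right _ h)
    omega
  · intro u hu
    right; right
    right
    rw [mem_ofList]
    simpa using hu
  · intro w hw h
    rcases h with ⟨x, y, hx, -, -⟩ | h | h
    · have hx' : (cons (big n) (ofList U.toList) : HF V) = atom x := hx
      cases hx'
    · have h1 := sz_lt_of_mem h
      have h2 := hn w (Finset.mem_union_right _ hw)
      omega
    · rcases h with h | h
      · have h2 := hn w (Finset.mem_union_right _ hw)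
        rw [h, sz_big] at h2
        omega
      · rw [mem_ofList] at h
        have : w ∈ U := by simpa using h
        exact Finset.disjoint_left.mp hUW this hw

instance [Countable V] : Countable (HF V) := by
  cases nonempty_encodable V
  let f : HF V → ℕ := fun t => HF.rec (motive := fun _ => ℕ) (fun x => 2 * Encodable.encode x + 1)
    0 (fun _ _ a l => 2 * (Nat.pair a l) + 2) t
  have hf : Function.Injective f := by
    intro s
    induction s with
    | atom x =>
      intro t h
      cases t with
      | atom y =>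
        have h' : 2 * Encodable.encode x + 1 = 2 * Encodable.encode y + 1 := h
        have : Encodable.encode x = Encodable.encode y := by omega
        rw [Encodable.encode_injective this]
      | nil =>
        have h' : 2 * Encodable.encode x + 1 = 0 := h
        omega
      | cons a l =>
        have h' : 2 * Encodable.encode x + 1 = 2 * (Nat.pair (f a) (f l)) + 2 := h
        omega
    | nil =>
      intro t h
      cases t with
      | atom y =>
        have h' : 0 = 2 * Encodable.encode y + 1 := h
        omega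
      | nil => rfl
      | cons a l =>
        have h' : 0 = 2 * (Nat.pair (f a) (f l)) + 2 := h
        omega
    | cons a l iha ihl =>
      intro t h
      cases t with
      | atom y =>
        have h' : 2 * (Nat.pair (f a) (f l)) + 2 = 2 * Encodable.encode y + 1 := h
        omega
      | nil =>
        have h' : 2 * (Nat.pair (f a) (f l)) + 2 = 0 := h
        omega
      | cons a' l' =>
        have h' : 2 * (Nat.pair (f a) (f l)) + 2 = 2 * (Nat.pair (f a') (f l')) + 2 := h
        have h2 : Nat.pair (f a) (f l) = Nat.pair (f a') (f l') := by omega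
        rw [Nat.pair_eq_pair] at h2
        rw [iha h2.1, ihl h2.2]
  exact hf.countable

/-! ### The retraction -/

section retr
variable {G : SimpleGraph V} (hG : HasExt G)

/-- a vertex adjacent to all elements of a finite set -/
noncomputable def common (s : Finset V) : V := (hG s ∅ (by simp)).choose

theorem common_adj (s : Finset V) {u : V} (hu : u ∈ s) : G.Adj (common hG s) u :=
  (hG s ∅ (by simp)).choose_spec.2.2.1 u hu

open Classical in
/-- the retraction together with the set of the images of the members -/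
noncomputable def retrAux : HF V → V × Finset V
  | atom x => (x, ∅)
  | nil => (common hG ∅, ∅)
  | cons a l => (common hG (insert (retrAux a).1 (retrAux l).2),
      insert (retrAux a).1 (retrAux l).2)

/-- the retraction -/
noncomputable def retr (t : HF V) : V := (retrAux hG t).1

theorem retr_atom (x : V) : retr hG (atom x) = x := rfl

theorem mem_retrAux {z : HF V} : ∀ {t : HF V}, mem z t → retr hG z ∈ (retrAux hG t).2
  | cons a l, h => by
    classical
    simp only [retrAux]
    rcases h with rfl | h
    · exact Finset.mem_insert_self _ _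
    · exact Finset.mem_insert_of_mem (mem_retrAux h)

theorem retr_adj_of_mem {z t : HF V} (h : mem z t) : G.Adj (retr hG t) (retr hG z) := by
  have h1 := mem_retrAux hG h
  cases t with
  | atom x => exact h.elim
  | nil => exact h.elim
  | cons a l => exact common_adj hG _ h1

theorem retr_hom {s t : HF V} (h : (ext G).Adj s t) : G.Adj (retr hG s) (retr hG t) := by
  rcases h with ⟨x, y, rfl, rfl, h⟩ | h | h
  · exact h
  · exact (retr_adj_of_mem hG h).symm
  · exact retr_adj_of_mem hG h

end retr

end HF

end Pool.Agent.Q94.Rado
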