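import Mathlib

/-! The combinatorial core of the non-soficity argument. -/

namespace Pool.Agent.Q94.Sofic

open Finset

section core

variable {X Y : Type*} [Fintype X] [DecidableEq X] [Fintype Y] [DecidableEq Y]

theorem card_preimage_perm (e : Equiv.Perm X) (s : Finset X) :
    (univ.filter fun x => e x ∈ s).card = s.card := by
  have : (univ.filter fun x => e x ∈ s) = s.map e.symm.toEmbedding := by
    ext x
    simp only [mem_filter, mem_univ, true_and, mem_map_equiv, Equiv.symm_symm]
  rw [this, card_map]

/-- the fibre of `τ` through `x` -/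
def fib (τ : X → Y) (x : X) : Finset X := univ.filter fun x' => τ x' = τ x

theorem mem_fib {τ : X → Y} {x x' : X} : x' ∈ fib τ x ↔ τ x' = τ x := by simp [fib]

theorem fib_pos (τ : X → Y) (x : X) : 0 < (fib τ x).card :=
  card_pos.mpr ⟨x, mem_fib.mpr rfl⟩

/-- the points whose fibre contains many bad points -/
def bad2 (τ : X → Y) (bad : Finset X) : Finset X :=
  univ.filter fun x => (fib τ x).card < 3 * ((fib τ x).filter (· ∈ bad)).card

theorem card_bad2 (τ : X → Y) (bad : Finset X) : (bad2 τ bad).card ≤ 3 * bad.card := by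
  have h1 : (bad2 τ bad).card = ∑ y : Y, ((bad2 τ bad).filter fun x => τ x = y).card :=
    card_eq_sum_card_fiberwise (fun _ _ => mem_univ _)
  have h2 : bad.card = ∑ y : Y, (bad.filter fun x => τ x = y).card :=
    card_eq_sum_card_fiberwise (fun _ _ => mem_univ _)
  rw [h1, h2, mul_sum]
  apply sum_le_sum
  intro y _
  rcases ((bad2 τ bad).filter fun x => τ x = y).eq_empty_or_nonempty with h | ⟨x0, hx0⟩
  · rw [h]; simp
  · rw [mem_filter] at hx0
    obtain ⟨h3, rfl⟩ := hx0
    rw [bad2, mem_filter] at h3
    have h4 : ((bad2 τ bad).filter fun x => τ x = τ x0).card ≤ (fib τ x0).card := by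
      apply card_le_card
      intro x hx
      rw [mem_filter] at hx
      exact mem_fib.mpr hx.2
    have h5 : ((fib τ x0).filter (· ∈ bad)) = (bad.filter fun x => τ x = τ x0) := by
      ext x
      simp only [mem_filter, mem_fib]
      exact and_comm
    rw [h5] at h3
    omega

/-- **The core inequality.** -/
theorem core {q : ℕ} [NeZero q] (τ : X → Y) (U : Fin 2 → Y → Y) (a v : Equiv.Perm X)
    (κ : ZMod q → Equiv.Perm X) (ha : a * a = 1) (hv : v * v * v = 1)
    (hκ0 : κ 0 = 1) (hκ : ∀ i j, κ (i + j) = κ i * κ j) (bad : Finset X)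
    (p : Fin 2 → Equiv.Perm X) (hp0 : p 0 = a * v) (hp1 : p 1 = a * v⁻¹)
    (h1 : ∀ x ∉ bad, ∀ i, τ (p i x) = U i (τ x))
    (h2 : ∀ x ∉ bad, ∀ i j, τ (p i (κ j x)) = τ (p i x))
    (h3 : ∀ x ∉ bad, ∀ j k, τ (κ j x) = τ (κ k x) → j = k) :
    q * Fintype.card X ≤ 12 * Fintype.card X + 48 * q ^ 2 * bad.card := by
  set m : X → ℕ := fun x => (fib τ x).card with hm
  have hmpos : ∀ x, 0 < m x := fib_pos τ
  set B2 := bad2 τ bad with hB2
  -- the exceptional set
  set R : Finset X := univ.filter fun x => ∃ j, κ j x ∈ bad ∪ B2 with hR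
  have hRcard : R.card ≤ 4 * q * bad.card := by
    have e1 : R ⊆ univ.biUnion fun j : ZMod q => univ.filter fun x => κ j x ∈ bad ∪ B2 := by
      intro x hx
      rw [hR, mem_filter] at hx
      obtain ⟨j, hj⟩ := hx.2
      exact mem_biUnion.mpr ⟨j, mem_univ _, mem_filter.mpr ⟨mem_univ _, hj⟩⟩
    calc R.card ≤ ∑ j : ZMod q, (univ.filter fun x => κ j x ∈ bad ∪ B2).card :=
          (card_le_card e1).trans card_biUnion_le
      _ = ∑ _j : ZMod q, (bad ∪ B2).card := by
          apply sum_congr rfl
          intro j _
          exact card_preimage_perm _ _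
      _ = q * (bad ∪ B2).card := by rw [sum_const, card_univ, ZMod.card, smul_eq_mul]
      _ ≤ q * (4 * bad.card) := by
          apply Nat.mul_le_mul_left
          have e1 := card_union_le bad B2
          have e2 := card_bad2 τ bad
          rw [← hB2] at e2
          omega
      _ = 4 * q * bad.card := by ring
  have hκmem : ∀ x ∉ R, ∀ j, κ j x ∉ bad ∧ κ j x ∉ B2 := by
    intro x hx j
    have : ¬ (κ j x ∈ bad ∪ B2) := fun h => hx (by
      rw [hR, mem_filter]; exact ⟨mem_univ _, j, h⟩)
    rw [mem_union, not_or] at this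
    exact this
  have hxbad : ∀ x ∉ R, x ∉ bad := by
    intro x hx
    have := (hκmem x hx 0).1
    rwa [hκ0] at this
  -- growth
  set S : X → ℕ := fun x => ∑ j : ZMod q, m (κ j x) with hS
  have hgrow : ∀ x ∉ R, ∀ i, 2 * S x ≤ 3 * m (p i x) := by
    intro x hx i
    let F : ZMod q → Finset X := fun j => (fib τ (κ j x)).filter (· ∉ bad)
    have hF : ∀ j, 2 * m (κ j x) ≤ 3 * (F j).card := by
      intro j
      have e1 := (hκmem x hx j).2
      rw [hB2, bad2, mem_filter] at e1
      simp only [mem_univ, true_and, not_lt] at e1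
      have e2 : ((fib τ (κ j x)).filter (· ∈ bad)).card + (F j).card = m (κ j x) :=
        card_filter_add_card_filter_not _
      change 3 * _ ≤ m (κ j x) at e1
      omega
    have hdisj : ∀ j ∈ (univ : Finset (ZMod q)), ∀ k ∈ (univ : Finset (ZMod q)), j ≠ k →
        Disjoint (F j) (F k) := by
      intro j _ k _ hjk
      rw [Finset.disjoint_left]
      intro y hy1 hy2
      simp only [F, mem_filter, mem_fib] at hy1 hy2
      exact hjk (h3 x (hxbad x hx) j k (hy1.1.symm.trans hy2.1))
    have hcard : (univ.biUnion F).card = ∑ j, (F j).card := card_biUnion hdisj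
    have hsub : (univ.biUnion F).image (p i) ⊆ fib τ (p i x) := by
      intro y hy
      rw [mem_image] at hy
      obtain ⟨z, hz, rfl⟩ := hy
      rw [mem_biUnion] at hz
      obtain ⟨j, -, hz⟩ := hz
      simp only [F, mem_filter, mem_fib] at hz
      rw [mem_fib, h1 z hz.2, hz.1, ← h1 _ (hκmem x hx j).1, h2 x (hxbad x hx)]
    have hle := card_le_card hsub
    rw [card_image_of_injective _ (p i).injective, hcard] at hle
    calc 2 * S x = ∑ j, 2 * m (κ j x) := by rw [hS, mul_sum]
      _ ≤ ∑ j, 3 * (F j).card := sum_le_sum fun j _ => hF j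
      _ = 3 * ∑ j, (F j).card := by rw [mul_sum]
      _ ≤ 3 * m (p i x) := Nat.mul_le_mul_left _ hle
  -- the failures
  have hSinv : ∀ x k, S (κ k x) = S x := by
    intro x k
    simp only [hS]
    refine Fintype.sum_equiv (Equiv.addRight k) _ _ ?_
    intro j
    rw [Equiv.coe_addRight, hκ]
    rfl
  have hfail : ∀ i, q * (univ.filter fun x => x ∉ R ∧ m (p i x) ≤ m x).card ≤ Fintype.card X := by
    intro i
    set Fl := univ.filter fun x => x ∉ R ∧ m (p i x) ≤ m x with hFl
    have key : ∀ x ∈ Fl, 2 * S x ≤ 3 * m x := by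
      intro x hx
      rw [hFl, mem_filter] at hx
      have := hgrow x hx.2.1 i
      have := hx.2.2
      omega
    have hnotR : ∀ x ∈ Fl, x ∉ R := fun x hx => by
      rw [hFl, mem_filter] at hx
      exact hx.2.1
    have hinj : Set.InjOn (fun z : X × ZMod q => κ z.2 z.1) (Fl ×ˢ (univ : Finset (ZMod q))) := by
      rintro ⟨x, j⟩ hx ⟨y, k⟩ hy hxy
      simp only [Set.mem_prod, mem_coe] at hx hy
      simp only at hxy
      have e1 : y = κ (j - k) x := by
        have : κ k (κ (j - k) x) = κ j x := by
          have := hκ k (j - k)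
          rw [add_sub_cancel] at this
          rw [this]
          rfl
        apply (κ k).injective
        rw [this, hxy]
      by_cases hxy' : j - k = 0
      · rw [hxy', hκ0] at e1
        have : j = k := sub_eq_zero.mp hxy'
        rw [this]
        exact congrArg (fun z => (z, k)) e1.symm
      · exfalso
        have e2 := key x hx.1
        have e3 := key y hy.1
        rw [e1, hSinv] at e3
        have e4 : m x + m (κ (j - k) x) ≤ S x := by
          have e5 : ({0, j - k} : Finset (ZMod q)).sum (fun l => m (κ l x)) ≤ S x :=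
            sum_le_sum_of_subset (subset_univ _)
          rw [sum_pair (Ne.symm hxy'), hκ0] at e5
          exact e5
        have e6 := hmpos x
        omega
    have hle := card_le_card_of_injOn (s := Fl ×ˢ (univ : Finset (ZMod q)))
      (t := (univ : Finset X)) _ (fun _ _ => mem_univ _) (by rw [coe_product]; exact hinj)
    rw [card_product, card_univ, card_univ, ZMod.card] at hle
    rw [mul_comm]
    exact hle
  -- the set `B`
  set B : Finset X := univ.filter fun x => m (a x) ≤ m x with hB
  have haa : ∀ x, a (a x) = x := fun x => by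
    have := DFunLike.congr_fun ha x
    exact this
  have hBmem : ∀ x, x ∈ B ↔ m (a x) ≤ m x := fun x => by simp [hB]
  have hBcard : Fintype.card X ≤ 2 * B.card := by
    have e1 : (univ : Finset X) ⊆ B ∪ univ.filter fun x => a x ∈ B := by
      intro x _
      rcases le_total (m (a x)) (m x) with h | h
      · exact mem_union_left _ ((hBmem x).mpr h)
      · refine mem_union_right _ (mem_filter.mpr ⟨mem_univ _, ?_⟩)
        rw [hBmem, haa]
        exact h
    have e2 := (card_le_card e1).trans (card_union_le _ _)
    rw [card_preimage_perm, card_univ] at e2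
    omega
  -- the sets where there is no growth
  set Wf : Fin 2 → Finset X := fun i => univ.filter fun x => m (p i x) ≤ m x with hWf
  have hW : ∀ i, q * (Wf i).card ≤ q * R.card + Fintype.card X := by
    intro i
    have e1 : Wf i ⊆ R ∪ univ.filter fun x => x ∉ R ∧ m (p i x) ≤ m x := by
      intro x hx
      simp only [hWf, mem_filter, mem_univ, true_and] at hx
      by_cases hxR : x ∈ R
      · exact mem_union_left _ hxR
      · exact mem_union_right _ (mem_filter.mpr ⟨mem_univ _, hxR, hx⟩)
    have e2 := (card_le_card e1).trans (card_union_le _ _)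
    have e3 := hfail i
    calc q * (Wf i).card ≤ q * (R.card + _) := Nat.mul_le_mul_left _ e2
      _ = q * R.card + q * _ := by rw [mul_add]
      _ ≤ _ := Nat.add_le_add_left e3 _
  have hinter : (B ∩ univ.filter fun x => v x ∈ B).card ≤ (Wf 0).card + (Wf 1).card := by
    have e1 : (B ∩ univ.filter fun x => v x ∈ B) ⊆ Wf 0 ∪ univ.filter fun x => v x ∈ Wf 1 := by
      intro x hx
      obtain ⟨hx1, hx2⟩ := mem_inter.mp hx
      have hx2 := (mem_filter.mp hx2).2
      rw [hBmem] at hx1 hx2
      by_contra hcon
      rw [mem_union, not_or, mem_filter] at hcon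
      obtain ⟨hc1, hc2⟩ := hcon
      simp only [hWf, mem_filter, mem_univ, true_and, not_le] at hc1 hc2
      rw [hp0] at hc1
      rw [hp1] at hc2
      have e2 : (a * v) x = a (v x) := rfl
      have e3 : (a * v⁻¹) (v x) = a x := by
        change a (v⁻¹ (v x)) = a x
        congr 1
        exact v.symm_apply_apply x
      rw [e2] at hc1
      rw [e3] at hc2
      omega
    have e2 := (card_le_card e1).trans (card_union_le _ _)
    rwa [card_preimage_perm] at e2
  -- inclusion-exclusion
  have hvvv : ∀ x, v (v (v x)) = x := fun x => DFunLike.congr_fun hv x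
  set B1 : Finset X := univ.filter fun x => v x ∈ B with hB1
  set B3 : Finset X := univ.filter fun x => v (v x) ∈ B with hB3
  have c1 : B1.card = B.card := card_preimage_perm v B
  have c3 : B3.card = B.card := by
    have : B3 = univ.filter fun x => v x ∈ B1 := by
      ext x; simp [hB3, hB1]
    rw [this, card_preimage_perm, c1]
  have i13 : (B1 ∩ B3).card = (B ∩ B1).card := by
    have : (B1 ∩ B3) = univ.filter fun x => v x ∈ B ∩ B1 := by
      ext x; simp [hB3, hB1]
    rw [this, card_preimage_perm]
  have i03 : (B3 ∩ B).card = (B ∩ B1).card := by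
    have : (B3 ∩ B) = univ.filter fun x => (v * v) x ∈ B ∩ B1 := by
      ext x
      simp only [hB3, hB1, mem_inter, mem_filter, mem_univ, true_and, Equiv.Perm.mul_apply, hvvv]
    rw [this, card_preimage_perm]
  have u1 := card_union_add_card_inter B B1
  have u2 := card_union_add_card_inter (B ∪ B1) B3
  have u3 : ((B ∪ B1) ∩ B3).card ≤ (B3 ∩ B).card + (B1 ∩ B3).card := by
    rw [union_inter_distrib_right, inter_comm B B3]
    exact card_union_le _ _
  have u4 : (B ∪ B1 ∪ B3).card ≤ Fintype.card X := card_le_univ _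
  have hfinal : Fintype.card X ≤ 6 * ((Wf 0).card + (Wf 1).card) := by omega
  have w0 := hW 0
  have w1 := hW 1
  calc q * Fintype.card X ≤ q * (6 * ((Wf 0).card + (Wf 1).card)) := Nat.mul_le_mul_left _ hfinal
    _ = 6 * (q * (Wf 0).card) + 6 * (q * (Wf 1).card) := by ring
    _ ≤ 6 * (q * R.card + Fintype.card X) + 6 * (q * R.card + Fintype.card X) := by omega
    _ = 12 * Fintype.card X + 12 * q * R.card := by ring
    _ ≤ 12 * Fintype.card X + 12 * q * (4 * q * bad.card) := by
        apply Nat.add_le_add_left
        exact Nat.mul_le_mul_left _ hRcard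
    _ = 12 * Fintype.card X + 48 * q ^ 2 * bad.card := by ring

end core

end Pool.Agent.Q94.Sofic
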