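import Mathlib
import Pool.Agent.Q94.SoficCore

/-! Sofic monoids, the triangular monoids `G ⊔ P ⊔ N\G ⊔ {0}`, and the non-soficity theorem. -/

namespace Pool.Agent.Q94.Sofic

/-- (Left) sofic monoid: for every finite `K` and every `ε > 0` there is a `(K, ε)`-action on a
finite nonempty set. -/
def IsSofic (M : Type*) [Monoid M] : Prop :=
  ∀ (K : Finset M) (ε : ℝ), 0 < ε →
    ∃ (X : Type) (_ : Finite X) (_ : Nonempty X) (act : M → X → X),
      (∀ x, act 1 x = x) ∧
      (∀ s ∈ K, ∀ t ∈ K,
        (1 - ε) * Nat.card X ≤ ({x | act s (act t x) = act (s * t) x} : Set X).ncard) ∧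
      (∀ s ∈ K, ∀ t ∈ K, s ≠ t →
        (1 - ε) * Nat.card X ≤ ({x | act s x ≠ act t x} : Set X).ncard)

/-- the data of the construction: a subgroup `N` and a submonoid `P` of `G` with
`p N p⁻¹ ⊆ N` for all `p ∈ P` -/
structure TriData (G : Type) [Group G] where
  N : Subgroup G
  P : Submonoid G
  conj : ∀ p ∈ P, ∀ n ∈ N, p * n * p⁻¹ ∈ N

variable {G : Type} [Group G]

/-- The elements of the monoid: the group elements `g x`, the elements `u p` for `p ∈ P`, the
right cosets (the left coset `a N` stands for the right coset `N a⁻¹`), and a zero `z`. -/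
inductive Tri (D : TriData G) (b : Bool) : Type
  | g (x : G) : Tri D b
  | u (p : D.P) : Tri D b
  | t (c : G ⧸ D.N) : Tri D b
  | z : Tri D b

namespace Tri

variable {D : TriData G} {b : Bool}

/-- the map `N a⁻¹ ↦ N p a⁻¹` on right cosets, written on left cosets as `a N ↦ a p⁻¹ N` -/
def lmul (D : TriData G) (p : D.P) : G ⧸ D.N → G ⧸ D.N :=
  Quotient.map' (fun a => a * (p : G)⁻¹) (by
    intro a a' h
    rw [QuotientGroup.leftRel_apply] at h ⊢
    have := D.conj p p.2 _ h
    convert this using 1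
    group)

theorem lmul_mk (p : D.P) (a : G) : lmul D p (a : G ⧸ D.N) = ((a * (p : G)⁻¹ : G) : G ⧸ D.N) :=
  rfl

theorem lmul_mul (p q : D.P) (c : G ⧸ D.N) : lmul D (p * q) c = lmul D p (lmul D q c) := by
  induction c using QuotientGroup.induction_on with
  | H a =>
    rw [lmul_mk, lmul_mk, lmul_mk]
    congr 1
    rw [Submonoid.coe_mul, mul_inv_rev, mul_assoc]

theorem lmul_one (c : G ⧸ D.N) : lmul D 1 c = c := by
  induction c using QuotientGroup.induction_on with
  | H a =>
    rw [lmul_mk]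
    congr 1
    simp

theorem lmul_smul (p : D.P) (x : G) (c : G ⧸ D.N) : lmul D p (x • c) = x • lmul D p c := by
  induction c using QuotientGroup.induction_on with
  | H a =>
    rw [lmul_mk, MulAction.Quotient.smul_coe, MulAction.Quotient.smul_coe, lmul_mk, smul_eq_mul,
      smul_eq_mul, mul_assoc]

/-- The multiplication.  For `b = true` the elements `u p` multiply like `P` and act on the cosets
from the left; for `b = false` all products of two non-units are `0`. -/
def mul : Tri D b → Tri D b → Tri D b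
  | g x, g y => g (x * y)
  | g _, u p => u p
  | g _, t c => t c
  | g _, z => z
  | u p, g _ => u p
  | u p, u q => bif b then u (p * q) else z
  | u p, t c => bif b then t (lmul D p c) else z
  | u _, z => z
  | t c, g x => t (x⁻¹ • c)
  | t _, u _ => z
  | t _, t _ => z
  | t _, z => z
  | z, _ => z

instance : Mul (Tri D b) := ⟨mul⟩
instance : One (Tri D b) := ⟨g 1⟩

theorem one_def : (1 : Tri D b) = g 1 := rfl
theorem mul_def (x y : Tri D b) : x * y = mul x y := rfl

theorem mul_assoc' (x y w : Tri D b) : mul (mul x y) w = mul x (mul y w) := by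
  cases b <;> cases x <;> cases y <;> cases w <;>
    simp only [mul, cond_true, cond_false, mul_assoc, lmul_mul, lmul_smul, mul_inv_rev, mul_smul]

instance : Monoid (Tri D b) where
  mul_assoc := mul_assoc'
  one_mul x := by
    change mul (g 1) x = x
    cases x <;> simp [mul]
  mul_one x := by
    change mul x (g 1) = x
    cases x <;> simp [mul]

@[simp] theorem g_mul_g (x y : G) : (g x : Tri D b) * g y = g (x * y) := rfl
@[simp] theorem g_mul_u (x : G) (p : D.P) : (g x : Tri D b) * u p = u p := rfl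
@[simp] theorem g_mul_t (x : G) (c : G ⧸ D.N) : (g x : Tri D b) * t c = t c := rfl
@[simp] theorem g_mul_z (x : G) : (g x : Tri D b) * z = z := rfl
@[simp] theorem u_mul_g (p : D.P) (x : G) : (u p : Tri D b) * g x = u p := rfl
@[simp] theorem u_mul_z (p : D.P) : (u p : Tri D b) * z = z := rfl
@[simp] theorem t_mul_g (c : G ⧸ D.N) (x : G) : (t c : Tri D b) * g x = t (x⁻¹ • c) := rfl
@[simp] theorem t_mul_u (c : G ⧸ D.N) (p : D.P) : (t c : Tri D b) * u p = z := rfl
@[simp] theorem t_mul_t (c d : G ⧸ D.N) : (t c : Tri D b) * t d = z := rfl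
@[simp] theorem t_mul_z (c : G ⧸ D.N) : (t c : Tri D b) * z = z := rfl
@[simp] theorem z_mul (x : Tri D b) : z * x = z := by cases x <;> rfl
theorem u_mul_t_true (p : D.P) (c : G ⧸ D.N) : (u p : Tri D true) * t c = t (lmul D p c) := rfl
theorem u_mul_u_false (p q : D.P) : (u p : Tri D false) * u q = z := rfl
theorem u_mul_t_false (p : D.P) (c : G ⧸ D.N) : (u p : Tri D false) * t c = z := rfl

/-- the group elements form the group of units -/
def gHom (D : TriData G) (b : Bool) : G →* Tri D b where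
  toFun := g
  map_one' := rfl
  map_mul' _ _ := rfl

/-- a product which is a group element has group elements as factors -/
theorem isG_of_mul {x y : Tri D b} {w : G} (h : x * y = g w) :
    (∃ a, x = g a) ∧ ∃ a, y = g a := by
  have h' : mul x y = g w := h
  cases b <;> cases x <;> cases y <;> simp [mul] at h' ⊢

theorem isUnit_iff (x : Tri D b) : IsUnit x ↔ ∃ a, x = g a := by
  constructor
  · intro h
    obtain ⟨y, hy⟩ := h.exists_right_inv
    exact (isG_of_mul (w := 1) hy).1
  · rintro ⟨a, rfl⟩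
    exact ⟨⟨g a, g a⁻¹, by simp [one_def], by simp [one_def]⟩, rfl⟩

/-- the group of units is isomorphic to `G` -/
noncomputable def unitsEquiv (D : TriData G) (b : Bool) : G ≃* (Tri D b)ˣ :=
  MulEquiv.ofBijective ((gHom D b).toHomUnits) (by
    constructor
    · intro x y h
      have := congrArg Units.val h
      simpa [gHom] using this
    · intro v
      obtain ⟨a, ha⟩ := (isUnit_iff (v : Tri D b)).mp v.isUnit
      exact ⟨a, Units.ext ha.symm⟩)

theorem unitsEquiv_val (x : G) : ((unitsEquiv D b x : (Tri D b)ˣ) : Tri D b) = g x := rfl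

/-- the `J`-class of `1` is the group of units -/
theorem isUnit_of_J {x : Tri D b} (h : ∀ w : Tri D b, ∃ r s, w = r * x * s) : IsUnit x := by
  obtain ⟨r, s, h⟩ := h 1
  have h1 := (isG_of_mul (w := 1) h.symm).1
  obtain ⟨a, ha⟩ := h1
  exact (isUnit_iff x).mpr (isG_of_mul ha).2

end Tri

/-! ### Correction of near actions of finite groups -/

theorem exists_correction {X H : Type*} [Group H] (f : H → X → X) (h1 : ∀ x, f 1 x = x) :
    ∃ ρ : H →* Equiv.Perm X, ∀ x, (∀ h k, f h (f k x) = f (h * k) x) → ∀ h, ρ h x = f h x := by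
  classical
  let E : Set X := {x | ∀ h k, f h (f k x) = f (h * k) x}
  have hE : ∀ x ∈ E, ∀ l, f l x ∈ E := by
    intro x hx l h k
    rw [hx k l, hx h (k * l), hx (h * k) l, mul_assoc]
  let F : H → X → X := fun h x => if x ∈ E then f h x else x
  have hF1 : ∀ x, F 1 x = x := by
    intro x
    by_cases hx : x ∈ E
    · simp only [F, if_pos hx, h1]
    · simp only [F, if_neg hx]
  have hFm : ∀ h k x, F h (F k x) = F (h * k) x := by
    intro h k x
    by_cases hx : x ∈ E
    · simp only [F, if_pos hx, if_pos (hE x hx k)]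
      exact hx h k
    · simp only [F, if_neg hx]
  let ρ : H →* Equiv.Perm X :=
    { toFun := fun h => ⟨F h, F h⁻¹, fun x => by rw [hFm, inv_mul_cancel, hF1],
        fun x => by rw [hFm, mul_inv_cancel, hF1]⟩
      map_one' := Equiv.ext hF1
      map_mul' := fun h k => Equiv.ext fun x => (hFm h k x).symm }
  refine ⟨ρ, fun x hx h => ?_⟩
  change F h x = f h x
  simp only [F]
  exact if_pos hx

/-! ### One exceptional set -/

theorem exists_bad {M : Type*} [Monoid M] (hS : IsSofic M) (K : Finset M) {δ : ℝ} (hδ : 0 < δ) :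
    ∃ (X : Type) (_ : Fintype X) (_ : DecidableEq X) (_ : Nonempty X) (act : M → X → X)
      (bad : Finset X), (∀ x, act 1 x = x) ∧ (bad.card : ℝ) ≤ δ * Fintype.card X ∧
      (∀ x ∉ bad, ∀ s ∈ K, ∀ t ∈ K, act s (act t x) = act (s * t) x) ∧
      (∀ x ∉ bad, ∀ s ∈ K, ∀ t ∈ K, act s x = act t x → s = t) := by
  classical
  set c : ℕ := K.card with hc
  have hcn : (0 : ℝ) ≤ c := Nat.cast_nonneg c
  set ε : ℝ := δ / (2 * (c ^ 2 + 1)) with hε
  have hεpos : 0 < ε := by positivity
  obtain ⟨X, hXf, hXn, act, hact1, hactm, hactn⟩ := hS K ε hεpos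
  have : Fintype X := Fintype.ofFinite X
  refine ⟨X, this, inferInstance, hXn, act, (K ×ˢ K).biUnion fun st =>
    (Finset.univ.filter fun x => ¬ act st.1 (act st.2 x) = act (st.1 * st.2) x) ∪
    (Finset.univ.filter fun x => ¬ (act st.1 x = act st.2 x → st.1 = st.2)), hact1, ?_, ?_, ?_⟩
  · have hX0 : (0 : ℝ) ≤ Fintype.card X := Nat.cast_nonneg _
    have hB1 : ∀ st ∈ K ×ˢ K, ((Finset.univ.filter fun x =>
        ¬ act st.1 (act st.2 x) = act (st.1 * st.2) x).card : ℝ) ≤ ε * Fintype.card X := by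
      intro st hst
      rw [Finset.mem_product] at hst
      have h1 := hactm st.1 hst.1 st.2 hst.2
      rw [Set.ncard_eq_toFinset_card', Nat.card_eq_fintype_card] at h1
      have h2 := Finset.card_filter_add_card_filter_not (s := (Finset.univ : Finset X))
        (fun x => act st.1 (act st.2 x) = act (st.1 * st.2) x)
      rw [Finset.card_univ] at h2
      have h3 : (Set.toFinset {x | act st.1 (act st.2 x) = act (st.1 * st.2) x}) =
          Finset.univ.filter fun x => act st.1 (act st.2 x) = act (st.1 * st.2) x := by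
        ext x
        rw [Set.mem_toFinset, Finset.mem_filter]
        exact ⟨fun h => ⟨Finset.mem_univ _, h⟩, fun h => h.2⟩
      rw [h3] at h1
      have h4 : ((Finset.univ.filter fun x => act st.1 (act st.2 x) =
          act (st.1 * st.2) x).card : ℝ) + ((Finset.univ.filter fun x =>
            ¬ act st.1 (act st.2 x) = act (st.1 * st.2) x).card : ℝ) = Fintype.card X := by
        exact_mod_cast h2
      linarith
    have hB2 : ∀ st ∈ K ×ˢ K, ((Finset.univ.filter fun x =>
        ¬ (act st.1 x = act st.2 x → st.1 = st.2)).card : ℝ) ≤ ε * Fintype.card X := by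
      intro st hst
      rw [Finset.mem_product] at hst
      by_cases hne : st.1 = st.2
      · have : (Finset.univ.filter fun x => ¬ (act st.1 x = act st.2 x → st.1 = st.2)) = ∅ := by
          rw [Finset.filter_eq_empty_iff]
          intro x _ h
          exact h fun _ => hne
        rw [this, Finset.card_empty, Nat.cast_zero]
        positivity
      · have h1 := hactn st.1 hst.1 st.2 hst.2 hne
        rw [Set.ncard_eq_toFinset_card', Nat.card_eq_fintype_card] at h1
        have h2 := Finset.card_filter_add_card_filter_not (s := (Finset.univ : Finset X))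
          (fun x => ¬ act st.1 x = act st.2 x)
        rw [Finset.card_univ] at h2
        have h3 : (Set.toFinset {x | act st.1 x ≠ act st.2 x}) =
            Finset.univ.filter fun x => ¬ act st.1 x = act st.2 x := by
          ext x
          rw [Set.mem_toFinset, Finset.mem_filter]
          exact ⟨fun h => ⟨Finset.mem_univ _, h⟩, fun h => h.2⟩
        have h5 : (Finset.univ.filter fun x => ¬ (act st.1 x = act st.2 x → st.1 = st.2)) =
            Finset.univ.filter fun x => ¬ ¬ act st.1 x = act st.2 x := by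
          apply Finset.filter_congr
          intro x _
          constructor
          · intro h h'
            exact h fun h'' => absurd h'' h'
          · intro h h'
            exact h fun h'' => hne (h' h'')
        rw [h3] at h1
        rw [h5]
        have h4 : ((Finset.univ.filter fun x => ¬ act st.1 x = act st.2 x).card : ℝ) +
            ((Finset.univ.filter fun x => ¬ ¬ act st.1 x = act st.2 x).card : ℝ) =
            Fintype.card X := by
          exact_mod_cast h2
        linarith
    have h1 := Finset.card_biUnion_le (s := K ×ˢ K) (t := fun st =>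
      (Finset.univ.filter fun x => ¬ act st.1 (act st.2 x) = act (st.1 * st.2) x) ∪
      (Finset.univ.filter fun x => ¬ (act st.1 x = act st.2 x → st.1 = st.2)))
    have h2 : (((K ×ˢ K).biUnion fun st =>
      (Finset.univ.filter fun x => ¬ act st.1 (act st.2 x) = act (st.1 * st.2) x) ∪
      (Finset.univ.filter fun x => ¬ (act st.1 x = act st.2 x → st.1 = st.2))).card : ℝ) ≤
        ∑ st ∈ K ×ˢ K, (((Finset.univ.filter fun x =>
          ¬ act st.1 (act st.2 x) = act (st.1 * st.2) x) ∪
          (Finset.univ.filter fun x => ¬ (act st.1 x = act st.2 x → st.1 = st.2))).card : ℝ) := by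
      exact_mod_cast h1
    refine h2.trans ?_
    calc _ ≤ ∑ _st ∈ K ×ˢ K, (2 * ε * Fintype.card X) := by
          apply Finset.sum_le_sum
          intro st hst
          have e1 := hB1 st hst
          have e2 := hB2 st hst
          have e3 : (((Finset.univ.filter fun x =>
              ¬ act st.1 (act st.2 x) = act (st.1 * st.2) x) ∪
              (Finset.univ.filter fun x => ¬ (act st.1 x = act st.2 x → st.1 = st.2))).card : ℝ) ≤
              (Finset.univ.filter fun x => ¬ act st.1 (act st.2 x) = act (st.1 * st.2) x).card +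
              (Finset.univ.filter fun x =>
                ¬ (act st.1 x = act st.2 x → st.1 = st.2)).card := by
            exact_mod_cast Finset.card_union_le _ _
          linarith
      _ = (2 * (c ^ 2) * ε) * Fintype.card X := by
        rw [Finset.sum_const, Finset.card_product, nsmul_eq_mul]
        push_cast
        ring
      _ ≤ δ * Fintype.card X := by
        apply mul_le_mul_of_nonneg_right _ hX0
        rw [hε, mul_div_assoc', div_le_iff₀ (by positivity)]
        nlinarith
  · intro x hx s hs t ht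
    by_contra h
    apply hx
    rw [Finset.mem_biUnion]
    exact ⟨(s, t), Finset.mem_product.mpr ⟨hs, ht⟩, Finset.mem_union_left _
      (Finset.mem_filter.mpr ⟨Finset.mem_univ _, h⟩)⟩
  · intro x hx s hs t ht h
    by_contra hne
    apply hx
    rw [Finset.mem_biUnion]
    exact ⟨(s, t), Finset.mem_product.mpr ⟨hs, ht⟩, Finset.mem_union_right _
      (Finset.mem_filter.mpr ⟨Finset.mem_univ _, fun h' => hne (h' h)⟩)⟩

/-! ### The non-soficity theorem -/

section main

variable (D : TriData G) {q : ℕ} [NeZero q] (a v : G) (κ : Multiplicative (ZMod q) →* G)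
  (p : Fin 2 → D.P)

/-- the coset of `1` -/
def t1 : Tri D true := Tri.t ((1 : G) : G ⧸ D.N)

/-- the finite set of elements used in the proof -/
def Kset : Set (Tri D true) :=
  Set.range (fun h : Subgroup.zpowers a => (Tri.g (h : G) : Tri D true)) ∪
  (Set.range (fun h : Subgroup.zpowers v => (Tri.g (h : G) : Tri D true)) ∪
  (Set.range (fun j => (Tri.g (κ j) : Tri D true)) ∪
  (Set.range (fun i => (Tri.g ((p i : D.P) : G) : Tri D true)) ∪
  (Set.range (fun i => (Tri.u (p i) : Tri D true)) ∪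
  (Set.range (fun i => t1 D * Tri.g ((p i : D.P) : G)) ∪
  (Set.range (fun j => t1 D * Tri.g (κ j)) ∪ {t1 D}))))))

variable {D a v κ p}

open Tri in
theorem not_sofic_aux (ha : a * a = 1) (hv : v * v * v = 1)
    (hp0 : (p 0 : G) = a * v) (hp1 : (p 1 : G) = a * v⁻¹) (hκN : ∀ j, κ j ∈ D.N → j = 1)
    (hκp : ∀ i j, ((p i : D.P) : G) * κ j * ((p i : D.P) : G)⁻¹ ∈ D.N)
    {X : Type} [Fintype X] [DecidableEq X] (act : Tri D true → X → X) (bad0 : Finset X)
    (hact1 : ∀ x, act 1 x = x)
    (hgood : ∀ x ∉ bad0, ∀ s ∈ Kset D a v κ p, ∀ t ∈ Kset D a v κ p,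
      act s (act t x) = act (s * t) x)
    (hgood' : ∀ x ∉ bad0, ∀ s ∈ Kset D a v κ p, ∀ t ∈ Kset D a v κ p,
      act s x = act t x → s = t) :
    q * Fintype.card X ≤ 12 * Fintype.card X + 144 * q ^ 3 * bad0.card := by
  classical
  have ka : ∀ h : Subgroup.zpowers a, g (h : G) ∈ Kset D a v κ p := fun h => Or.inl ⟨h, rfl⟩
  have kv : ∀ h : Subgroup.zpowers v, g (h : G) ∈ Kset D a v κ p :=
    fun h => Or.inr (Or.inl ⟨h, rfl⟩)
  have kκ : ∀ j, g (κ j) ∈ Kset D a v κ p := fun j => Or.inr (Or.inr (Or.inl ⟨j, rfl⟩))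
  have kp : ∀ i, g ((p i : D.P) : G) ∈ Kset D a v κ p :=
    fun j => Or.inr (Or.inr (Or.inr (Or.inl ⟨j, rfl⟩)))
  have ku : ∀ i, u (p i) ∈ Kset D a v κ p :=
    fun j => Or.inr (Or.inr (Or.inr (Or.inr (Or.inl ⟨j, rfl⟩))))
  have ktp : ∀ i, t1 D * g ((p i : D.P) : G) ∈ Kset D a v κ p :=
    fun j => Or.inr (Or.inr (Or.inr (Or.inr (Or.inr (Or.inl ⟨j, rfl⟩)))))
  have ktκ : ∀ j, t1 D * g (κ j) ∈ Kset D a v κ p :=
    fun j => Or.inr (Or.inr (Or.inr (Or.inr (Or.inr (Or.inr (Or.inl ⟨j, rfl⟩))))))
  have kt : t1 D ∈ Kset D a v κ p :=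
    Or.inr (Or.inr (Or.inr (Or.inr (Or.inr (Or.inr (Or.inr rfl))))))
  -- the exact actions
  obtain ⟨ρa, hρa⟩ := exists_correction (fun (h : Subgroup.zpowers a) x => act (g (h : G)) x)
    (fun x => hact1 x)
  obtain ⟨ρv, hρv⟩ := exists_correction (fun (h : Subgroup.zpowers v) x => act (g (h : G)) x)
    (fun x => hact1 x)
  obtain ⟨ρκ, hρκ⟩ := exists_correction (fun (j : Multiplicative (ZMod q)) x => act (g (κ j)) x)
    (fun x => by rw [map_one]; exact hact1 x)
  have ea : ∀ x ∉ bad0, ∀ h, ρa h x = act (g (h : G)) x := by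
    intro x hx h
    exact hρa x (fun h k => hgood x hx _ (ka h) _ (ka k)) h
  have ev : ∀ x ∉ bad0, ∀ h, ρv h x = act (g (h : G)) x := by
    intro x hx h
    exact hρv x (fun h k => hgood x hx _ (kv h) _ (kv k)) h
  have eκ : ∀ x ∉ bad0, ∀ j, ρκ j x = act (g (κ j)) x := by
    intro x hx h
    refine hρκ x (fun h k => ?_) h
    rw [map_mul]
    exact hgood x hx _ (kκ h) _ (kκ k)
  obtain ⟨A, hAdef⟩ : ∃ A : Equiv.Perm X, A = ρa ⟨a, Subgroup.mem_zpowers a⟩ := ⟨_, rfl⟩
  obtain ⟨V, hVdef⟩ : ∃ V : Equiv.Perm X, V = ρv ⟨v, Subgroup.mem_zpowers v⟩ := ⟨_, rfl⟩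
  have hA : A * A = 1 := by
    rw [hAdef, ← map_mul, ← map_one ρa]
    congr 1
    exact Subtype.ext ha
  have hV : V * V * V = 1 := by
    rw [hVdef, ← map_mul, ← map_mul, ← map_one ρv]
    congr 1
    exact Subtype.ext hv
  have hAx : ∀ x ∉ bad0, A x = act (g a) x := by
    intro x hx
    rw [hAdef, ea x hx]
  have hVx : ∀ x ∉ bad0, V x = act (g v) x := by
    intro x hx
    rw [hVdef, ev x hx]
  have hVinv : ∀ x ∉ bad0, V⁻¹ x = act (g v⁻¹) x := by
    intro x hx
    have h1 : V⁻¹ = ρv (⟨v, Subgroup.mem_zpowers v⟩)⁻¹ := by rw [hVdef, map_inv]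
    rw [h1, ev x hx]
    rfl
  have kga : g a ∈ Kset D a v κ p := ka ⟨a, Subgroup.mem_zpowers a⟩
  have kgv : g v ∈ Kset D a v κ p := kv ⟨v, Subgroup.mem_zpowers v⟩
  have kgv' : g v⁻¹ ∈ Kset D a v κ p := kv (⟨v, Subgroup.mem_zpowers v⟩)⁻¹
  obtain ⟨pp, hpp0, hpp1⟩ : ∃ pp : Fin 2 → Equiv.Perm X, pp 0 = A * V ∧ pp 1 = A * V⁻¹ :=
    ⟨![A * V, A * V⁻¹], rfl, rfl⟩
  -- the value of `τ (p i x)` at good points
  have hτ : ∀ x, x ∉ bad0 → V x ∉ bad0 → V⁻¹ x ∉ bad0 → ∀ i,
      act (t1 D) (pp i x) = act (t1 D * g ((p i : D.P) : G)) x := by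
    intro x h1 h2 h3 i
    rw [← hgood x h1 _ kt _ (kp i)]
    congr 1
    fin_cases i
    · change (pp 0) x = act (g ((p 0 : D.P) : G)) x
      rw [hpp0, hp0, ← g_mul_g, ← hgood x h1 _ kga _ kgv, ← hVx x h1, ← hAx _ h2]
      rfl
    · change (pp 1) x = act (g ((p 1 : D.P) : G)) x
      rw [hpp1, hp1, ← g_mul_g, ← hgood x h1 _ kga _ kgv', ← hVinv x h1, ← hAx _ h3]
      rfl
  have hut : ∀ i, (u (p i) : Tri D true) * t1 D = t1 D * g ((p i : D.P) : G) := by
    intro i
    unfold t1
    rw [u_mul_t_true, t_mul_g, lmul_mk, MulAction.Quotient.smul_coe, smul_eq_mul, one_mul, mul_one]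
  have htκ : ∀ i j, t1 D * g ((p i : D.P) : G) * g (κ j) = t1 D * g ((p i : D.P) : G) := by
    intro i j
    unfold t1
    rw [t_mul_g, t_mul_g, MulAction.Quotient.smul_coe, MulAction.Quotient.smul_coe, smul_eq_mul,
      smul_eq_mul, mul_one]
    congr 1
    rw [QuotientGroup.eq]
    have := hκp i j
    convert this using 1
    group
  have htκ' : ∀ j k, t1 D * g (κ j) = t1 D * g (κ k) → j = k := by
    intro j k h
    unfold t1 at h
    rw [t_mul_g, t_mul_g, MulAction.Quotient.smul_coe, MulAction.Quotient.smul_coe, smul_eq_mul,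
      smul_eq_mul, mul_one, mul_one] at h
    have h1 := Tri.t.inj h
    rw [QuotientGroup.eq, inv_inv, ← map_inv, ← map_mul] at h1
    exact mul_inv_eq_one.mp (hκN _ h1)
  -- the bad set for the core inequality
  obtain ⟨nok, hnokdef⟩ : ∃ nok : Finset X, nok = bad0 ∪
    ((Finset.univ.filter fun x => V x ∈ bad0) ∪ (Finset.univ.filter fun x => V⁻¹ x ∈ bad0)) :=
    ⟨_, rfl⟩
  have hnok : nok.card ≤ 3 * bad0.card := by
    rw [hnokdef]
    have h1 := Finset.card_union_le bad0 ((Finset.univ.filter fun x => V x ∈ bad0) ∪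
      (Finset.univ.filter fun x => V⁻¹ x ∈ bad0))
    have h2 := Finset.card_union_le (Finset.univ.filter fun x => V x ∈ bad0)
      (Finset.univ.filter fun x => V⁻¹ x ∈ bad0)
    rw [card_preimage_perm, card_preimage_perm] at h2
    omega
  have hok : ∀ x ∉ nok, x ∉ bad0 ∧ V x ∉ bad0 ∧ V⁻¹ x ∉ bad0 := by
    intro x hx
    rw [hnokdef, Finset.mem_union, Finset.mem_union, Finset.mem_filter, Finset.mem_filter] at hx
    push Not at hx
    exact ⟨hx.1, hx.2.1 (Finset.mem_univ _), hx.2.2 (Finset.mem_univ _)⟩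
  obtain ⟨κ', hκ'⟩ : ∃ κ' : ZMod q → Equiv.Perm X, ∀ j, κ' j = ρκ (Multiplicative.ofAdd j) :=
    ⟨_, fun _ => rfl⟩
  obtain ⟨bad, hbaddef⟩ : ∃ bad : Finset X, bad = Finset.univ.filter fun x => ∃ j, κ' j x ∈ nok :=
    ⟨_, rfl⟩
  have hbad : bad.card ≤ q * (3 * bad0.card) := by
    have e1 : bad ⊆ Finset.univ.biUnion fun j : ZMod q => Finset.univ.filter fun x =>
        κ' j x ∈ nok := by
      intro x hx
      rw [hbaddef, Finset.mem_filter] at hx
      obtain ⟨-, j, hj⟩ := hx
      exact Finset.mem_biUnion.mpr ⟨j, Finset.mem_univ _, Finset.mem_filter.mpr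
        ⟨Finset.mem_univ _, hj⟩⟩
    calc bad.card ≤ ∑ j : ZMod q, (Finset.univ.filter fun x => κ' j x ∈ nok).card :=
          (Finset.card_le_card e1).trans Finset.card_biUnion_le
      _ = ∑ _j : ZMod q, nok.card := by
          apply Finset.sum_congr rfl
          intro j _
          exact card_preimage_perm _ _
      _ = q * nok.card := by rw [Finset.sum_const, Finset.card_univ, ZMod.card, smul_eq_mul]
      _ ≤ q * (3 * bad0.card) := Nat.mul_le_mul_left _ hnok
  have hκ'0 : κ' 0 = 1 := by rw [hκ']; exact map_one ρκ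
  have hokκ : ∀ x ∉ bad, ∀ j, κ' j x ∉ nok := by
    intro x hx j h
    apply hx
    rw [hbaddef]
    exact Finset.mem_filter.mpr ⟨Finset.mem_univ _, j, h⟩
  have hokx : ∀ x ∉ bad, x ∉ nok := by
    intro x hx
    have := hokκ x hx 0
    rwa [hκ'0] at this
  have hκx : ∀ x ∉ bad0, ∀ j, κ' j x = act (g (κ (Multiplicative.ofAdd j))) x := by
    intro x hx j
    rw [hκ', eκ x hx]
  have hcore := core (q := q) (act (t1 D)) (fun i => act (u (p i))) A V κ' hA hV hκ'0
    (fun i j => by rw [hκ', hκ', hκ', ofAdd_add, map_mul]) bad pp hpp0 hpp1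
    (by
      intro x hx i
      obtain ⟨h1, h2, h3⟩ := hok x (hokx x hx)
      rw [hτ x h1 h2 h3 i, ← hut i]
      exact (hgood x h1 _ (ku i) _ kt).symm)
    (by
      intro x hx i j
      obtain ⟨h1, h2, h3⟩ := hok x (hokx x hx)
      obtain ⟨h4, h5, h6⟩ := hok _ (hokκ x hx j)
      rw [hτ x h1 h2 h3 i, hτ _ h4 h5 h6 i, hκx x h1, hgood x h1 _ (ktp i) _ (kκ _), htκ])
    (by
      intro x hx j k h
      obtain ⟨h1, h2, h3⟩ := hok x (hokx x hx)
      rw [hκx x h1, hκx x h1, hgood x h1 _ kt _ (kκ _), hgood x h1 _ kt _ (kκ _)] at h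
      exact htκ' _ _ (hgood' x h1 _ (ktκ _) _ (ktκ _) h))
  refine hcore.trans (Nat.add_le_add_left ?_ _)
  calc 48 * q ^ 2 * bad.card ≤ 48 * q ^ 2 * (q * (3 * bad0.card)) := Nat.mul_le_mul_left _ hbad
    _ = 144 * q ^ 3 * bad0.card := by ring

/-- **The non-soficity theorem.** -/
theorem not_sofic (hq : 13 ≤ q) (ha : a * a = 1) (hv : v * v * v = 1)
    (hp0 : (p 0 : G) = a * v) (hp1 : (p 1 : G) = a * v⁻¹) (hκN : ∀ j, κ j ∈ D.N → j = 1)
    (hκp : ∀ i j, ((p i : D.P) : G) * κ j * ((p i : D.P) : G)⁻¹ ∈ D.N) :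
    ¬ IsSofic (Tri D true) := by
  classical
  intro hS
  have hfa : Finite (Subgroup.zpowers a) :=
    (isOfFinOrder_iff_pow_eq_one.mpr ⟨2, by norm_num, by rw [pow_two, ha]⟩).finite_zpowers
  have hfv : Finite (Subgroup.zpowers v) :=
    (isOfFinOrder_iff_pow_eq_one.mpr
      ⟨3, by norm_num, by rw [pow_succ, pow_two, hv]⟩).finite_zpowers
  have : Finite (Multiplicative (ZMod q)) := inferInstanceAs (Finite (ZMod q))
  have hKfin : (Kset D a v κ p).Finite := by
    refine (Set.finite_range _).union ((Set.finite_range _).union ((Set.finite_range _).union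
      ((Set.finite_range _).union ((Set.finite_range _).union ((Set.finite_range _).union
      ((Set.finite_range _).union (Set.finite_singleton _)))))))
  have hqpos : (0 : ℝ) < q := by
    have : 0 < q := by omega
    exact_mod_cast this
  obtain ⟨X, _, _, hXn, act, bad0, h1, h2, h3, h4⟩ := exists_bad hS hKfin.toFinset
    (δ := 1 / (1000 * q ^ 3)) (by positivity)
  have h5 := not_sofic_aux ha hv hp0 hp1 hκN hκp act bad0 h1
    (fun x hx s hs t ht => h3 x hx s ((Set.Finite.mem_toFinset _).mpr hs) t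
      ((Set.Finite.mem_toFinset _).mpr ht))
    (fun x hx s hs t ht => h4 x hx s ((Set.Finite.mem_toFinset _).mpr hs) t
      ((Set.Finite.mem_toFinset _).mpr ht))
  have hn : 0 < Fintype.card X := Fintype.card_pos
  have h6 : 13 * Fintype.card X ≤ q * Fintype.card X := Nat.mul_le_mul_right _ hq
  have h7 : Fintype.card X ≤ 144 * q ^ 3 * bad0.card := by omega
  have h8 : (Fintype.card X : ℝ) ≤ 144 * q ^ 3 * bad0.card := by exact_mod_cast h7
  have h9 : (144 * q ^ 3 * bad0.card : ℝ) ≤
      144 * q ^ 3 * (1 / (1000 * q ^ 3) * Fintype.card X) :=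
    mul_le_mul_of_nonneg_left h2 (by positivity)
  have h10 : (144 * q ^ 3 * (1 / (1000 * q ^ 3) * Fintype.card X) : ℝ) =
      144 / 1000 * Fintype.card X := by
    field_simp
  have h11 : (0 : ℝ) < Fintype.card X := by exact_mod_cast hn
  linarith

end main

end Pool.Agent.Q94.Sofic
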