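import Mathlib
import Pool.Agent.Q94.SoficTri

/-! Residually finite groups are sofic; the null monoid `G ⊔ P ⊔ N\G ⊔ {0}` is sofic when `G` is
residually finite and `N` is locally finite; the lamplighter group over `GL₂(ℤ)` acting on `ℤ²`. -/

namespace Pool.Agent.Q94.Sofic

/-- every finite subset is mapped injectively to some finite group -/
def ResFin (G : Type*) [Group G] : Prop :=
  ∀ S : Finset G, ∃ (Q : Type) (_ : Group Q) (_ : Finite Q) (φ : G →* Q), Set.InjOn φ S

theorem ResFin.isSofic {G : Type*} [Group G] (h : ResFin G) : IsSofic G := by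
  intro K ε hε
  obtain ⟨Q, _, _, φ, hφ⟩ := h K
  have hle : (1 - ε) * (Nat.card Q : ℝ) ≤ ((Set.univ : Set Q).ncard : ℝ) := by
    rw [Set.ncard_univ]
    have : (0 : ℝ) ≤ Nat.card Q := Nat.cast_nonneg _
    nlinarith
  refine ⟨Q, inferInstance, ⟨1⟩, fun m x => φ m * x, fun x => by simp, ?_, ?_⟩
  · intro s _ t _
    have : {x | φ s * (φ t * x) = φ (s * t) * x} = Set.univ := by
      ext x; simp [mul_assoc]
    rw [this]
    exact hle
  · intro s hs t ht hst
    have : {x | φ s * x ≠ φ t * x} = Set.univ := by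
      ext x
      simp only [ne_eq, mul_left_inj, Set.mem_setOf_eq, Set.mem_univ, iff_true]
      exact fun h => hst (hφ hs ht h)
    rw [this]
    exact hle

theorem IsSofic.of_injective {M N : Type*} [Monoid M] [Monoid N] (h : IsSofic N) (φ : M →* N)
    (hφ : Function.Injective φ) : IsSofic M := by
  classical
  intro K ε hε
  obtain ⟨X, h1, h2, act, h3, h4, h5⟩ := h (K.image φ) ε hε
  refine ⟨X, h1, h2, fun m x => act (φ m) x, fun x => by
    change act (φ 1) x = x
    rw [map_one]; exact h3 x, ?_, ?_⟩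
  · intro s hs t ht
    have := h4 (φ s) (Finset.mem_image_of_mem _ hs) (φ t) (Finset.mem_image_of_mem _ ht)
    rw [← map_mul] at this
    exact this
  · intro s hs t ht hst
    exact h5 (φ s) (Finset.mem_image_of_mem _ hs) (φ t) (Finset.mem_image_of_mem _ ht)
      (fun h => hst (hφ h))

/-! ### The null monoid -/

open Tri in
theorem null_sofic {G : Type} [Group G] (D : TriData G) (hG : ResFin G)
    (hN : ∀ S : Set G, S.Finite → S ⊆ D.N → ∃ N' : Subgroup G, S ⊆ N' ∧ (N' : Set G).Finite ∧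
      N' ≤ D.N) : IsSofic (Tri D false) := by
  classical
  intro K ε hε
  -- the relevant elements
  let KG : Set G := {k | (g k : Tri D false) ∈ K}
  let KC : Set (G ⧸ D.N) := {c | (t c : Tri D false) ∈ K}
  have hKG : KG.Finite := Set.Finite.preimage (f := (g : G → Tri D false))
    (fun _ _ _ _ h => Tri.g.inj h) K.finite_toSet
  have hKC : KC.Finite := Set.Finite.preimage (f := (t : G ⧸ D.N → Tri D false))
    (fun _ _ _ _ h => Tri.t.inj h) K.finite_toSet
  let r : G ⧸ D.N → G := fun c => c.out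
  have hr : ∀ c, ((r c : G) : G ⧸ D.N) = c := fun c => QuotientGroup.out_eq' c
  -- the error elements
  let e : (G ⧸ D.N) × G → G := fun x => (r (x.2⁻¹ • x.1))⁻¹ * x.2⁻¹ * r x.1
  have he : ∀ x, e x ∈ D.N := by
    rintro ⟨c, k⟩
    have h1 : ((r (k⁻¹ • c) : G) : G ⧸ D.N) = ((k⁻¹ * r c : G) : G ⧸ D.N) := by
      rw [hr]
      conv_lhs => rw [← hr c]
      rfl
    rw [QuotientGroup.eq] at h1
    simpa [e, mul_assoc] using h1
  obtain ⟨N', hN1, hN2, hN3⟩ := hN (e '' (KC ×ˢ KG)) ((hKC.prod hKG).image _)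
    (by rintro _ ⟨x, -, rfl⟩; exact he x)
  let S' : Set G := KG ∪ ((N' : Set G) ∪ (fun x : (G ⧸ D.N) × (G ⧸ D.N) =>
    (r x.1)⁻¹ * r x.2) '' (KC ×ˢ KC))
  have hS' : S'.Finite := hKG.union (hN2.union ((hKC.prod hKC).image _))
  obtain ⟨Q, _, _, φ, hφ⟩ := hG hS'.toFinset
  rw [Set.Finite.coe_toFinset] at hφ
  -- the finite set
  let K' := {m : Tri D false // m ∈ K}
  let Y := Set Q ⊕ Option K'
  obtain ⟨L, hL⟩ := exists_nat_ge ((Nat.card Y : ℝ) / ε)
  let cls : Q → Set Q := fun x => {y | ∃ n ∈ N', y = φ n * x}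
  have hcls : ∀ n ∈ N', ∀ x, cls (φ n * x) = cls x := by
    intro n hn x
    ext y
    constructor
    · rintro ⟨n', hn', rfl⟩
      exact ⟨n' * n, mul_mem hn' hn, by rw [map_mul, mul_assoc]⟩
    · rintro ⟨n', hn', rfl⟩
      exact ⟨n' * n⁻¹, mul_mem hn' (inv_mem hn), by rw [map_mul, map_inv]; group⟩
  let idx : D.P → Option K' := fun p => if h : (u p : Tri D false) ∈ K then some ⟨u p, h⟩ else none
  let act : Tri D false → ((Q × Fin (L + 1)) ⊕ Y) → ((Q × Fin (L + 1)) ⊕ Y) := fun m x =>
    match m, x with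
    | g k, Sum.inl x => Sum.inl (φ k * x.1, x.2)
    | g _, Sum.inr y => Sum.inr y
    | u p, Sum.inl _ => Sum.inr (Sum.inr (idx p))
    | u _, Sum.inr _ => Sum.inr (Sum.inl ∅)
    | t c, Sum.inl x => Sum.inr (Sum.inl (cls ((φ (r c))⁻¹ * x.1)))
    | t _, Sum.inr _ => Sum.inr (Sum.inl ∅)
    | z, _ => Sum.inr (Sum.inl ∅)
  have hsub : ∀ A : Set ((Q × Fin (L + 1)) ⊕ Y), (∀ x, Sum.inl x ∈ A) →
      (1 - ε) * (Nat.card ((Q × Fin (L + 1)) ⊕ Y) : ℝ) ≤ (A.ncard : ℝ) := by
    intro A hA
    have h1 : (Set.range (Sum.inl : Q × Fin (L + 1) → (Q × Fin (L + 1)) ⊕ Y)).ncard ≤ A.ncard :=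
      Set.ncard_le_ncard (by rintro _ ⟨x, rfl⟩; exact hA x) (Set.toFinite _)
    have h2 : (Set.range (Sum.inl : Q × Fin (L + 1) → (Q × Fin (L + 1)) ⊕ Y)).ncard =
        Nat.card (Q × Fin (L + 1)) := by
      rw [← Set.image_univ, Set.ncard_image_of_injective _ Sum.inl_injective, Set.ncard_univ]
    rw [h2] at h1
    have h3 : (Nat.card ((Q × Fin (L + 1)) ⊕ Y) : ℝ) =
        Nat.card (Q × Fin (L + 1)) + Nat.card Y := by
      rw [Nat.card_sum]; push_cast; ring
    have h4 : (Nat.card (Q × Fin (L + 1)) : ℝ) ≤ A.ncard := by exact_mod_cast h1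
    have h5 : (L : ℝ) ≤ Nat.card (Q × Fin (L + 1)) := by
      rw [Nat.card_prod, Nat.card_fin]
      have : 1 ≤ Nat.card Q := Nat.card_pos
      have : L ≤ Nat.card Q * (L + 1) := by nlinarith
      exact_mod_cast this
    have h6 : (Nat.card Y : ℝ) ≤ ε * L := by
      rw [div_le_iff₀ hε] at hL
      linarith
    have h7 : ε * (L : ℝ) ≤ ε * Nat.card (Q × Fin (L + 1)) :=
      mul_le_mul_of_nonneg_left h5 hε.le
    have h8 : (0 : ℝ) ≤ Nat.card Y := Nat.cast_nonneg _
    rw [h3]
    nlinarith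
  have hne : ∀ x, cls x ≠ ∅ := fun x h => by
    have : x ∈ cls x := ⟨1, one_mem _, by simp⟩
    rw [h] at this
    exact this
  refine ⟨(Q × Fin (L + 1)) ⊕ Y, inferInstance, ⟨Sum.inl (1, 0)⟩, act, ?_, ?_, ?_⟩
  · rintro (x | y)
    · change Sum.inl (φ 1 * x.1, x.2) = _
      rw [map_one, one_mul]
    · rfl
  · intro s hs t' ht
    apply hsub
    intro x
    change act s (act t' (Sum.inl x)) = act (s * t') (Sum.inl x)
    cases s with
    | g k =>
      cases t' with
      | g k' =>
        change Sum.inl (φ k * (φ k' * x.1), x.2) = Sum.inl (φ (k * k') * x.1, x.2)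
        rw [map_mul, mul_assoc]
      | u p => rfl
      | t c => rfl
      | z => rfl
    | u p =>
      cases t' <;> rfl
    | t c =>
      cases t' with
      | g k =>
        change Sum.inr (Sum.inl (cls ((φ (r c))⁻¹ * (φ k * x.1)))) =
          Sum.inr (Sum.inl (cls ((φ (r (k⁻¹ • c)))⁻¹ * x.1)))
        have h1 : e (c, k) ∈ N' := hN1 ⟨(c, k), ⟨hs, ht⟩, rfl⟩
        rw [← hcls _ h1]
        congr 3
        simp only [e, map_mul, map_inv]
        group
      | u p => rfl
      | t c => rfl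
      | z => rfl
    | z => rfl
  · intro s hs t' ht hst
    apply hsub
    intro x
    change act s (Sum.inl x) ≠ act t' (Sum.inl x)
    cases s with
    | g k =>
      cases t' with
      | g k' =>
        intro h
        have h1 : (φ k * x.1, x.2) = (φ k' * x.1, x.2) := Sum.inl_injective h
        have h2 := (Prod.mk.injEq _ _ _ _ ▸ h1).1
        have h3 : φ k = φ k' := mul_right_cancel h2
        exact hst (congrArg g (hφ (Or.inl hs) (Or.inl ht) h3))
      | u p => exact Sum.inl_ne_inr
      | t c => exact Sum.inl_ne_inr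
      | z => exact Sum.inl_ne_inr
    | u p =>
      cases t' with
      | g k' => exact Sum.inr_ne_inl
      | u p' =>
        intro h
        have h1 : idx p = idx p' := Sum.inr_injective (Sum.inr_injective h)
        simp only [idx] at h1
        rw [dif_pos hs, dif_pos ht] at h1
        exact hst (congrArg Subtype.val (Option.some_injective _ h1))
      | t c => exact fun h => Sum.inr_ne_inl (Sum.inr_injective h)
      | z => exact fun h => Sum.inr_ne_inl (Sum.inr_injective h)
    | t c =>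
      cases t' with
      | g k' => exact Sum.inr_ne_inl
      | u p' => exact fun h => Sum.inl_ne_inr (Sum.inr_injective h)
      | t c' =>
        intro h
        have h1 : cls ((φ (r c))⁻¹ * x.1) = cls ((φ (r c'))⁻¹ * x.1) :=
          Sum.inl_injective (Sum.inr_injective h)
        have h2 : (φ (r c))⁻¹ * x.1 ∈ cls ((φ (r c'))⁻¹ * x.1) := by
          rw [← h1]
          exact ⟨1, one_mem _, by simp⟩
        obtain ⟨n, hn, h3⟩ := h2
        have h4 : φ ((r c)⁻¹ * r c') = φ n := by
          rw [map_mul, map_inv]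
          rw [← mul_assoc] at h3
          have h5 := mul_right_cancel h3
          rw [h5]
          group
        have h5 := hφ (Or.inr (Or.inr ⟨(c, c'), ⟨hs, ht⟩, rfl⟩)) (Or.inr (Or.inl hn)) h4
        apply hst
        congr 1
        rw [← hr c, ← hr c', QuotientGroup.eq]
        have h6 : (r c)⁻¹ * r c' ∈ D.N := by
          rw [show (r c)⁻¹ * r c' = n from h5]
          exact hN3 hn
        exact h6
      | z => exact fun h => hne _ (Sum.inl_injective (Sum.inr_injective h))
    | z =>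
      cases t' with
      | g k' => exact Sum.inr_ne_inl
      | u p' => exact fun h => Sum.inl_ne_inr (Sum.inr_injective h)
      | t c' => exact fun h => hne _ (Sum.inl_injective (Sum.inr_injective h)).symm
      | z => exact absurd rfl hst

/-! ### Vectors and the lamplighter group -/

/-- vectors of length two -/
@[ext] structure Vec (R : Type) : Type where
  x : R
  y : R
deriving DecidableEq

/-- identification with pairs -/
def Vec.equiv (R : Type) : Vec R ≃ R × R := ⟨fun w => (w.x, w.y), fun w => ⟨w.1, w.2⟩,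
  fun _ => rfl, fun _ => rfl⟩

instance {R : Type} [Finite R] : Finite (Vec R) := Finite.of_equiv _ (Vec.equiv R).symm

/-- invertible two by two matrices -/
abbrev GL2 (R : Type) [CommRing R] : Type := (Matrix (Fin 2) (Fin 2) R)ˣ

instance {R : Type} [CommRing R] [Finite R] : Finite (GL2 R) :=
  Finite.of_injective (fun A : GL2 R => (A : Matrix (Fin 2) (Fin 2) R)) Units.val_injective

/-- the action of matrices on vectors -/
def mv {R : Type} [CommRing R] (A : Matrix (Fin 2) (Fin 2) R) (w : Vec R) : Vec R :=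
  ⟨A 0 0 * w.x + A 0 1 * w.y, A 1 0 * w.x + A 1 1 * w.y⟩

theorem mv_one {R : Type} [CommRing R] (w : Vec R) : mv 1 w = w := by
  ext <;> simp [mv]

theorem mv_mul {R : Type} [CommRing R] (A B : Matrix (Fin 2) (Fin 2) R) (w : Vec R) :
    mv (A * B) w = mv A (mv B w) := by
  ext
  · simp only [mv, Matrix.mul_apply, Fin.sum_univ_two]; ring
  · simp only [mv, Matrix.mul_apply, Fin.sum_univ_two]; ring

theorem mv_inj {R : Type} [CommRing R] (A : GL2 R) : Function.Injective (mv (A : Matrix _ _ R)) := by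
  intro w w' h
  have := congrArg (mv ((A⁻¹ : GL2 R) : Matrix _ _ R)) h
  rwa [← mv_mul, ← mv_mul, Units.inv_mul, mv_one, mv_one] at this

/-- The lamplighter group: finitely supported functions on the vectors with values in `ℤ/13`,
extended by `GL₂(R)`. -/
@[ext] structure Lamp (R : Type) [CommRing R] : Type where
  f : Vec R →₀ ZMod 13
  m : GL2 R

namespace Lamp

noncomputable section

variable {R : Type} [CommRing R]

/-- the action on the functions -/
def sh (A : GL2 R) (f : Vec R →₀ ZMod 13) : Vec R →₀ ZMod 13 := f.mapDomain (mv A.val)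

theorem sh_add (A : GL2 R) (f f' : Vec R →₀ ZMod 13) : sh A (f + f') = sh A f + sh A f' :=
  Finsupp.mapDomain_add

theorem sh_zero (A : GL2 R) : sh A 0 = 0 := Finsupp.mapDomain_zero

theorem sh_one (f : Vec R →₀ ZMod 13) : sh 1 f = f := by
  unfold sh
  have : mv ((1 : GL2 R).val) = id := funext mv_one
  rw [this, Finsupp.mapDomain_id]

theorem sh_mul (A B : GL2 R) (f : Vec R →₀ ZMod 13) : sh (A * B) f = sh A (sh B f) := by
  unfold sh
  rw [← Finsupp.mapDomain_comp]
  congr 1
  exact funext fun w => mv_mul _ _ w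

theorem sh_neg (A : GL2 R) (f : Vec R →₀ ZMod 13) : sh A (-f) = -sh A f := by
  have h := sh_add A f (-f)
  rw [add_neg_cancel, sh_zero] at h
  exact (neg_eq_of_add_eq_zero_right h.symm).symm

instance : Mul (Lamp R) := ⟨fun a b => ⟨a.f + sh a.m b.f, a.m * b.m⟩⟩
instance : One (Lamp R) := ⟨⟨0, 1⟩⟩
instance : Inv (Lamp R) := ⟨fun a => ⟨-sh a.m⁻¹ a.f, a.m⁻¹⟩⟩

@[simp] theorem mul_f (a b : Lamp R) : (a * b).f = a.f + sh a.m b.f := rfl
@[simp] theorem mul_m (a b : Lamp R) : (a * b).m = a.m * b.m := rfl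
@[simp] theorem one_f : (1 : Lamp R).f = 0 := rfl
@[simp] theorem one_m : (1 : Lamp R).m = 1 := rfl
@[simp] theorem inv_f (a : Lamp R) : (a⁻¹).f = -sh a.m⁻¹ a.f := rfl
@[simp] theorem inv_m (a : Lamp R) : (a⁻¹).m = a.m⁻¹ := rfl

instance : Group (Lamp R) where
  mul_assoc a b c := by
    apply Lamp.ext
    · simp only [mul_f, mul_m, sh_add, sh_mul, add_assoc]
    · simp only [mul_m, mul_assoc]
  one_mul a := by
    apply Lamp.ext
    · simp only [mul_f, one_f, one_m, sh_one, zero_add]
    · simp only [mul_m, one_m, one_mul]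
  mul_one a := by
    apply Lamp.ext
    · simp only [mul_f, one_f, sh_zero, add_zero]
    · simp only [mul_m, one_m, mul_one]
  inv_mul_cancel a := by
    apply Lamp.ext
    · simp only [mul_f, inv_f, inv_m, one_f, neg_add_cancel]
    · simp only [mul_m, inv_m, one_m, inv_mul_cancel]

instance [Finite R] : Finite (Vec R →₀ ZMod 13) :=
  Finite.of_injective (fun f : Vec R →₀ ZMod 13 => (f : Vec R → ZMod 13)) DFunLike.coe_injective

instance [Finite R] : Finite (Lamp R) :=
  Finite.of_injective (fun a : Lamp R => (a.f, a.m)) (fun a b h => by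
    simp only [Prod.mk.injEq] at h
    exact Lamp.ext h.1 h.2)

/-- entrywise reduction -/
def redV {R' : Type} [CommRing R'] (φ : R →+* R') (w : Vec R) : Vec R' := ⟨φ w.x, φ w.y⟩

/-- entrywise reduction of invertible matrices -/
def redM {R' : Type} [CommRing R'] (φ : R →+* R') : GL2 R →* GL2 R' :=
  Units.map (RingHom.mapMatrix φ : Matrix (Fin 2) (Fin 2) R →+* Matrix (Fin 2) (Fin 2) R').toMonoidHom

theorem redM_apply {R' : Type} [CommRing R'] (φ : R →+* R') (A : GL2 R) (i j : Fin 2) :
    (redM φ A).val i j = φ (A.val i j) := rfl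

theorem redV_mv {R' : Type} [CommRing R'] (φ : R →+* R') (A : GL2 R) (w : Vec R) :
    redV φ (mv A.val w) = mv (redM φ A).val (redV φ w) := by
  ext
  · simp [redV, mv, redM_apply]
  · simp [redV, mv, redM_apply]

/-- the reduction homomorphism -/
def red {R' : Type} [CommRing R'] (φ : R →+* R') : Lamp R →* Lamp R' where
  toFun a := ⟨a.f.mapDomain (redV φ), redM φ a.m⟩
  map_one' := by
    apply Lamp.ext
    · simp only [one_f, Finsupp.mapDomain_zero]
    · simp only [one_m, map_one]
  map_mul' a b := by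
    apply Lamp.ext
    · simp only [mul_f, Finsupp.mapDomain_add, sh]
      rw [← Finsupp.mapDomain_comp, ← Finsupp.mapDomain_comp]
      congr 2
      exact funext fun w => redV_mv φ _ w
    · simp only [mul_m, map_mul]

theorem red_f {R' : Type} [CommRing R'] (φ : R →+* R') (a : Lamp R) :
    (red φ a).f = a.f.mapDomain (redV φ) := rfl
theorem red_m {R' : Type} [CommRing R'] (φ : R →+* R') (a : Lamp R) :
    (red φ a).m = redM φ a.m := rfl

/-- `|z| ≤ B` -/
def bdd (B : ℕ) (z : ℤ) : Prop := |z| ≤ B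

theorem eq_of_bdd {B : ℕ} {z z' : ℤ} (hz : bdd B z) (hz' : bdd B z')
    (h : (Int.castRingHom (ZMod (2 * B + 1))) z = (Int.castRingHom (ZMod (2 * B + 1))) z') :
    z = z' := by
  have h1 : ((z : ℤ) : ZMod (2 * B + 1)) = ((z' : ℤ) : ZMod (2 * B + 1)) := h
  rw [ZMod.intCast_eq_intCast_iff_dvd_sub] at h1
  unfold bdd at hz hz'
  rw [abs_le] at hz hz'
  have h2 : z' - z = 0 := by
    apply Int.eq_zero_of_abs_lt_dvd h1
    rw [abs_lt]
    push_cast
    constructor <;> omega
  omega

theorem resFin : ResFin (Lamp ℤ) := by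
  classical
  intro S
  obtain ⟨B, hB⟩ : ∃ B : ℕ, ∀ a ∈ S, (∀ i j, bdd B (a.m.val i j)) ∧
      ∀ w ∈ a.f.support, bdd B w.x ∧ bdd B w.y := by
    let F : Lamp ℤ → ℕ := fun a => (∑ i, ∑ j, (a.m.val i j).natAbs) +
      ∑ w ∈ a.f.support, (w.x.natAbs + w.y.natAbs)
    refine ⟨∑ a ∈ S, F a, fun a ha => ⟨fun i j => ?_, fun w hw => ?_⟩⟩
    · have h1 : F a ≤ ∑ a ∈ S, F a := Finset.single_le_sum (f := F) (fun _ _ => Nat.zero_le _) ha
      have h2 : (a.m.val i j).natAbs ≤ ∑ j, (a.m.val i j).natAbs :=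
        Finset.single_le_sum (f := fun j => (a.m.val i j).natAbs) (fun _ _ => Nat.zero_le _)
          (Finset.mem_univ j)
      have h3 : ∑ j, (a.m.val i j).natAbs ≤ ∑ i, ∑ j, (a.m.val i j).natAbs :=
        Finset.single_le_sum (f := fun i => ∑ j, (a.m.val i j).natAbs)
          (fun _ _ => Nat.zero_le _) (Finset.mem_univ i)
      have h4 : (a.m.val i j).natAbs ≤ ∑ a ∈ S, F a := by
        simp only [F] at h1 ⊢
        omega
      unfold bdd
      rw [Int.abs_eq_natAbs]
      exact_mod_cast h4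
    · have h1 : F a ≤ ∑ a ∈ S, F a := Finset.single_le_sum (f := F) (fun _ _ => Nat.zero_le _) ha
      have h2 : (w.x.natAbs + w.y.natAbs) ≤ ∑ w ∈ a.f.support, (w.x.natAbs + w.y.natAbs) :=
        Finset.single_le_sum (f := fun w : Vec ℤ => (w.x.natAbs + w.y.natAbs))
          (fun _ _ => Nat.zero_le _) hw
      have h4 : (w.x.natAbs + w.y.natAbs) ≤ ∑ a ∈ S, F a := by
        simp only [F] at h1 ⊢
        omega
      unfold bdd
      rw [Int.abs_eq_natAbs, Int.abs_eq_natAbs]
      constructor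
      · have : w.x.natAbs ≤ ∑ a ∈ S, F a := by omega
        exact_mod_cast this
      · have : w.y.natAbs ≤ ∑ a ∈ S, F a := by omega
        exact_mod_cast this
  refine ⟨Lamp (ZMod (2 * B + 1)), inferInstance, inferInstance,
    red (Int.castRingHom (ZMod (2 * B + 1))), ?_⟩
  intro a ha b hb hab
  obtain ⟨ha1, ha2⟩ := hB a ha
  obtain ⟨hb1, hb2⟩ := hB b hb
  have h1 := congrArg Lamp.f hab
  have h2 := congrArg Lamp.m hab
  rw [red_f, red_f] at h1
  rw [red_m, red_m] at h2
  apply Lamp.ext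
  · have hinj : Set.InjOn (redV (Int.castRingHom (ZMod (2 * B + 1))))
        {w : Vec ℤ | bdd B w.x ∧ bdd B w.y} := by
      intro w hw w' hw' h
      exact Vec.ext (eq_of_bdd hw.1 hw'.1 (congrArg Vec.x h)) (eq_of_bdd hw.2 hw'.2
        (congrArg Vec.y h))
    exact Finsupp.mapDomain_injOn _ hinj (fun w hw => ha2 w hw) (fun w hw => hb2 w hw) h1
  · apply Units.ext
    ext i j
    apply eq_of_bdd (ha1 i j) (hb1 i j)
    have := congrArg (fun A : GL2 (ZMod (2 * B + 1)) => A.val i j) h2
    simpa only [redM_apply] using this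

end

end Lamp

end Pool.Agent.Q94.Sofic
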