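import Mathlib
import Pool.Agent.Q94.SoficLamp

/-! The concrete non-sofic monoid. -/

namespace Pool.Agent.Q94.Sofic

open Lamp

noncomputable section

/-- nonzero vectors whose two coordinates do not have opposite signs -/
def pos (w : Vec ℤ) : Prop := 0 ≤ w.x * w.y ∧ (w.x ≠ 0 ∨ w.y ≠ 0)

/-- the subgroup of the functions supported on the positive vectors -/
def subN : Subgroup (Lamp ℤ) where
  carrier := {a | a.m = 1 ∧ ∀ w ∈ a.f.support, pos w}
  mul_mem' := by
    rintro a b ⟨ha1, ha2⟩ ⟨hb1, hb2⟩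
    refine ⟨by rw [mul_m, ha1, hb1, one_mul], fun w hw => ?_⟩
    rw [mul_f, ha1, sh_one] at hw
    rcases Finset.mem_union.mp (Finsupp.support_add hw) with h | h
    · exact ha2 w h
    · exact hb2 w h
  one_mem' := ⟨rfl, fun w hw => by simp at hw⟩
  inv_mem' := by
    rintro a ⟨ha1, ha2⟩
    refine ⟨by rw [inv_m, ha1, inv_one], fun w hw => ?_⟩
    rw [inv_f, ha1, inv_one, sh_one, Finsupp.support_neg] at hw
    exact ha2 w hw

theorem mem_subN {a : Lamp ℤ} : a ∈ subN ↔ a.m = 1 ∧ ∀ w ∈ a.f.support, pos w := Iff.rfl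

/-- the submonoid of the matrices preserving the positive vectors -/
def subP : Submonoid (Lamp ℤ) where
  carrier := {a | a.f = 0 ∧ ∀ w, pos w → pos (mv a.m.val w)}
  mul_mem' := by
    rintro a b ⟨ha1, ha2⟩ ⟨hb1, hb2⟩
    refine ⟨by rw [mul_f, ha1, hb1, sh_zero, add_zero], fun w hw => ?_⟩
    rw [mul_m, Units.val_mul, mv_mul]
    exact ha2 _ (hb2 _ hw)
  one_mem' := ⟨rfl, fun w hw => by
    have : mv ((1 : Lamp ℤ).m.val) w = w := mv_one w
    rw [this]; exact hw⟩

theorem support_sh (A : GL2 ℤ) (f : Vec ℤ →₀ ZMod 13) {w : Vec ℤ} (hw : w ∈ (sh A f).support) :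
    ∃ w' ∈ f.support, w = mv A.val w' := by
  classical
  have h := Finsupp.mapDomain_support hw
  obtain ⟨w', h1, h2⟩ := Finset.mem_image.mp h
  exact ⟨w', h1, h2.symm⟩

theorem mem_support_sh (A : GL2 ℤ) (f : Vec ℤ →₀ ZMod 13) {w : Vec ℤ} (hw : w ∈ f.support) :
    mv A.val w ∈ (sh A f).support := by
  rw [Finsupp.mem_support_iff] at hw ⊢
  unfold sh
  rw [Finsupp.mapDomain_apply (mv_inj A)]
  exact hw

/-- the data -/
def dat : TriData (Lamp ℤ) where
  N := subN
  P := subP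
  conj := by
    rintro p ⟨hp1, hp2⟩ n ⟨hn1, hn2⟩
    refine ⟨by rw [mul_m, mul_m, inv_m, hn1, mul_one, mul_inv_cancel], fun w hw => ?_⟩
    have h1 : (p * n * p⁻¹).f = sh p.m n.f := by
      rw [mul_f, mul_f, inv_f, hp1, sh_zero, neg_zero, sh_zero, add_zero, zero_add]
    rw [h1] at hw
    obtain ⟨w', h2, rfl⟩ := support_sh _ _ hw
    exact hp2 _ (hn2 _ h2)

/-- the reflection -/
def mA : GL2 ℤ := ⟨!![1, 0; 0, -1], !![1, 0; 0, -1], by
  ext i j; fin_cases i <;> fin_cases j <;> simp, by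
  ext i j; fin_cases i <;> fin_cases j <;> simp⟩
/-- the rotation of order three -/
def mV : GL2 ℤ := ⟨!![0, 1; -1, -1], !![-1, -1; 1, 0], by
  ext i j; fin_cases i <;> fin_cases j <;> simp, by
  ext i j; fin_cases i <;> fin_cases j <;> simp⟩

/-- the reflection as an element of the group -/
def eA : Lamp ℤ := ⟨0, mA⟩
/-- the rotation as an element of the group -/
def eV : Lamp ℤ := ⟨0, mV⟩

theorem eA_sq : eA * eA = 1 := by
  apply Lamp.ext
  · simp [eA, sh_zero]
  · apply Units.ext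
    ext i j
    fin_cases i <;> fin_cases j <;> simp [eA, mA]

theorem eV_cube : eV * eV * eV = 1 := by
  apply Lamp.ext
  · simp [eV, sh_zero]
  · apply Units.ext
    ext i j
    fin_cases i <;> fin_cases j <;> simp [eV, mV]

theorem mv_AV (w : Vec ℤ) : mv (mA * mV).val w = ⟨w.y, w.x + w.y⟩ := by
  rw [Units.val_mul, mv_mul]
  ext
  · simp [mv, mA, mV]
  · simp [mv, mA, mV]; ring

theorem mv_AV' (w : Vec ℤ) : mv (mA * mV⁻¹).val w = ⟨-w.x - w.y, -w.x⟩ := by
  rw [Units.val_mul, mv_mul]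
  have : (mV⁻¹).val = !![-1, -1; 1, 0] := rfl
  rw [this]
  ext
  · simp [mv, mA]; ring
  · simp [mv, mA]

theorem p0_mem : eA * eV ∈ dat.P := by
  refine ⟨by simp [eA, eV, sh_zero], fun w hw => ?_⟩
  have : mv (eA * eV).m.val w = ⟨w.y, w.x + w.y⟩ := mv_AV w
  rw [this]
  obtain ⟨h1, h2⟩ := hw
  constructor
  · change 0 ≤ w.y * (w.x + w.y)
    nlinarith [sq_nonneg w.y]
  · change w.y ≠ 0 ∨ w.x + w.y ≠ 0
    by_cases h : w.y = 0
    · right
      rw [h, add_zero]
      rcases h2 with h2 | h2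
      · exact h2
      · exact absurd h h2
    · exact Or.inl h

theorem p1_mem : eA * eV⁻¹ ∈ dat.P := by
  refine ⟨by simp [eA, eV, sh_zero], fun w hw => ?_⟩
  have : mv (eA * eV⁻¹).m.val w = ⟨-w.x - w.y, -w.x⟩ := mv_AV' w
  rw [this]
  obtain ⟨h1, h2⟩ := hw
  constructor
  · change 0 ≤ (-w.x - w.y) * (-w.x)
    nlinarith [sq_nonneg w.x]
  · change -w.x - w.y ≠ 0 ∨ -w.x ≠ 0
    by_cases h : w.x = 0
    · left
      rcases h2 with h2 | h2
      · exact absurd h h2
      · rw [h]; simpa using h2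
    · exact Or.inr (neg_ne_zero.mpr h)

/-- the lamp at `(-1, 1)` -/
def kap : Multiplicative (ZMod 13) →* Lamp ℤ where
  toFun j := ⟨Finsupp.single ⟨-1, 1⟩ j.toAdd, 1⟩
  map_one' := by
    apply Lamp.ext
    · simp
    · rfl
  map_mul' i j := by
    apply Lamp.ext
    · rw [mul_f, sh_one, toAdd_mul, Finsupp.single_add]
    · simp

theorem kap_f (j : Multiplicative (ZMod 13)) :
    (kap j).f = Finsupp.single ⟨-1, 1⟩ j.toAdd := rfl
theorem kap_m (j : Multiplicative (ZMod 13)) : (kap j).m = 1 := rfl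

theorem kap_mem (j : Multiplicative (ZMod 13)) (h : kap j ∈ dat.N) : j = 1 := by
  by_contra hj
  have hj' : j.toAdd ≠ 0 := fun h' => hj (by rw [← ofAdd_toAdd j, h']; rfl)
  have h1 : (⟨-1, 1⟩ : Vec ℤ) ∈ (kap j).f.support := by
    rw [kap_f, Finsupp.mem_support_iff, Finsupp.single_eq_same]
    exact hj'
  have h2 := (mem_subN.mp h).2 _ h1
  have h3 := h2.1
  norm_num at h3

theorem conj_kap (A : GL2 ℤ) (j : Multiplicative (ZMod 13)) :
    ((⟨0, A⟩ : Lamp ℤ) * kap j * (⟨0, A⟩ : Lamp ℤ)⁻¹) =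
      ⟨Finsupp.single (mv A.val ⟨-1, 1⟩) j.toAdd, 1⟩ := by
  apply Lamp.ext
  · rw [mul_f, mul_f, kap_f, inv_f]
    simp only [sh_zero, neg_zero, zero_add, add_zero]
    unfold sh
    rw [Finsupp.mapDomain_single]
  · rw [mul_m, mul_m, kap_m, inv_m, mul_one, mul_inv_cancel]

theorem conj_kap_mem (A : GL2 ℤ) (hA : pos (mv A.val ⟨-1, 1⟩)) (j : Multiplicative (ZMod 13)) :
    ((⟨0, A⟩ : Lamp ℤ) * kap j * (⟨0, A⟩ : Lamp ℤ)⁻¹) ∈ dat.N := by
  rw [conj_kap]
  refine ⟨rfl, fun w hw => ?_⟩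
  have h := Finsupp.support_single_subset hw
  rw [Finset.mem_singleton] at h
  rw [h]
  exact hA

/-- the two elements of `P` -/
def pp : Fin 2 → dat.P := ![⟨eA * eV, p0_mem⟩, ⟨eA * eV⁻¹, p1_mem⟩]

theorem eAV : eA * eV = ⟨0, mA * mV⟩ := by
  apply Lamp.ext
  · simp [eA, eV, sh_zero]
  · rfl

theorem eAV' : eA * eV⁻¹ = ⟨0, mA * mV⁻¹⟩ := by
  apply Lamp.ext
  · simp [eA, eV, sh_zero]
  · rfl

/-- **The monoid `Tri dat true` is not sofic.** -/
theorem tri_not_sofic : ¬ IsSofic (Tri dat true) := by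
  refine not_sofic (D := dat) (q := 13) (a := eA) (v := eV) (κ := kap) (p := pp) le_rfl eA_sq
    eV_cube rfl rfl kap_mem ?_
  intro i j
  fin_cases i
  · change (eA * eV) * kap j * (eA * eV)⁻¹ ∈ dat.N
    rw [eAV]
    apply conj_kap_mem
    rw [mv_AV]
    constructor <;> norm_num
  · change (eA * eV⁻¹) * kap j * (eA * eV⁻¹)⁻¹ ∈ dat.N
    rw [eAV']
    apply conj_kap_mem
    rw [mv_AV']
    constructor <;> norm_num

/-- `N` is locally finite -/
theorem locFin (S : Set (Lamp ℤ)) (hS : S.Finite) (hSN : S ⊆ dat.N) :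
    ∃ N' : Subgroup (Lamp ℤ), S ⊆ N' ∧ (N' : Set (Lamp ℤ)).Finite ∧ N' ≤ dat.N := by
  classical
  let T : Finset (Vec ℤ) := (hS.toFinset.biUnion fun a => a.f.support)
  let N' : Subgroup (Lamp ℤ) :=
    { carrier := {a | a.m = 1 ∧ a.f.support ⊆ T ∧ ∀ w ∈ a.f.support, pos w}
      mul_mem' := by
        rintro a b ⟨ha1, ha2, ha3⟩ ⟨hb1, hb2, hb3⟩
        have hsub : (a * b).f.support ⊆ a.f.support ∪ b.f.support := by
          rw [mul_f, ha1, sh_one]
          exact Finsupp.support_add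
        refine ⟨by rw [mul_m, ha1, hb1, one_mul], hsub.trans (Finset.union_subset ha2 hb2), ?_⟩
        intro w hw
        rcases Finset.mem_union.mp (hsub hw) with h | h
        · exact ha3 w h
        · exact hb3 w h
      one_mem' := ⟨rfl, by simp, by simp⟩
      inv_mem' := by
        rintro a ⟨ha1, ha2, ha3⟩
        have h : (a⁻¹).f.support = a.f.support := by
          rw [inv_f, ha1, inv_one, sh_one, Finsupp.support_neg]
        refine ⟨by rw [inv_m, ha1, inv_one], by rw [h]; exact ha2, by rw [h]; exact ha3⟩ }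
  refine ⟨N', ?_, ?_, ?_⟩
  · intro a ha
    refine ⟨(hSN ha).1, ?_, (hSN ha).2⟩
    intro w hw
    exact Finset.mem_biUnion.mpr ⟨a, (Set.Finite.mem_toFinset hS).mpr ha, hw⟩
  · have : Finite (T → ZMod 13) := inferInstance
    refine Set.Finite.of_finite_image (f := fun a => (fun w : T => a.f w : T → ZMod 13))
      (Set.toFinite _) ?_
    intro a ha b hb hab
    apply Lamp.ext
    · ext w
      by_cases hw : w ∈ T
      · have := congrFun hab ⟨w, hw⟩
        simp only at this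
        rw [this]
      · have h1 : a.f w = 0 := Finsupp.notMem_support_iff.mp fun h => hw (ha.2.1 h)
        have h2 : b.f w = 0 := Finsupp.notMem_support_iff.mp fun h => hw (hb.2.1 h)
        rw [h1, h2]
    · rw [ha.1, hb.1]
  · intro a ha
    exact ⟨ha.1, ha.2.2⟩

/-- **The null version is sofic.** -/
theorem null_is_sofic : IsSofic (Tri dat false) := null_sofic dat Lamp.resFin locFin

/-- the unit group is sofic -/
theorem lamp_sofic : IsSofic (Lamp ℤ) := Lamp.resFin.isSofic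

/-- `N` contains no nontrivial normal subgroup -/
theorem core_trivial (a : Lamp ℤ) (h : ∀ k : Lamp ℤ, k * a * k⁻¹ ∈ dat.N) : a = 1 := by
  have h1 : a ∈ dat.N := by simpa using h 1
  obtain ⟨h2, h3⟩ := mem_subN.mp h1
  have h4 : ∀ A : GL2 ℤ, ∀ w ∈ a.f.support, pos (mv A.val w) := by
    intro A w hw
    have h5 := (mem_subN.mp (h ⟨0, A⟩)).2 (mv A.val w)
    apply h5
    have h6 : ((⟨0, A⟩ : Lamp ℤ) * a * (⟨0, A⟩ : Lamp ℤ)⁻¹).f = sh A a.f := by
      rw [mul_f, mul_f, inv_f]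
      simp only [sh_zero, neg_zero, zero_add, add_zero]
    rw [h6]
    exact mem_support_sh A _ hw
  apply Lamp.ext
  · rw [one_f, ← Finsupp.support_eq_empty, Finset.eq_empty_iff_forall_notMem]
    intro w hw
    have hpos := h3 w hw
    let A1 : GL2 ℤ := ⟨!![1, 0; -1, 1], !![1, 0; 1, 1], by
      ext i j; fin_cases i <;> fin_cases j <;> simp, by
      ext i j; fin_cases i <;> fin_cases j <;> simp⟩
    let A2 : GL2 ℤ := ⟨!![1, -1; 0, 1], !![1, 1; 0, 1], by
      ext i j; fin_cases i <;> fin_cases j <;> simp, by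
      ext i j; fin_cases i <;> fin_cases j <;> simp⟩
    have e0 : mv mA.val w = ⟨w.x, -w.y⟩ := by ext <;> simp [mv, mA]
    have e1 : mv A1.val w = ⟨w.x, -w.x + w.y⟩ := by ext <;> simp [mv, A1]
    have e2 : mv A2.val w = ⟨w.x + -w.y, w.y⟩ := by ext <;> simp [mv, A2]
    have f0 := (h4 mA w hw).1
    have f1 := (h4 A1 w hw).1
    have f2 := (h4 A2 w hw).1
    rw [e0] at f0
    rw [e1] at f1
    rw [e2] at f2
    simp only at f0 f1 f2
    have g0 : w.x * w.y = 0 := by nlinarith [hpos.1]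
    rcases mul_eq_zero.mp g0 with g | g
    · rw [g] at f2
      have : w.y = 0 := by nlinarith [sq_nonneg w.y]
      rcases hpos.2 with h' | h'
      · exact h' g
      · exact h' this
    · rw [g] at f1
      have : w.x = 0 := by nlinarith [sq_nonneg w.x]
      rcases hpos.2 with h' | h'
      · exact h' this
      · exact h' g
  · exact h2

end

end Pool.Agent.Q94.Sofic
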