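import Mathlib

/-!
# A lower bound for the degree of a rank-two variant of a full transformation monoid

`V = (Fin n → Fin n)` with the product `x ⋆ y = x ∘ a ∘ y`, where `a` is an idempotent of rank two
whose two kernel classes have the same size `k`.
-/

namespace Pool.Agent.Q94.VarLower

open Finset

/-- The hypotheses of the lower bound. -/
structure Data {n : ℕ} {Ω : Type} (a : Fin n → Fin n) (a1 a2 : Fin n)
    (φ : (Fin n → Fin n) → Ω → Ω) : Prop where
  ne : a1 ≠ a2
  h1 : a a1 = a1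
  h2 : a a2 = a2
  h : ∀ j, a j = a1 ∨ a j = a2
  hom : ∀ x y ω, φ (x ∘ a ∘ y) ω = φ x (φ y ω)
  inj : Function.Injective φ

/-- constant map -/
def κ {n : ℕ} (p : Fin n) : Fin n → Fin n := fun _ => p

section

variable {n : ℕ} {Ω : Type} [Fintype Ω] [DecidableEq Ω]
  {a : Fin n → Fin n} {a1 a2 : Fin n} {φ : (Fin n → Fin n) → Ω → Ω}

open Classical in
/-- points in the image of some element of the semigroup -/
noncomputable def P (φ : (Fin n → Fin n) → Ω → Ω) : Finset Ω :=
  univ.filter (fun p => ∃ x ω, φ x ω = p)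

theorem mem_P (x : Fin n → Fin n) (ω : Ω) : φ x ω ∈ P φ := by
  simp only [P, mem_filter, mem_univ, true_and]
  exact ⟨x, ω, rfl⟩

theorem exists_of_mem_P {p : Ω} (h : p ∈ P φ) : ∃ x ω, φ x ω = p := by
  simpa [P] using h

theorem Data.const (D : Data a a1 a2 φ) (p : Fin n) (y : Fin n → Fin n) (ω : Ω) :
    φ (κ p) (φ y ω) = φ (κ p) ω := by
  rw [← D.hom]; rfl

theorem Data.app_const (D : Data a a1 a2 φ) (p : Fin n) (x : Fin n → Fin n) (ω : Ω) :
    φ x (φ (κ p) ω) = φ (κ (x (a p))) ω := by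
  rw [← D.hom]; rfl

theorem Data.idem (D : Data a a1 a2 φ) (j : Fin n) : a (a j) = a j := by
  rcases D.h j with h | h <;> rw [h]
  · exact D.h1
  · exact D.h2

theorem Data.a_app (D : Data a a1 a2 φ) (y : Fin n → Fin n) (ω : Ω) :
    φ a (φ y ω) = φ (a ∘ y) ω := by
  rw [← D.hom]
  congr 1
  funext j
  exact D.idem (y j)

/-- the counting principle -/
theorem card_le_prod (D : Data a a1 a2 φ) {ι : Type} [Fintype ι] (X : ι → Fin n → Fin n)
    (hX : Function.Injective X) (g : Fin n → Fin n) (hg : ∀ i, X i ∘ a = g) (R : Ω → Finset Ω)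
    (hR : ∀ i, ∀ ω, φ (X i) ω ∈ R ω) :
    Fintype.card ι ≤ ∏ ω ∈ (P φ)ᶜ, (R ω).card := by
  classical
  rw [← Finset.card_pi, ← Finset.card_univ]
  apply Finset.card_le_card_of_injOn (fun i => fun ω _ => φ (X i) ω)
  · intro i _
    simp only [Finset.mem_coe, Finset.mem_pi]
    intro ω _
    exact hR i ω
  · intro i _ i' _ hii
    apply hX
    apply D.inj
    funext ω
    by_cases hω : ω ∈ P φ
    · obtain ⟨y, ω', rfl⟩ := exists_of_mem_P hω
      rw [← D.hom, ← D.hom]
      have e1 : X i ∘ a ∘ y = X i' ∘ a ∘ y := by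
        rw [← Function.comp_assoc, ← Function.comp_assoc, hg i, hg i']
      rw [e1]
    · have := congrFun (congrFun hii ω) (by simpa using hω)
      exact this

/-- the class of a point -/
noncomputable def C (a : Fin n → Fin n) (φ : (Fin n → Fin n) → Ω → Ω) (q : Ω) : Finset Ω :=
  (P φ).filter (fun p => φ a p = q)

/-- the component of a point -/
noncomputable def Pc (a1 : Fin n) (φ : (Fin n → Fin n) → Ω → Ω) (l : Ω) : Finset Ω :=
  (P φ).filter (fun p => φ (κ a1) p = l)

/-- the remaining coordinates -/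
abbrev Rest (a1 a2 : Fin n) : Type := {j : Fin n // j ≠ a1 ∧ j ≠ a2}

theorem card_rest (h : a1 ≠ a2) : Fintype.card (Rest a1 a2) = n - 2 := by
  classical
  rw [Fintype.card_subtype]
  have : (univ.filter (fun j : Fin n => j ≠ a1 ∧ j ≠ a2)) = ({a1, a2} : Finset (Fin n))ᶜ := by
    ext j; simp
  rw [this, Finset.card_compl, Fintype.card_fin, Finset.card_pair h]

/-- fill in -/
def fill (a1 a2 : Fin n) (d : Fin n → Fin n) (f : Rest a1 a2 → Fin n) : Fin n → Fin n :=
  fun j => if h : j ≠ a1 ∧ j ≠ a2 then f ⟨j, h⟩ else d j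

theorem fill_inj (d : Fin n → Fin n) : Function.Injective (fill a1 a2 d) := by
  intro f g h
  funext j
  have := congrFun h j.1
  simpa [fill, j.2] using this

theorem twins (D : Data a a1 a2 φ) (i : Fin n) (hi : i = a1 ∨ i = a2) :
    (Fintype.card {j : Fin n // a j = i}) ^ (n - 2) ≤
      ∏ ω ∈ (P φ)ᶜ, (C a φ (φ (κ i) ω)).card := by
  classical
  rw [← card_rest D.ne, ← Fintype.card_fun]
  have hai : a i = i := by
    rcases hi with rfl | rfl
    · exact D.h1
    · exact D.h2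
  apply card_le_prod D (fun f : Rest a1 a2 → {j : Fin n // a j = i} =>
    fill a1 a2 (κ i) (fun j => (f j).1)) _ (κ i)
  · intro f
    funext j
    rcases D.h j with h | h <;> simp [fill, h, κ]
  · intro f ω
    simp only [C, mem_filter]
    refine ⟨mem_P _ _, ?_⟩
    rw [D.a_app]
    congr 1
    funext j
    simp only [Function.comp_apply, fill]
    split_ifs with h
    · exact (f ⟨j, h⟩).2
    · exact hai
  · intro f g h
    have := fill_inj _ h
    funext j
    exact Subtype.ext (congrFun this j)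

theorem total (D : Data a a1 a2 φ) :
    n ^ (n - 2) ≤ ∏ ω ∈ (P φ)ᶜ, (Pc a1 φ (φ (κ a1) ω)).card := by
  classical
  have h0 : n ^ (n - 2) = Fintype.card (Rest a1 a2 → Fin n) := by
    rw [Fintype.card_fun, card_rest D.ne, Fintype.card_fin]
  rw [h0]
  apply card_le_prod D (fun f : Rest a1 a2 → Fin n => fill a1 a2 id f) _ a
  · intro f
    funext j
    rcases D.h j with h | h <;> simp [fill, h]
  · intro f ω
    simp only [Pc, mem_filter]
    refine ⟨mem_P _ _, ?_⟩
    rw [D.const]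
  · exact fill_inj _

/-- the base points of the components -/
noncomputable def Q (a1 : Fin n) (φ : (Fin n → Fin n) → Ω → Ω) : Finset Ω :=
  univ.image (φ (κ a1))

/-- good components -/
noncomputable def Good (a1 a2 : Fin n) (φ : (Fin n → Fin n) → Ω → Ω) : Finset Ω :=
  (Q a1 φ).filter (fun l => φ (κ a2) l ≠ l)

/-- bad components -/
noncomputable def Bad (a1 a2 : Fin n) (φ : (Fin n → Fin n) → Ω → Ω) : Finset Ω :=
  (Q a1 φ).filter (fun l => φ (κ a2) l = l)

/-- on a bad component all constants act in the same way -/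
theorem bad_const (D : Data a a1 a2 φ) {l : Ω} (hl : l ∈ Bad a1 a2 φ) (p p' : Fin n) :
    φ (κ p) l = φ (κ p') l := by
  simp only [Bad, Q, mem_filter, mem_image, mem_univ, true_and] at hl
  obtain ⟨⟨ω, rfl⟩, h⟩ := hl
  rw [D.const] at h
  rw [D.const, D.const]
  classical
  have e1 : φ (κ p) ω = φ (Function.update (κ p') a1 p) (φ (κ a1) ω) := by
    rw [D.app_const, D.h1]; simp
  have e2 : φ (κ p') ω = φ (Function.update (κ p') a1 p) (φ (κ a2) ω) := by
    rw [D.app_const, D.h2, Function.update_of_ne D.ne.symm]; rfl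
  rw [e1, e2, h]

/-- constants are separated by good components -/
theorem constants (D : Data a a1 a2 φ) (i : Fin n) :
    Fintype.card {j : Fin n // a j = i} ≤
      ∏ l ∈ Good a1 a2 φ, (C a φ (φ (κ i) l)).card := by
  classical
  rw [← Finset.card_pi, ← Finset.card_univ]
  apply Finset.card_le_card_of_injOn (fun p => fun l _ => φ (κ p.1) l)
  · intro p _
    simp only [Finset.mem_coe, Finset.mem_pi, C, mem_filter]
    intro l _
    refine ⟨mem_P _ _, ?_⟩
    rw [D.a_app]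
    congr 1
    funext j
    exact p.2
  · intro p _ p' _ hpp
    by_contra hne
    have hne' : (κ p.1 : Fin n → Fin n) ≠ κ p'.1 := by
      intro h
      exact hne (Subtype.ext (congrFun h i))
    apply hne'
    apply D.inj
    funext ω
    rw [← D.const p.1 (κ a1) ω, ← D.const p'.1 (κ a1) ω]
    by_cases hg : φ (κ a2) (φ (κ a1) ω) = φ (κ a1) ω
    · apply bad_const D (a2 := a2)
      simp only [Bad, Q, mem_filter, mem_image, mem_univ, true_and]
      exact ⟨⟨ω, rfl⟩, hg⟩
    · have hm : φ (κ a1) ω ∈ Good a1 a2 φ := by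
        simp only [Good, Q, mem_filter, mem_image, mem_univ, true_and]
        exact ⟨⟨ω, rfl⟩, hg⟩
      exact congrFun (congrFun hpp (φ (κ a1) ω)) hm

theorem C_subset (D : Data a a1 a2 φ) {l : Ω} (hl : l ∈ Q a1 φ) (i : Fin n) :
    C a φ (φ (κ i) l) ⊆ Pc a1 φ l := by
  intro p hp
  simp only [C, Pc, mem_filter] at hp ⊢
  refine ⟨hp.1, ?_⟩
  simp only [Q, mem_image, mem_univ, true_and] at hl
  obtain ⟨ω, rfl⟩ := hl
  rw [← D.const a1 a p, hp.2, D.const, D.const]

theorem self (D : Data a a1 a2 φ) {l : Ω} (hl : l ∈ Q a1 φ) : φ (κ a1) l = l := by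
  simp only [Q, mem_image, mem_univ, true_and] at hl
  obtain ⟨ω, rfl⟩ := hl
  rw [D.const]

theorem good_le (D : Data a a1 a2 φ) {l : Ω} (hl : l ∈ Good a1 a2 φ) :
    (C a φ (φ (κ a1) l)).card + (C a φ (φ (κ a2) l)).card ≤ (Pc a1 φ l).card := by
  have hl' : l ∈ Q a1 φ := (mem_filter.1 hl).1
  have hne : φ (κ a2) l ≠ l := (mem_filter.1 hl).2
  rw [← Finset.card_union_of_disjoint]
  · apply Finset.card_le_card
    exact Finset.union_subset (C_subset D hl' a1) (C_subset D hl' a2)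
  · rw [Finset.disjoint_left]
    intro p hp hp'
    simp only [C, mem_filter] at hp hp'
    apply hne
    rw [← hp'.2, hp.2, self D hl']

theorem bad_le (D : Data a a1 a2 φ) {l : Ω} (hl : l ∈ Bad a1 a2 φ) (i : Fin n) :
    (C a φ (φ (κ i) l)).card ≤ (Pc a1 φ l).card :=
  Finset.card_le_card (C_subset D (mem_filter.1 hl).1 i)

theorem sum_Pc : ∑ l ∈ Q a1 φ, (Pc a1 φ l).card ≤ (P φ).card := by
  rw [← Finset.card_biUnion]
  · apply Finset.card_le_card
    intro p hp
    simp only [mem_biUnion, Pc, mem_filter] at hp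
    obtain ⟨_, _, h, _⟩ := hp
    exact h
  · intro l _ l' _ hne
    rw [Function.onFun, Finset.disjoint_left]
    intro p hp hp'
    simp only [Pc, mem_filter] at hp hp'
    exact hne (hp.2.symm.trans hp'.2)

theorem sum_split : ∑ l ∈ Good a1 a2 φ, (Pc a1 φ l).card + ∑ l ∈ Bad a1 a2 φ, (Pc a1 φ l).card
    ≤ (P φ).card := by
  refine le_trans (le_of_eq ?_) (sum_Pc (a1 := a1) (φ := φ))
  rw [add_comm]
  exact Finset.sum_filter_add_sum_filter_not (Q a1 φ) _ _

theorem mem_good_or_bad (ω : Ω) : φ (κ a1) ω ∈ Good a1 a2 φ ∨ φ (κ a1) ω ∈ Bad a1 a2 φ := by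
  by_cases hg : φ (κ a2) (φ (κ a1) ω) = φ (κ a1) ω
  · right
    simp only [Bad, Q, mem_filter, mem_image, mem_univ, true_and]
    exact ⟨⟨ω, rfl⟩, hg⟩
  · left
    simp only [Good, Q, mem_filter, mem_image, mem_univ, true_and]
    exact ⟨⟨ω, rfl⟩, hg⟩

/-- the main estimate -/
theorem lower (D : Data a a1 a2 φ) (hn : 2 < n) (k s : ℕ)
    (hk1 : Fintype.card {j : Fin n // a j = a1} = k)
    (hk2 : Fintype.card {j : Fin n // a j = a2} = k)
    (hs : ∀ (T : Finset Ω) (f : Ω → ℕ), k ≤ ∏ l ∈ T, f l → s ≤ ∑ l ∈ T, f l) :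
    (2 * s ≤ (P φ).card ∧ n ^ (n - 2) ≤ ((P φ).card - 2 * s) ^ ((P φ)ᶜ).card) ∨
      2 ^ ((P φ)ᶜ).card * k ^ (n - 2) ≤ (P φ).card ^ ((P φ)ᶜ).card := by
  classical
  set X := (Good a1 a2 φ).sup (fun l => (Pc a1 φ l).card) with hX
  set Y := (Bad a1 a2 φ).sup (fun l => (Pc a1 φ l).card) with hY
  have hXg : ∀ l ∈ Good a1 a2 φ, (Pc a1 φ l).card ≤ X := fun l hl =>
    Finset.le_sup (f := fun l => (Pc a1 φ l).card) hl
  have hYb : ∀ l ∈ Bad a1 a2 φ, (Pc a1 φ l).card ≤ Y := fun l hl =>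
    Finset.le_sup (f := fun l => (Pc a1 φ l).card) hl
  have hsum := sum_split (a1 := a1) (a2 := a2) (φ := φ)
  have hXs : X ≤ ∑ l ∈ Good a1 a2 φ, (Pc a1 φ l).card := by
    apply Finset.sup_le
    intro l hl
    exact Finset.single_le_sum (f := fun l => (Pc a1 φ l).card) (fun _ _ => Nat.zero_le _) hl
  have hYs : Y ≤ ∑ l ∈ Bad a1 a2 φ, (Pc a1 φ l).card := by
    apply Finset.sup_le
    intro l hl
    exact Finset.single_le_sum (f := fun l => (Pc a1 φ l).card) (fun _ _ => Nat.zero_le _) hl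
  have hgs : 2 * s ≤ ∑ l ∈ Good a1 a2 φ, (Pc a1 φ l).card := by
    have c1 := constants D a1
    have c2 := constants D a2
    rw [hk1] at c1
    rw [hk2] at c2
    have s1 := hs _ _ c1
    have s2 := hs _ _ c2
    have : ∑ l ∈ Good a1 a2 φ, ((C a φ (φ (κ a1) l)).card + (C a φ (φ (κ a2) l)).card) ≤
      ∑ l ∈ Good a1 a2 φ, (Pc a1 φ l).card := Finset.sum_le_sum (fun l hl => good_le D hl)
    rw [Finset.sum_add_distrib] at this
    omega
  have htot : n ^ (n - 2) ≤ (max X Y) ^ ((P φ)ᶜ).card := by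
    refine le_trans (total D) ?_
    rw [← Finset.prod_const]
    apply Finset.prod_le_prod' 
    intro ω _
    rcases mem_good_or_bad (a1 := a1) (a2 := a2) (φ := φ) ω with h | h
    · exact le_trans (hXg _ h) (le_max_left _ _)
    · exact le_trans (hYb _ h) (le_max_right _ _)
  have htw : 2 ^ ((P φ)ᶜ).card * k ^ (n - 2) ≤ (max X (2 * Y)) ^ ((P φ)ᶜ).card := by
    have t1 := twins D a1 (Or.inl rfl)
    have t2 := twins D a2 (Or.inr rfl)
    rw [hk1] at t1
    rw [hk2] at t2
    have t3 := Nat.mul_le_mul t1 t2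
    rw [← Finset.prod_mul_distrib] at t3
    have t4 : ∏ ω ∈ (P φ)ᶜ, 4 * ((C a φ (φ (κ a1) ω)).card * (C a φ (φ (κ a2) ω)).card) ≤
        ∏ ω ∈ (P φ)ᶜ, (max X (2 * Y)) ^ 2 := by
      apply Finset.prod_le_prod'
      intro ω _
      have r1 : φ (κ a1) (φ (κ a1) ω) = φ (κ a1) ω := D.const _ _ _
      have r2 : φ (κ a2) (φ (κ a1) ω) = φ (κ a2) ω := D.const _ _ _
      rcases mem_good_or_bad (a1 := a1) (a2 := a2) (φ := φ) ω with h | h
      · have g1 := good_le D h
        rw [r1, r2] at g1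
        have g2 := le_trans g1 (le_trans (hXg _ h) (le_max_left X (2 * Y)))
        set u := (C a φ (φ (κ a1) ω)).card
        set v := (C a φ (φ (κ a2) ω)).card
        set m := max X (2 * Y)
        have : 4 * (u * v) ≤ (u + v) ^ 2 := by
          zify
          nlinarith [sq_nonneg ((u : ℤ) - v)]
        exact le_trans this (Nat.pow_le_pow_left g2 2)
      · have g1 := bad_le D h a1
        have g2 := bad_le D h a2
        rw [r1] at g1
        rw [r2] at g2
        have g3 := le_trans g1 (hYb _ h)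
        have g4 := le_trans g2 (hYb _ h)
        have g5 : 2 * Y ≤ max X (2 * Y) := le_max_right _ _
        calc 4 * ((C a φ (φ (κ a1) ω)).card * (C a φ (φ (κ a2) ω)).card)
            ≤ 4 * (Y * Y) := Nat.mul_le_mul_left _ (Nat.mul_le_mul g3 g4)
          _ = (2 * Y) ^ 2 := by ring
          _ ≤ _ := Nat.pow_le_pow_left g5 2
    rw [Finset.prod_mul_distrib, Finset.prod_const, Finset.prod_const] at t4
    have t5 : (2 ^ ((P φ)ᶜ).card * k ^ (n - 2)) ^ 2 ≤ ((max X (2 * Y)) ^ ((P φ)ᶜ).card) ^ 2 := by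
      calc (2 ^ ((P φ)ᶜ).card * k ^ (n - 2)) ^ 2
          = 4 ^ ((P φ)ᶜ).card * (k ^ (n - 2) * k ^ (n - 2)) := by
            rw [mul_pow, ← pow_mul, mul_comm _ 2, pow_mul, sq (k ^ (n - 2))]; norm_num
        _ ≤ _ := Nat.mul_le_mul_left _ t3
        _ ≤ _ := t4
        _ = _ := by rw [← pow_mul, ← pow_mul, mul_comm 2 ((P φ)ᶜ).card]
    exact (Nat.pow_le_pow_iff_left (by norm_num)).1 t5
  by_cases hXY : X ≤ Y
  · left
    rw [max_eq_right hXY] at htot
    refine ⟨by omega, le_trans htot ?_⟩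
    apply Nat.pow_le_pow_left
    omega
  · right
    refine le_trans htw ?_
    apply Nat.pow_le_pow_left
    apply max_le <;> omega

end

theorem cube_le (m : ℕ) : m ^ 3 ≤ 3 ^ m := by
  rcases Nat.lt_or_ge m 3 with h | h
  · interval_cases m <;> norm_num
  · induction m, h using Nat.le_induction with
    | base => norm_num
    | succ m hm ih =>
      have : (m + 1) ^ 3 ≤ 3 * m ^ 3 := by nlinarith [sq_nonneg (m : ℤ), mul_self_nonneg (m : ℤ)]
      calc (m + 1) ^ 3 ≤ 3 * m ^ 3 := this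
        _ ≤ 3 * 3 ^ m := Nat.mul_le_mul_left _ ih
        _ = 3 ^ (m + 1) := by ring

theorem sum_of_prod {Ω : Type} (T : Finset Ω) (f : Ω → ℕ) (h : 512 ≤ ∏ l ∈ T, f l) :
    18 ≤ ∑ l ∈ T, f l := by
  by_contra hc
  have h1 : (∏ l ∈ T, f l) ^ 3 ≤ 3 ^ (∑ l ∈ T, f l) := by
    rw [← Finset.prod_pow, ← Finset.prod_pow_eq_pow_sum]
    exact Finset.prod_le_prod' (fun l _ => cube_le (f l))
  have h2 : 3 ^ (∑ l ∈ T, f l) ≤ 3 ^ 17 := Nat.pow_le_pow_right (by norm_num) (by omega)
  have h3 : 512 ^ 3 ≤ (∏ l ∈ T, f l) ^ 3 := Nat.pow_le_pow_left h 3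
  have : (512 : ℕ) ^ 3 ≤ 3 ^ 17 := le_trans h3 (le_trans h1 h2)
  norm_num at this

/-- the finite numerical check -/
def chk (N A B e : ℕ) : ℕ → Bool
  | 0 => true
  | b + 1 => (Nat.blt ((N - b - 36) ^ b) (A ^ e) &&
      Nat.blt ((N - b) ^ b) (2 ^ b * B ^ e)) && chk N A B e b

theorem chk_spec (N A B e : ℕ) : ∀ M : ℕ, chk N A B e M = true → ∀ b < M,
    (N - b - 36) ^ b < A ^ e ∧ (N - b) ^ b < 2 ^ b * B ^ e
  | 0, _ => by intro b hb; omega
  | M + 1, h => by
    intro b hb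
    simp only [chk, Bool.and_eq_true] at h
    rcases Nat.lt_succ_iff_lt_or_eq.1 hb with h' | h'
    · exact chk_spec N A B e M h.2 b h'
    · subst h'
      exact ⟨Nat.blt_eq ▸ h.1.1, Nat.blt_eq ▸ h.1.2⟩

theorem chk_true : chk 1567 1024 512 1022 1568 = true := by decide +kernel

end Pool.Agent.Q94.VarLower
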