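import Mathlib

/-!
# An economical representation of a rank-two variant with kernel type `(1, n-1)`

`V = (Fin n → Fin n)` with the product `x ⋆ y = x ∘ a ∘ y`, where `a = av z o` sends `z` to `z` and
every other point to `o`.
-/

namespace Pool.Agent.Q94.VarUpper

open Finset

/-- the sandwich element -/
def av {n : ℕ} (z o : Fin n) : Fin n → Fin n := fun p => if p = z then z else o

/-- positions where `x` differs from `x z` -/
def D {n : ℕ} (z : Fin n) (x : Fin n → Fin n) : Finset (Fin n) :=
  univ.filter (fun j => x j ≠ x z)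

/-- products -/
def pr {n : ℕ} (z o : Fin n) (x : Fin n → Fin n) : Prop := ∃ u v, x = u ∘ av z o ∘ v

open Classical in
/-- a chosen element -/
noncomputable def js {n : ℕ} (z : Fin n) (S : Finset (Fin n)) : Fin n :=
  if h : S.Nonempty then h.choose else z

theorem av_z {n : ℕ} (z o : Fin n) : av z o z = z := by simp [av]

theorem av_ne {n : ℕ} {z o p : Fin n} (h : p ≠ z) : av z o p = o := by simp [av, h]

theorem av_mem {n : ℕ} (z o p : Fin n) : av z o p = z ∨ av z o p = o := by
  unfold av; split_ifs <;> simp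

theorem av_eq_z {n : ℕ} {z o : Fin n} (h : z ≠ o) (p : Fin n) : av z o p = z ↔ p = z := by
  unfold av; split_ifs with h1
  · simp [h1]
  · simp [h1, h.symm]

theorem av_av {n : ℕ} {z o : Fin n} (h : z ≠ o) (p : Fin n) : av z o (av z o p) = av z o p := by
  rcases av_mem z o p with h1 | h1 <;> rw [h1]
  · exact av_z z o
  · exact av_ne h.symm

section

variable {n : ℕ} {z o : Fin n}

theorem mem_D {x : Fin n → Fin n} {j : Fin n} : j ∈ D z x ↔ x j ≠ x z := by simp [D]

theorem D_prod_eq (u v : Fin n → Fin n) (h : u z = u o) : D z (u ∘ av z o ∘ v) = ∅ := by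
  ext j
  simp only [mem_D, Function.comp_apply, Finset.notMem_empty, iff_false, not_not]
  rcases av_mem z o (v j) with h1 | h1 <;> rcases av_mem z o (v z) with h2 | h2 <;>
    simp [h1, h2, h]

theorem D_prod_ne (u v : Fin n → Fin n) (h : u z ≠ u o) :
    D z (u ∘ av z o ∘ v) = D z (av z o ∘ v) := by
  ext j
  simp only [mem_D, Function.comp_apply]
  rcases av_mem z o (v j) with h1 | h1 <;> rcases av_mem z o (v z) with h2 | h2 <;>
    simp [h1, h2, h, h.symm, ne_comm]
  · intro h3; exact h (by rw [h3])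
  · intro h3; exact h (by rw [h3])

theorem D_av_no (hzo : z ≠ o) (v : Fin n → Fin n) (h : ∀ j, v j ≠ z) : D z (av z o ∘ v) = ∅ := by
  ext j
  simp [mem_D, av_ne (h j), av_ne (h z)]

theorem D_av_yes (hzo : z ≠ o) (v : Fin n → Fin n) (hv : pr z o v) (h : ∃ j, v j = z) :
    D z (av z o ∘ v) = D z v := by
  obtain ⟨u, w, rfl⟩ := hv
  obtain ⟨i, hi⟩ := h
  ext j
  simp only [mem_D, Function.comp_apply] at hi ⊢
  rcases av_mem z o (w i) with h0 | h0 <;>
  rcases av_mem z o (w j) with h1 | h1 <;> rcases av_mem z o (w z) with h2 | h2 <;>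
    simp only [h0, h1, h2, ne_eq, not_true_eq_false] at hi ⊢ <;>
    simp only [hi, av_z] <;>
    · rw [not_iff_not]
      constructor
      · intro h3
        first
        | exact ((av_eq_z hzo _).1 h3.symm).symm
        | exact ((av_eq_z hzo _).1 h3)
      · intro h3
        first
        | rw [← h3, av_z]
        | rw [h3, av_z]

end

/-- The data of the construction. -/
structure Setup (n : ℕ) (L W Γ B : Type) [Fintype B] [Fintype Γ] [DecidableEq B] where
  z : Fin n
  o : Fin n
  hzo : z ≠ o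
  θ : L → Fin n → Option W
  θz : ∀ l, θ l z = none
  θn : ∀ l p, p ≠ z → θ l p ≠ none
  θinj : ∀ p q, (∀ l, θ l p = θ l q) → p = q
  c0 : Γ
  c1 : Γ
  c01 : c0 ≠ c1
  H : Finset (Fin n) → Finset B
  H0 : H ∅ = ∅
  Hinj : ∀ S T : Finset (Fin n), z ∉ S → z ∉ T → H S = H T → S = T
  code : (Fin n → Fin n) → B → Γ
  hcode : ∀ x y : Fin n → Fin n, x z = y z → x o = y o → av z o ∘ x = av z o ∘ y →
    (∀ ω, ω ∉ H (D z (av z o ∘ x)) → code x ω = code y ω) → x = y

namespace Setup

variable {n : ℕ} {L W Γ B : Type} [Fintype B] [Fintype Γ] [DecidableEq B]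
  (S : Setup n L W Γ B)

/-- action on the natural components -/
def An (l : L) (x : Fin n → Fin n) : Option W → Option W
  | none => S.θ l (x S.z)
  | some _ => S.θ l (x S.o)

open Classical in
/-- action on the special component -/
noncomputable def Ab (x : Fin n → Fin n) : Option Γ → Option Γ
  | none => if x S.z = x S.o then some S.c0 else
      if x S.z = S.z ∨ x S.o = S.z then none else some S.c1
  | some _ => some S.c0

open Classical in
/-- extra natural points -/
noncomputable def en (l : L) (x : Fin n → Fin n) : Option W :=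
  if pr S.z S.o x then S.θ l (x (js S.z (D S.z x)))
  else S.θ l (av S.z S.o (x (js S.z (D S.z (av S.z S.o ∘ x)))))

open Classical in
/-- extra special points -/
noncomputable def eb (x : Fin n → Fin n) (ω : B) : Option Γ :=
  if pr S.z S.o x then
    (if ω ∈ S.H (D S.z x) then (if ∃ j, x j = S.z then none else some S.c1) else some S.c0)
  else (if ω ∈ S.H (D S.z (av S.z S.o ∘ x)) then none else some (S.code x ω))

open Classical in
/-- the flag -/
noncomputable def fl (x : Fin n → Fin n) : Option Γ :=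
  if pr S.z S.o x then some S.c0 else some S.c1

/-- the set of points -/
abbrev Om (L W Γ B : Type) : Type := (L × (Option W ⊕ Unit)) ⊕ (Option Γ ⊕ (B ⊕ Unit))

/-- the representation -/
noncomputable def φ (x : Fin n → Fin n) : Om L W Γ B → Om L W Γ B
  | .inl (l, .inl w) => .inl (l, .inl (S.An l x w))
  | .inl (l, .inr ()) => .inl (l, .inl (S.en l x))
  | .inr (.inl g) => .inr (.inl (S.Ab x g))
  | .inr (.inr (.inl ω)) => .inr (.inl (S.eb x ω))
  | .inr (.inr (.inr ())) => .inr (.inl (S.fl x))

theorem An_θ (l : L) (u : Fin n → Fin n) (p : Fin n) :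
    S.An l u (S.θ l p) = S.θ l (u (av S.z S.o p)) := by
  by_cases hp : p = S.z
  · subst hp
    rw [S.θz, av_z]; rfl
  · rw [av_ne hp]
    obtain ⟨w, hw⟩ := Option.ne_none_iff_exists'.1 (S.θn l p hp)
    rw [hw]; rfl

theorem An_hom (l : L) (u v : Fin n → Fin n) (w : Option W) :
    S.An l (u ∘ av S.z S.o ∘ v) w = S.An l u (S.An l v w) := by
  cases w with
  | none =>
    show S.θ l (u (av S.z S.o (v S.z))) = S.An l u (S.θ l (v S.z))
    rw [An_θ]
  | some d =>
    show S.θ l (u (av S.z S.o (v S.o))) = S.An l u (S.θ l (v S.o))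
    rw [An_θ]

theorem pr_mul (u v : Fin n → Fin n) : pr S.z S.o (u ∘ av S.z S.o ∘ v) := ⟨u, v, rfl⟩

theorem en_hom (l : L) (u v : Fin n → Fin n) :
    S.en l (u ∘ av S.z S.o ∘ v) = S.An l u (S.en l v) := by
  classical
  have key : S.en l (u ∘ av S.z S.o ∘ v) =
      S.θ l (u (av S.z S.o (v (js S.z (D S.z (av S.z S.o ∘ v)))))) := by
    rw [en, if_pos (S.pr_mul u v)]
    by_cases h : u S.z = u S.o
    · have hc : ∀ p q, u (av S.z S.o p) = u (av S.z S.o q) := by
        intro p q
        rcases av_mem S.z S.o p with h1 | h1 <;> rcases av_mem S.z S.o q with h2 | h2 <;>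
          simp [h1, h2, h]
      simp only [Function.comp_apply]
      rw [hc]
    · rw [D_prod_ne u v h]
      rfl
  rw [key]
  by_cases hv : pr S.z S.o v
  · rw [en, if_pos hv, An_θ]
    by_cases hz : ∃ j, v j = S.z
    · rw [D_av_yes S.hzo v hv hz]
    · push Not at hz
      rw [av_ne (hz _), av_ne (hz _)]
  · rw [en, if_neg hv, An_θ, av_av S.hzo]

theorem Ab_hom (u v : Fin n → Fin n) (g : Option Γ) :
    S.Ab (u ∘ av S.z S.o ∘ v) g = S.Ab u (S.Ab v g) := by
  classical
  cases g with
  | none =>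
    simp only [Ab, Function.comp_apply]
    by_cases h1 : v S.z = v S.o
    · simp [h1]
    · by_cases h2 : v S.z = S.z
      · have h3 : v S.o ≠ S.z := fun h => h1 (h2.trans h.symm)
        have h4 : ¬ (S.z = v S.o) := fun h => h3 h.symm
        simp [h2, h4, av_z, av_ne h3]
      · by_cases h3 : v S.o = S.z
        · simp only [h3, av_z, av_ne h2, h2, if_false, or_true, if_true]
          by_cases h4 : u S.z = u S.o
          · simp [h4]
          · simp [h4, Ne.symm h4, or_comm]
        · simp [h1, h2, h3, av_ne h2, av_ne h3]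
  | some d => simp [Ab]

theorem eb_key (u v : Fin n → Fin n) (ω : B) (g : Option Γ)
    (hg : g = none ↔ ω ∈ S.H (D S.z (av S.z S.o ∘ v))) :
    S.eb (u ∘ av S.z S.o ∘ v) ω = S.Ab u g := by
  classical
  rw [eb, if_pos (S.pr_mul u v)]
  by_cases hω : ω ∈ S.H (D S.z (av S.z S.o ∘ v))
  · rw [hg.2 hω]
    simp only [Ab]
    by_cases h : u S.z = u S.o
    · rw [D_prod_eq u v h, S.H0, if_pos h]; simp
    · rw [D_prod_ne u v h, if_pos hω, if_neg h]
      have hne : (D S.z (av S.z S.o ∘ v)).Nonempty := by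
        rw [Finset.nonempty_iff_ne_empty]
        intro h0
        rw [h0, S.H0] at hω
        simp at hω
      obtain ⟨j, hj⟩ := hne
      rw [mem_D] at hj
      simp only [Function.comp_apply] at hj
      have : (∃ j, (u ∘ av S.z S.o ∘ v) j = S.z) ↔ (u S.z = S.z ∨ u S.o = S.z) := by
        constructor
        · rintro ⟨i, hi⟩
          simp only [Function.comp_apply] at hi
          rcases av_mem S.z S.o (v i) with h1 | h1 <;> rw [h1] at hi
          · exact Or.inl hi
          · exact Or.inr hi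
        · rcases av_mem S.z S.o (v j) with h1 | h1 <;>
            rcases av_mem S.z S.o (v S.z) with h2 | h2 <;> rw [h1, h2] at hj
          · exact absurd rfl hj
          · rintro (h3 | h3)
            · exact ⟨j, by simp [h1, h3]⟩
            · exact ⟨S.z, by simp [h2, h3]⟩
          · rintro (h3 | h3)
            · exact ⟨S.z, by simp [h2, h3]⟩
            · exact ⟨j, by simp [h1, h3]⟩
          · exact absurd rfl hj
      by_cases h5 : u S.z = S.z ∨ u S.o = S.z
      · rw [if_pos (this.2 h5), if_pos h5]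
      · rw [if_neg (fun h => h5 (this.1 h)), if_neg h5]
  · have hg' : g ≠ none := fun h => hω (hg.1 h)
    obtain ⟨d, rfl⟩ := Option.ne_none_iff_exists'.1 hg'
    simp only [Ab]
    rw [if_neg]
    by_cases h : u S.z = u S.o
    · rw [D_prod_eq u v h, S.H0]; simp
    · rw [D_prod_ne u v h]; exact hω

theorem eb_none (v : Fin n → Fin n) (ω : B) :
    S.eb v ω = none ↔ ω ∈ S.H (D S.z (av S.z S.o ∘ v)) := by
  classical
  rw [eb]
  by_cases hv : pr S.z S.o v
  · rw [if_pos hv]
    by_cases hz : ∃ j, v j = S.z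
    · rw [D_av_yes S.hzo v hv hz]
      by_cases hω : ω ∈ S.H (D S.z v) <;> simp [hω, hz]
    · have hz' := hz
      push Not at hz'
      rw [D_av_no S.hzo v hz', S.H0]
      by_cases hω : ω ∈ S.H (D S.z v) <;> simp [hω, hz]
  · rw [if_neg hv]
    by_cases hω : ω ∈ S.H (D S.z (av S.z S.o ∘ v)) <;> simp [hω]

theorem hom (u v : Fin n → Fin n) : S.φ (u ∘ av S.z S.o ∘ v) = S.φ u ∘ S.φ v := by
  classical
  funext p
  match p with
  | .inl (l, .inl w) => simp only [φ, Function.comp_apply, An_hom]
  | .inl (l, .inr ()) => simp only [φ, Function.comp_apply, en_hom]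
  | .inr (.inl g) => simp only [φ, Function.comp_apply, Ab_hom]
  | .inr (.inr (.inl ω)) =>
    simp only [φ, Function.comp_apply]
    rw [S.eb_key u v ω (S.eb v ω) (S.eb_none v ω)]
  | .inr (.inr (.inr ())) =>
    simp only [φ, Function.comp_apply, fl]
    rw [if_pos (S.pr_mul u v)]
    split_ifs <;> rfl

theorem av_determined {x y : Fin n → Fin n} (h0 : x S.z = y S.z)
    (hD : D S.z (av S.z S.o ∘ x) = D S.z (av S.z S.o ∘ y)) :
    av S.z S.o ∘ x = av S.z S.o ∘ y := by
  funext j
  have h1 : j ∈ D S.z (av S.z S.o ∘ x) ↔ j ∈ D S.z (av S.z S.o ∘ y) := by rw [hD]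
  rw [mem_D, mem_D] at h1
  simp only [Function.comp_apply] at h1 ⊢
  rw [h0] at h1
  rcases av_mem S.z S.o (x j) with h2 | h2 <;> rcases av_mem S.z S.o (y j) with h3 | h3 <;>
    rcases av_mem S.z S.o (y S.z) with h4 | h4 <;> rw [h2, h3] <;> rw [h2, h3, h4] at h1 <;>
    simp at h1
  · exact h1.symm
  · exact h1
  · exact h1
  · exact h1.symm

theorem pr_two {x : Fin n → Fin n} (hx : pr S.z S.o x) {i j k : Fin n} (hi : x i ≠ x k)
    (hj : x j ≠ x k) : x i = x j := by
  obtain ⟨u, v, rfl⟩ := hx
  simp only [Function.comp_apply] at *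
  rcases av_mem S.z S.o (v i) with h1 | h1 <;> rcases av_mem S.z S.o (v j) with h2 | h2 <;>
    rcases av_mem S.z S.o (v k) with h3 | h3 <;> simp_all

theorem js_mem {T : Finset (Fin n)} (h : T.Nonempty) : js S.z T ∈ T := by
  classical
  rw [js, dif_pos h]
  exact h.choose_spec

theorem inj : Function.Injective S.φ := by
  classical
  intro x y hxy
  have e0 : ∀ l, S.θ l (x S.z) = S.θ l (y S.z) := by
    intro l
    have := congrFun hxy (.inl (l, .inl none))
    simpa [φ, An] using this
  have h0 : x S.z = y S.z := S.θinj _ _ e0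
  have eo : x S.o = y S.o := by
    apply S.θinj
    intro l
    obtain ⟨w, hw⟩ := Option.ne_none_iff_exists'.1 (S.θn l S.o S.hzo.symm)
    have := congrFun hxy (.inl (l, .inl (some w)))
    simpa [φ, An] using this
  have eb' : ∀ ω, S.eb x ω = S.eb y ω := by
    intro ω
    have := congrFun hxy (.inr (.inr (.inl ω)))
    simpa [φ] using this
  have en' : ∀ l, S.en l x = S.en l y := by
    intro l
    have := congrFun hxy (.inl (l, .inr ()))
    simpa [φ] using this
  have fl' : S.fl x = S.fl y := by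
    have := congrFun hxy (.inr (.inr (.inr ())))
    simpa [φ] using this
  have hH : S.H (D S.z (av S.z S.o ∘ x)) = S.H (D S.z (av S.z S.o ∘ y)) := by
    ext ω
    rw [← S.eb_none, ← S.eb_none, eb' ω]
  have hz : ∀ f : Fin n → Fin n, S.z ∉ D S.z f := by
    intro f; simp [mem_D]
  have hD := S.Hinj _ _ (hz _) (hz _) hH
  have hav := S.av_determined h0 hD
  by_cases hx : pr S.z S.o x
  · by_cases hy : pr S.z S.o y
    · have hHx : S.H (D S.z x) = S.H (D S.z y) := by
        ext ω
        have h := eb' ω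
        rw [eb, eb, if_pos hx, if_pos hy] at h
        have k : ∀ f : Fin n → Fin n, (if ω ∈ S.H (D S.z f) then
            (if ∃ j, f j = S.z then none else some S.c1) else some S.c0) = some S.c0 ↔
            ω ∉ S.H (D S.z f) := by
          intro f
          by_cases h1 : ω ∈ S.H (D S.z f)
          · by_cases h2 : ∃ j, f j = S.z
            · simp [h1, h2]
            · simp [h1, h2, S.c01.symm]
          · simp [h1]
        rw [← not_iff_not, ← k x, ← k y, h]
      have hDx := S.Hinj _ _ (hz _) (hz _) hHx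
      have hq : x (js S.z (D S.z x)) = y (js S.z (D S.z x)) := by
        apply S.θinj
        intro l
        have := en' l
        rw [en, en, if_pos hx, if_pos hy, ← hDx] at this
        exact this
      funext j
      by_cases hj : j ∈ D S.z x
      · have hjs := S.js_mem ⟨j, hj⟩
        have h1 : x j = x (js S.z (D S.z x)) := S.pr_two hx (mem_D.1 hj) (mem_D.1 hjs)
        rw [hDx] at hj hjs
        have h2 : y j = y (js S.z (D S.z y)) := S.pr_two hy (mem_D.1 hj) (mem_D.1 hjs)
        rw [h1, h2, hq, hDx]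
      · have hj' : j ∉ D S.z y := by rw [← hDx]; exact hj
        rw [mem_D, not_not] at hj hj'
        rw [hj, hj', h0]
    · rw [fl, fl, if_pos hx, if_neg hy] at fl'
      exact absurd (Option.some.inj fl') S.c01
  · by_cases hy : pr S.z S.o y
    · rw [fl, fl, if_neg hx, if_pos hy] at fl'
      exact absurd (Option.some.inj fl').symm S.c01
    · apply S.hcode x y h0 eo hav
      intro ω hω
      have h := eb' ω
      rw [eb, eb, if_neg hx, if_neg hy, if_neg hω, if_neg (by rw [← hD]; exact hω)] at h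
      exact Option.some.inj h

end Setup

/-! ### The cardinality condition -/

section card

variable {n : ℕ}

/-- a key class injects into functions -/
theorem card_key (z o : Fin n) (hzo : z ≠ o) (x : Fin n → Fin n) :
    Nat.card {y : Fin n → Fin n // y z = x z ∧ y o = x o ∧ av z o ∘ y = av z o ∘ x} ≤
      (n - 1) ^ (univ.filter (fun j : Fin n => j ≠ z ∧ j ≠ o ∧ x j ≠ z)).card := by
  classical
  have hcod : Fintype.card {p : Fin n // p ≠ z} = n - 1 := by
    rw [Fintype.card_subtype_compl]; simp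
  have hdom : Fintype.card {j : Fin n // j ≠ z ∧ j ≠ o ∧ x j ≠ z} =
    (univ.filter (fun j : Fin n => j ≠ z ∧ j ≠ o ∧ x j ≠ z)).card := Fintype.card_subtype _
  rw [Nat.card_eq_fintype_card, ← hcod, ← hdom, ← Fintype.card_fun]
  have hne : ∀ (y : {y : Fin n → Fin n // y z = x z ∧ y o = x o ∧ av z o ∘ y = av z o ∘ x})
      (j : Fin n), y.1 j = z ↔ x j = z := by
    intro y j
    have := congrFun y.2.2.2 j
    simp only [Function.comp_apply] at this
    rw [← av_eq_z hzo, this, av_eq_z hzo]
  apply Fintype.card_le_of_injective (fun y => fun j : {j : Fin n // j ≠ z ∧ j ≠ o ∧ x j ≠ z} =>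
    (⟨y.1 j.1, fun h => j.2.2.2 ((hne y j.1).1 h)⟩ : {p : Fin n // p ≠ z}))
  intro y y' h
  apply Subtype.ext
  funext j
  by_cases h1 : j = z
  · rw [h1, y.2.1, y'.2.1]
  by_cases h2 : j = o
  · rw [h2, y.2.2.1, y'.2.2.1]
  by_cases h3 : x j = z
  · rw [(hne y j).2 h3, (hne y' j).2 h3]
  · have := congrFun h ⟨j, h1, h2, h3⟩
    exact congrArg Subtype.val this

/-- the small set attached to a set -/
def mn (S : Finset (Fin n)) : Finset (Fin n) := if 2 * S.card ≤ n then S else Sᶜ

theorem mn_inj (z : Fin n) (S T : Finset (Fin n)) (hS : z ∉ S) (hT : z ∉ T)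
    (h : mn S = mn T) : S = T := by
  unfold mn at h
  split_ifs at h with h1 h2 h2
  · exact h
  · exact absurd (by rw [h]; simpa using hT) hS
  · exact absurd (by rw [← h]; simpa using hS) hT
  · exact compl_injective h

theorem mn_card (S : Finset (Fin n)) : (mn S).card ≤ S.card ∧ (mn S).card ≤ n - S.card := by
  unfold mn
  have h0 : S.card ≤ n := by simpa using Finset.card_le_univ S
  split_ifs with h1
  · exact ⟨le_rfl, by omega⟩
  · rw [Finset.card_compl, Fintype.card_fin]
    exact ⟨by omega, le_rfl⟩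

theorem exponent (z o : Fin n) (hzo : z ≠ o) (x : Fin n → Fin n) :
    (univ.filter (fun j : Fin n => j ≠ z ∧ j ≠ o ∧ x j ≠ z)).card ≤ n - 2 ∧
    (univ.filter (fun j : Fin n => j ≠ z ∧ j ≠ o ∧ x j ≠ z)).card ≤
      n - (mn (D z (av z o ∘ x))).card := by
  classical
  constructor
  · have h1 : (univ.filter (fun j : Fin n => j ≠ z ∧ j ≠ o ∧ x j ≠ z)) ⊆
        ({z, o} : Finset (Fin n))ᶜ := by
      intro j; simp only [mem_filter, mem_univ, true_and, mem_compl, mem_insert, mem_singleton]
      rintro ⟨h1, h2, _⟩ (h3 | h3)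
      · exact h1 h3
      · exact h2 h3
    have h2 := Finset.card_le_card h1
    rw [Finset.card_compl, Fintype.card_fin, Finset.card_pair hzo] at h2
    exact h2
  · obtain ⟨m1, m2⟩ := mn_card (D z (av z o ∘ x))
    have h0 : (D z (av z o ∘ x)).card ≤ n := by
      simpa using Finset.card_le_univ (D z (av z o ∘ x))
    by_cases hx : x z = z
    · have h1 : (univ.filter (fun j : Fin n => j ≠ z ∧ j ≠ o ∧ x j ≠ z)) ⊆
          D z (av z o ∘ x) := by
        intro j
        simp only [mem_filter, mem_univ, true_and, mem_D, Function.comp_apply]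
        rintro ⟨_, _, h3⟩
        rw [hx, av_z, av_ne h3]
        exact hzo.symm
      have h2 := Finset.card_le_card h1
      omega
    · have h1 : (univ.filter (fun j : Fin n => j ≠ z ∧ j ≠ o ∧ x j ≠ z)) ⊆
          (D z (av z o ∘ x))ᶜ := by
        intro j
        simp only [mem_filter, mem_univ, true_and, mem_compl, mem_D, Function.comp_apply]
        rintro ⟨_, _, h3⟩
        rw [av_ne hx, av_ne h3]
        simp
      have h2 := Finset.card_le_card h1
      rw [Finset.card_compl, Fintype.card_fin] at h2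
      omega

end card

/-- existence of the code -/
theorem exists_code {n : ℕ} {Γ B : Type} [Fintype Γ] [Fintype B] [DecidableEq B] [Inhabited Γ]
    (z o : Fin n) (H : Finset (Fin n) → Finset B)
    (hc : ∀ x : Fin n → Fin n,
      Nat.card {y : Fin n → Fin n // y z = x z ∧ y o = x o ∧ av z o ∘ y = av z o ∘ x} ≤
        Fintype.card Γ ^ (Fintype.card B - (H (D z (av z o ∘ x))).card)) :
    ∃ code : (Fin n → Fin n) → B → Γ, ∀ x y : Fin n → Fin n, x z = y z → x o = y o →
      av z o ∘ x = av z o ∘ y →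
      (∀ ω, ω ∉ H (D z (av z o ∘ x)) → code x ω = code y ω) → x = y := by
  classical
  have hemb : ∀ (s0 s1 : Fin n) (τ : Fin n → Fin n), Nonempty
      ({y : Fin n → Fin n // y z = s0 ∧ y o = s1 ∧ av z o ∘ y = τ} ↪
        ({ω : B // ω ∉ H (D z τ)} → Γ)) := by
    intro s0 s1 τ
    by_cases hne : ∃ y : Fin n → Fin n, y z = s0 ∧ y o = s1 ∧ av z o ∘ y = τ
    · obtain ⟨x, rfl, rfl, rfl⟩ := hne
      apply Function.Embedding.nonempty_of_card_le
      rw [Fintype.card_fun, Fintype.card_subtype_compl, Fintype.card_coe,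
        ← Nat.card_eq_fintype_card]
      exact hc x
    · have : IsEmpty {y : Fin n → Fin n // y z = s0 ∧ y o = s1 ∧ av z o ∘ y = τ} :=
        ⟨fun y => hne ⟨y.1, y.2⟩⟩
      exact ⟨Function.Embedding.ofIsEmpty⟩
  have emb := fun s0 s1 τ => Classical.choice (hemb s0 s1 τ)
  let code : (Fin n → Fin n) → B → Γ := fun x ω =>
    if h : ω ∉ H (D z (av z o ∘ x)) then
      (emb (x z) (x o) (av z o ∘ x)) ⟨x, rfl, rfl, rfl⟩ ⟨ω, h⟩ else default
  have code_eq : ∀ (x : Fin n → Fin n) (s0 s1 : Fin n) (τ : Fin n → Fin n)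
      (hx : x z = s0 ∧ x o = s1 ∧ av z o ∘ x = τ) (ω : B) (h : ω ∉ H (D z τ)),
      code x ω = emb s0 s1 τ ⟨x, hx⟩ ⟨ω, h⟩ := by
    intro x s0 s1 τ hx ω h
    obtain ⟨rfl, rfl, rfl⟩ := hx
    simp only [code]
    rw [dif_pos h]
  refine ⟨code, ?_⟩
  intro x y h0 h1 h2 h3
  have hy : y z = x z ∧ y o = x o ∧ av z o ∘ y = av z o ∘ x := ⟨h0.symm, h1.symm, h2.symm⟩
  have : emb (x z) (x o) (av z o ∘ x) ⟨x, rfl, rfl, rfl⟩ =
      emb (x z) (x o) (av z o ∘ x) ⟨y, hy⟩ := by
    funext ω
    have e := h3 ω.1 ω.2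
    rw [code_eq x _ _ _ ⟨rfl, rfl, rfl⟩ ω.1 ω.2, code_eq y _ _ _ hy ω.1 ω.2] at e
    exact e
  have := (emb (x z) (x o) (av z o ∘ x)).injective this
  exact congrArg Subtype.val this

end Pool.Agent.Q94.VarUpper
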